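import Pool.Agent.Run7.h25.TV.Three
import Pool.Agent.Helper460_PR.Hopf

/-!
# Zariski dense and profinitely dense subgroups
-/

set_option autoImplicit false
set_option linter.unusedSectionVars false

namespace Pool.Agent.Run7.h25.TV

open Matrix Pool.Agent.Helper460_CSP

variable {n : ℕ}

/-- `H` is Zariski dense in `SL (n, ℂ)`. -/
def ZariskiDense' (H : Subgroup (SpecialLinearGroup (Fin n) ℤ)) : Prop :=
  ∀ P : MvPolynomial (Fin n × Fin n) ℂ,
    (∀ A ∈ H, MvPolynomial.eval (fun p => ((A.1 p.1 p.2 : ℤ) : ℂ)) P = 0) →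
    ∀ B : SpecialLinearGroup (Fin n) ℂ, MvPolynomial.eval (fun p => B.1 p.1 p.2) P = 0

lemma pf_poly {F : SpecialLinearGroup (Fin n) ℤ → ℤ} (hF : PF F) :
    ∃ P : MvPolynomial (Fin n × Fin n) ℤ, ∀ g,
      F g = MvPolynomial.eval (fun p => mt g p.1 p.2) P := by
  induction hF with
  | const c => exact ⟨MvPolynomial.C c, fun g => by simp⟩
  | ent i j => exact ⟨MvPolynomial.X (i, j), fun g => by simp⟩
  | ient i j =>
    refine ⟨(Matrix.mvPolynomialX (Fin n) (Fin n) ℤ).adjugate i j, fun g => ?_⟩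
    have h1 := RingHom.map_adjugate (MvPolynomial.eval (fun p : Fin n × Fin n => mt g p.1 p.2))
      (Matrix.mvPolynomialX (Fin n) (Fin n) ℤ)
    rw [Matrix.mvPolynomialX_mapMatrix_eval] at h1
    have h2 := congrFun (congrFun h1 i) j
    rw [RingHom.mapMatrix_apply, Matrix.map_apply] at h2
    rw [h2]
    rfl
  | add _ _ ih1 ih2 =>
    obtain ⟨P, hP⟩ := ih1
    obtain ⟨Q, hQ⟩ := ih2
    exact ⟨P + Q, fun g => (congrArg₂ (· + ·) (hP g) (hQ g)).trans (map_add _ _ _).symm⟩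
  | mul _ _ ih1 ih2 =>
    obtain ⟨P, hP⟩ := ih1
    obtain ⟨Q, hQ⟩ := ih2
    exact ⟨P * Q, fun g => (congrArg₂ (· * ·) (hP g) (hQ g)).trans (map_mul _ _ _).symm⟩

lemma eval_cast (P : MvPolynomial (Fin n × Fin n) ℤ) (f : Fin n × Fin n → ℤ) :
    MvPolynomial.eval (fun p => ((f p : ℤ) : ℂ)) (P.map (Int.castRingHom ℂ)) =
      ((MvPolynomial.eval f P : ℤ) : ℂ) := by
  rw [MvPolynomial.eval_map]
  have := MvPolynomial.eval₂_comp_left (Int.castRingHom ℂ) (RingHom.id ℤ) f P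
  rw [RingHom.comp_id] at this
  exact this.symm

theorem zd_of_zariski {H : Subgroup (SpecialLinearGroup (Fin n) ℤ)} (hH : ZariskiDense' H) :
    Zd H := by
  rintro F hF ⟨g, hg⟩
  by_contra hcon
  push Not at hcon
  obtain ⟨P, hP⟩ := pf_poly hF
  have h1 := hH (P.map (Int.castRingHom ℂ)) (fun A hA => by
    have h2 := hcon A hA
    rw [hP] at h2
    have h3 := eval_cast P (fun p => mt A p.1 p.2)
    rw [h2, Int.cast_zero] at h3
    exact h3) (SpecialLinearGroup.map (Int.castRingHom ℂ) g)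
  have h3 := eval_cast P (fun p => mt g p.1 p.2)
  rw [← hP] at h3
  have h4 : MvPolynomial.eval (fun p => ((mt g p.1 p.2 : ℤ) : ℂ)) (P.map (Int.castRingHom ℂ)) =
    0 := h1
  rw [h4] at h3
  exact hg (by exact_mod_cast h3.symm)

lemma ker_index {M : ℤ} (hM : M ≠ 0) : (SpecialLinearGroup.map (n := Fin n)
    (Int.castRingHom (ZMod M.natAbs))).ker.index ≠ 0 := by
  have hne : NeZero M.natAbs := ⟨Int.natAbs_ne_zero.2 hM⟩
  have hfin : Finite (SpecialLinearGroup (Fin n) (ZMod M.natAbs)) :=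
    Finite.of_injective (fun A => A.1) Subtype.val_injective
  have h1 : (SpecialLinearGroup.map (n := Fin n)
    (Int.castRingHom (ZMod M.natAbs))).ker.FiniteIndex := inferInstance
  exact h1.index_ne_zero

theorem fi_index {H : Subgroup (SpecialLinearGroup (Fin n) ℤ)} (hH : Fi H) : H.index ≠ 0 := by
  obtain ⟨M, hM, hall⟩ := hH
  have hle : (SpecialLinearGroup.map (n := Fin n)
      (Int.castRingHom (ZMod M.natAbs))).ker ≤ H := fun A hA => hall A (cgr_iff.2 hA)
  intro h0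
  exact ker_index hM (Nat.eq_zero_of_zero_dvd (h0 ▸ Subgroup.index_dvd_of_le hle))

theorem dn_of_profinite {H : Subgroup (SpecialLinearGroup (Fin n) ℤ)}
    (hH : ∀ K : Subgroup (SpecialLinearGroup (Fin n) ℤ), K.index ≠ 0 → ∀ g, ∃ h ∈ H, g⁻¹ * h ∈ K) :
    Dn H := by
  intro g m hm
  obtain ⟨h, hh, hk⟩ := hH _ (ker_index hm) g
  exact ⟨h, hh, cgr_iff.2 hk⟩

end Pool.Agent.Run7.h25.TV
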