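import Pool.Agent.Run7.h25.TV.Cent

/-!
# The stabilisers of the centre and of the axis of a transvection
-/

set_option autoImplicit false
set_option linter.unusedSectionVars false

namespace Pool.Agent.Run7.h25.TV

open Matrix Pool.Agent.Helper460_CSP

variable {ι : Type} [DecidableEq ι] [Fintype ι] {H : Subgroup (SpecialLinearGroup ι ℤ)}

/-- A vector mapped to its own line is mapped to itself or to its negative. -/
lemma sq_vec {v : ι → ℤ} (hv : v ≠ 0) {g : SpecialLinearGroup ι ℤ} (h : Par v (av g v)) :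
    av (g * g) v = v := by
  obtain ⟨d, v', r, hd, hvd, hr⟩ := primitive hv
  obtain ⟨b, hb⟩ := Function.ne_iff.1 hv
  have hvb : v b ≠ 0 := hb
  have h1 : v b • av g v = (av g v b) • v := by
    ext i
    rw [Pi.smul_apply, Pi.smul_apply, smul_eq_mul, smul_eq_mul]
    linear_combination h b i
  have h2 : v b • av g v' = (av g v b) • v' := by
    have h3 : d • (v b • av g v') = d • ((av g v b) • v') := by
      rw [smul_comm, ← av_smul, ← hvd, h1, smul_comm d]
      congr 1
    ext i
    have := congrFun h3 i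
    rw [Pi.smul_apply, Pi.smul_apply d, smul_eq_mul, smul_eq_mul] at this
    exact mul_left_cancel₀ hd this
  have h4 := congrArg (fun y => r ⬝ᵥ y) h2
  simp only [dotProduct_smul, hr, smul_eq_mul, mul_one] at h4
  obtain ⟨e, he⟩ : ∃ e, e = r ⬝ᵥ av g v' := ⟨_, rfl⟩
  rw [← he] at h4
  have h5 : av g v' = e • v' := by
    ext i
    have := congrFun h2 i
    rw [Pi.smul_apply, Pi.smul_apply, smul_eq_mul, smul_eq_mul, ← h4] at this
    rw [Pi.smul_apply, smul_eq_mul]
    exact mul_left_cancel₀ hvb (by rw [this]; ring)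
  have h6 : e * (r ⬝ᵥ av g⁻¹ v') = 1 := by
    have h7 := congrArg (fun y => r ⬝ᵥ av g⁻¹ y) h5
    simp only [av_inv_av, hr, av_smul, dotProduct_smul, smul_eq_mul] at h7
    exact h7.symm
  have h8 : e * e = 1 := by
    rcases Int.isUnit_iff.1 (IsUnit.of_mul_eq_one _ h6) with h7 | h7
    · rw [h7]; norm_num
    · rw [h7]; norm_num
  rw [av_mul, hvd, av_smul, h5, av_smul, av_smul, h5, smul_smul e, h8, one_smul]

variable [Big ι]

/-- **The stabiliser of the centre of a transvection.** -/
theorem stab_v {z g : SpecialLinearGroup ι ℤ} {v φ : ι → ℤ} (hH : Zd H) (hz : z ∈ H) (hg : g ∈ H)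
    (hzt : IsTv z v φ) (hc : Par v (av g v)) (hpow : ∀ a b : ℤ, g ^ a = z ^ b → a = 0) :
    Fi H := by
  obtain ⟨hv, hφ, hφv, hzm⟩ := hzt
  have hTr : Tr H v φ := ⟨hφv, z, hz, hzm⟩
  obtain ⟨G, hG⟩ : ∃ G, G = g * g := ⟨_, rfl⟩
  have hGv : av G v = v := by rw [hG]; exact sq_vec hv hc
  have hGH : G ∈ H := by rw [hG]; exact mul_mem hg hg
  have hT := hTr.conj hGH
  rw [hGv] at hT
  by_cases hi : ∃ i j, φ i * cv G⁻¹ φ j - φ j * cv G⁻¹ φ i ≠ 0
  · exact caseB hH hv hφ hTr hT hi
  · push Not at hi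
    -- the transpose of `G⁻¹` maps `φ` to its own line
    have h1 : av G⁻¹.transpose φ = cv G⁻¹ φ := by
      show (mt G⁻¹)ᵀ *ᵥ φ = φ ᵥ* mt G⁻¹
      rw [mulVec_transpose]
    have h2 : av (G⁻¹.transpose * G⁻¹.transpose) φ = φ := by
      apply sq_vec hφ
      intro a b
      rw [h1]
      linear_combination hi a b
    have h3 : cv (G⁻¹ * G⁻¹) φ = φ := by
      rw [cv_mul, ← h1]
      have : av G⁻¹.transpose (av G⁻¹.transpose φ) = cv G⁻¹ (av G⁻¹.transpose φ) := by
        show (mt G⁻¹)ᵀ *ᵥ _ = _ ᵥ* mt G⁻¹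
        rw [mulVec_transpose]
      rw [← this, ← av_mul, h2]
    have h4 : cv (G * G)⁻¹ φ = φ := by
      rw [_root_.mul_inv_rev]
      exact h3
    have h5 : G * G * z = z * (G * G) := by
      apply mt_inj
      have h6 : mt (G * G) *ᵥ v = v := by
        show av (G * G) v = v
        rw [av_mul, hGv, hGv]
      have h7 : φ ᵥ* mt (G * G) = φ := by
        show cv (G * G) φ = φ
        conv_lhs => rw [← h4]
        rw [← cv_mul, inv_mul_cancel, cv_one]
      rw [mt_mul (G * G) z, mt_mul z (G * G), hzm, Matrix.mul_add, Matrix.add_mul, Matrix.mul_one,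
        Matrix.one_mul, mul_vecMulVec, vecMulVec_mul, h6, h7]
    refine cent hH hz (mul_mem hGH hGH) ⟨hv, hφ, hφv, hzm⟩ h5 (fun a b hab => ?_)
    have h8 : g ^ (4 * a) = z ^ b := by
      rw [← hab, hG]
      have : g * g * (g * g) = g ^ (4 : ℤ) := by
        rw [show (4 : ℤ) = 1 + 1 + (1 + 1) by norm_num, _root_.zpow_add, _root_.zpow_add, zpow_one]
      rw [this, ← _root_.zpow_mul]
    have h9 := hpow _ _ h8
    omega

/-- **The stabiliser of the axis of a transvection.** -/
theorem stab_f {z g : SpecialLinearGroup ι ℤ} {v φ : ι → ℤ} (hH : Zd H) (hz : z ∈ H) (hg : g ∈ H)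
    (hzt : IsTv z v φ) (hc : Par φ (cv g φ)) (hpow : ∀ a b : ℤ, g ^ a = z ^ b → a = 0) :
    Fi H := by
  obtain ⟨hv, hφ, hφv, hzm⟩ := hzt
  have hmul : ∀ A B : SpecialLinearGroup ι ℤ, (A * B).transpose = B.transpose * A.transpose :=
    fun A B => Subtype.ext (Matrix.transpose_mul _ _)
  have hone : (1 : SpecialLinearGroup ι ℤ).transpose = 1 := Subtype.ext Matrix.transpose_one
  have hinj : ∀ {A B : SpecialLinearGroup ι ℤ}, A.transpose = B.transpose → A = B := by
    intro A B h
    rw [← tt A, h, tt]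
  have hpw : ∀ (A : SpecialLinearGroup ι ℤ) (a : ℤ), (A ^ a).transpose = A.transpose ^ a := by
    intro A a
    let f : (SpecialLinearGroup ι ℤ) →* (SpecialLinearGroup ι ℤ)ᵐᵒᵖ :=
      { toFun := fun A => MulOpposite.op A.transpose
        map_one' := by rw [hone]; rfl
        map_mul' := fun A B => by rw [hmul]; rfl }
    have h1 := map_zpow f A a
    have h2 : MulOpposite.op (A ^ a).transpose = (MulOpposite.op A.transpose) ^ a := h1
    rw [← MulOpposite.op_zpow] at h2
    exact MulOpposite.op_injective h2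
  have htop : Fi (HT H) := by
    refine stab_v (z := z.transpose) (g := g.transpose) (v := φ) (φ := v) (Zd.transpose hH) ?_ ?_
      ⟨hφ, hv, by rw [dotProduct_comm]; exact hφv, ?_⟩ ?_ ?_
    · show z.transpose.transpose ∈ H
      rw [tt]; exact hz
    · show g.transpose.transpose ∈ H
      rw [tt]; exact hg
    · show (mt z)ᵀ = _
      rw [hzm, Matrix.transpose_add, Matrix.transpose_one, transpose_vecMulVec]
    · have : av g.transpose φ = cv g φ := by
        show (mt g)ᵀ *ᵥ φ = φ ᵥ* mt g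
        rw [mulVec_transpose]
      rw [this]
      exact hc
    · intro a b hab
      apply hpow a b
      apply hinj
      rw [hpw, hpw, hab]
  obtain ⟨M, hM, hall⟩ := htop
  refine ⟨M, hM, fun A hA => ?_⟩
  have h2 : A.transpose.transpose ∈ H := hall A.transpose (Cgr.transpose hA)
  rwa [tt] at h2

end Pool.Agent.Run7.h25.TV
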