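import Pool.Agent.Run7.h25.TV.Free

/-!
# Planes of centres of transvections
-/

set_option autoImplicit false
set_option linter.unusedSectionVars false

namespace Pool.Agent.Run7.h25.TV

open Matrix Pool.Agent.Helper460_CSP

variable {ι : Type} [DecidableEq ι] [Fintype ι] {H : Subgroup (SpecialLinearGroup ι ℤ)}

/-- The vector `y` is the centre of a transvection in `H`. -/
def Cen (H : Subgroup (SpecialLinearGroup ι ℤ)) (y : ι → ℤ) : Prop :=
  ∃ θ : ι → ℤ, θ ≠ 0 ∧ Tr H y θ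

lemma Cen.mul {y : ι → ℤ} (h : Cen H y) (c : ℤ) : Cen H (c • y) := by
  obtain ⟨θ, h1, h2⟩ := h
  exact ⟨θ, h1, h2.smulv c⟩

lemma Cen.of_mul {y : ι → ℤ} {c : ℤ} (h : Cen H (c • y)) (hc : c ≠ 0) : Cen H y := by
  obtain ⟨θ, h1, h2⟩ := h
  have h3 : θ ⬝ᵥ y = 0 := by
    have h4 := h2.1
    rw [dotProduct_smul, smul_eq_mul] at h4
    exact (mul_eq_zero.1 h4).resolve_left hc
  exact ⟨c • θ, smul_ne_zero hc h1, h2.swap h3⟩

lemma cv_ne {x : SpecialLinearGroup ι ℤ} {θ : ι → ℤ} (hθ : θ ≠ 0) : cv x θ ≠ 0 := by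
  intro h1
  apply hθ
  have h2 := congrArg (cv x⁻¹) h1
  rw [← cv_mul, mul_inv_cancel, cv_one] at h2
  rw [h2]
  exact zero_vecMul _

lemma av_ne {x : SpecialLinearGroup ι ℤ} {y : ι → ℤ} (hy : y ≠ 0) : av x y ≠ 0 := by
  intro h1
  apply hy
  have h2 := congrArg (av x⁻¹) h1
  rw [av_inv_av] at h2
  rw [h2]
  exact mulVec_zero _

lemma Cen.back {y : ι → ℤ} {s : SpecialLinearGroup ι ℤ} (hs : s ∈ H) (h : Cen H (av s y)) :
    Cen H y := by
  obtain ⟨θ, h1, h2⟩ := h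
  have h3 := h2.conj (inv_mem hs)
  rw [av_inv_av] at h3
  exact ⟨_, cv_ne h1, h3⟩

lemma mt_of_av {A : SpecialLinearGroup ι ℤ} {c θ : ι → ℤ}
    (h : ∀ y, av A y = y + (θ ⬝ᵥ y) • c) : mt A = 1 + vecMulVec c θ := by
  apply mulVec_injective
  funext y
  rw [add_mulVec, one_mulVec, vv_mulVec]
  exact h y

/-- The third cusp. -/
lemma cusp {v φ w ψ : ι → ℤ} (hz : Tr H v φ) (hT : Tr H w ψ)
    (h4 : (φ ⬝ᵥ w) * (ψ ⬝ᵥ v) = -4) : Cen H ((φ ⬝ᵥ w) • v + (2 : ℤ) • w) := by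
  obtain ⟨hφv, A, hA, hA'⟩ := hz
  obtain ⟨hψw, B, hB, hB'⟩ := hT
  obtain ⟨a, ha⟩ : ∃ a, a = φ ⬝ᵥ w := ⟨_, rfl⟩
  obtain ⟨b, hb⟩ : ∃ b, b = ψ ⬝ᵥ v := ⟨_, rfl⟩
  rw [← ha, ← hb] at h4
  rw [← ha]
  have hb0 : b ≠ 0 := by
    rintro rfl
    simp at h4
  have g1 : ∀ y, av (A * B) y = y + (φ ⬝ᵥ y + a * (ψ ⬝ᵥ y)) • v + (ψ ⬝ᵥ y) • w := by
    intro y
    rw [av_mul, av_of hB', av_of hA', dotProduct_add, dotProduct_smul, ← ha, smul_eq_mul,
      mul_comm (ψ ⬝ᵥ y) a]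
    abel
  have g2 : ∀ y, av (A * B * (A * B)) y =
      y + (-2 * (φ ⬝ᵥ y) - a * (ψ ⬝ᵥ y)) • v + (b * (φ ⬝ᵥ y) - 2 * (ψ ⬝ᵥ y)) • w := by
    intro y
    obtain ⟨p, hp⟩ : ∃ p, p = φ ⬝ᵥ y := ⟨_, rfl⟩
    obtain ⟨q, hq⟩ : ∃ q, q = ψ ⬝ᵥ y := ⟨_, rfl⟩
    have e1 : φ ⬝ᵥ (av (A * B) y) = p + a * q := by
      rw [g1, dotProduct_add, dotProduct_add, dotProduct_smul, dotProduct_smul, hφv, ← ha, ← hp,
        ← hq, smul_eq_mul, smul_eq_mul]
      ring
    have e2 : ψ ⬝ᵥ (av (A * B) y) = b * p - 3 * q := by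
      rw [g1, dotProduct_add, dotProduct_add, dotProduct_smul, dotProduct_smul, hψw, ← hb, ← hp,
        ← hq, smul_eq_mul, smul_eq_mul]
      linear_combination q * h4
    rw [av_mul, g1, e1, e2, g1, ← hp, ← hq]
    have e3 : (a * b + 4) • (p • v) = 0 := by
      rw [h4]
      simp
    linear_combination e3
  have g4 : ∀ y, av (A * B * (A * B) * (A * B * (A * B))) y =
      y + ((b • φ + (-2 : ℤ) • ψ) ⬝ᵥ y) • (a • v + (2 : ℤ) • w) := by
    intro y
    obtain ⟨p, hp⟩ : ∃ p, p = φ ⬝ᵥ y := ⟨_, rfl⟩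
    obtain ⟨q, hq⟩ : ∃ q, q = ψ ⬝ᵥ y := ⟨_, rfl⟩
    have e1 : φ ⬝ᵥ (av (A * B * (A * B)) y) = -3 * p - 2 * a * q := by
      rw [g2, dotProduct_add, dotProduct_add, dotProduct_smul, dotProduct_smul, hφv, ← ha, ← hp,
        ← hq, smul_eq_mul, smul_eq_mul]
      linear_combination p * h4
    have e2 : ψ ⬝ᵥ (av (A * B * (A * B)) y) = 5 * q - 2 * b * p := by
      rw [g2, dotProduct_add, dotProduct_add, dotProduct_smul, dotProduct_smul, hψw, ← hb, ← hp,
        ← hq, smul_eq_mul, smul_eq_mul]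
      linear_combination (-q) * h4
    rw [av_mul, g2, e1, e2, g2, add_dotProduct, smul_dotProduct, smul_dotProduct, ← hp, ← hq,
      smul_eq_mul, smul_eq_mul]
    have e3 : (a * b + 4) • (p • v) = 0 := by
      rw [h4]
      simp
    have e4 : (a * b + 4) • (q • w) = 0 := by
      rw [h4]
      simp
    linear_combination e3 - 2 * e4
  refine ⟨b • φ + (-2 : ℤ) • ψ, ?_, ?_, _, mul_mem (mul_mem (mul_mem hA hB) (mul_mem hA hB))
    (mul_mem (mul_mem hA hB) (mul_mem hA hB)), mt_of_av g4⟩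
  · intro h0
    have h1 := congrArg (fun z => z ⬝ᵥ v) h0
    simp only [add_dotProduct, smul_dotProduct, hφv, ← hb, smul_eq_mul, mul_zero, zero_add,
      zero_dotProduct] at h1
    omega
  · rw [add_dotProduct, smul_dotProduct, smul_dotProduct, dotProduct_add, dotProduct_add,
      dotProduct_smul, dotProduct_smul, dotProduct_smul, dotProduct_smul, hφv, hψw, ← ha, ← hb]
    simp only [smul_eq_mul]
    ring

variable [Big ι]

/-- A plane all of whose vectors are centres of transvections. -/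
theorem plane {v φ w : ι → ℤ} (hH : Zd H) (hv : v ≠ 0) (hφ : φ ≠ 0) (hz : Tr H v φ)
    (hnp : ¬ Par v w) (hall : ∀ x t : ℤ, t ≠ 0 → Cen H (x • v + t • w)) : Fi H := by
  obtain ⟨ξ, hξ0, hξv, hξw⟩ := ex_form hnp
  obtain ⟨g, hg⟩ := ex_one' hξ0 hv
  obtain ⟨k, hk, hkξ⟩ := PF.transfer (PF.doti ξ v) hH hg
  have hnpar : ∀ y : ι → ℤ, ξ ⬝ᵥ y = 0 → y ≠ 0 → ¬ Par v (av k y) := by
    intro y hy hy0 hp
    obtain ⟨c, hc⟩ := Function.ne_iff.1 hv
    have hvc : v c ≠ 0 := hc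
    have e1 := congrArg (av k⁻¹) (hp.smul_eq c)
    rw [av_smul, av_smul, av_inv_av] at e1
    have e2 := congrArg (fun z => ξ ⬝ᵥ z) e1
    simp only [dotProduct_smul, hy, smul_eq_mul, mul_zero] at e2
    have e3 := (mul_eq_zero.1 e2.symm).resolve_right hkξ
    rw [e3, zero_smul] at e1
    exact hy0 ((smul_eq_zero.1 e1).resolve_left hvc)
  by_cases hX : φ ⬝ᵥ av k v = 0
  · exact pairM hH hv hφ hz (hz.conj hk) (cv_ne hφ) hX (hnpar v hξv hv)
  · obtain ⟨θ, hθ, hT⟩ := hall (φ ⬝ᵥ av k w) (-(φ ⬝ᵥ av k v)) (neg_ne_zero.2 hX)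
    refine pairM hH hv hφ hz (hT.conj hk) (cv_ne hθ) ?_ (hnpar _ ?_ ?_)
    · rw [av_add, av_smul, av_smul, dotProduct_add, dotProduct_smul, dotProduct_smul, smul_eq_mul,
        smul_eq_mul]
      ring
    · rw [dotProduct_add, dotProduct_smul, dotProduct_smul, hξv, hξw, smul_zero, smul_zero,
        add_zero]
    · intro h0
      apply hnp
      intro i j
      have e1 := congrFun h0 i
      have e2 := congrFun h0 j
      simp only [Pi.add_apply, Pi.smul_apply, smul_eq_mul, Pi.zero_apply] at e1 e2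
      have e3 : (φ ⬝ᵥ av k v) * (v i * w j - v j * w i) = 0 := by
        linear_combination v j * e1 - v i * e2
      exact sub_eq_zero.1 ((mul_eq_zero.1 e3).resolve_left hX)

omit [Big ι] in
/-- If `|φ (w) ψ (v)| ≤ 4` then every vector of the plane is a centre. -/
lemma cen_of_small {v φ w ψ : ι → ℤ} (hφ : φ ≠ 0) (hψ : ψ ≠ 0) (hz : Tr H v φ) (hT : Tr H w ψ)
    (h0 : (φ ⬝ᵥ w) * (ψ ⬝ᵥ v) ≠ 0) (h4 : |(φ ⬝ᵥ w) * (ψ ⬝ᵥ v)| ≤ 4) (n : ℕ) :
    ∀ x t : ℤ, |x| + |t| ≤ n → Cen H (x • v + t • w) := by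
  obtain ⟨a, ha⟩ : ∃ a, a = φ ⬝ᵥ w := ⟨_, rfl⟩
  obtain ⟨b, hb⟩ : ∃ b, b = ψ ⬝ᵥ v := ⟨_, rfl⟩
  rw [← ha, ← hb] at h0 h4
  have ha0 : a ≠ 0 := left_ne_zero_of_mul h0
  have hb0 : b ≠ 0 := right_ne_zero_of_mul h0
  have cv1 : Cen H v := ⟨φ, hφ, hz⟩
  have cw1 : Cen H w := ⟨ψ, hψ, hT⟩
  have zero : ∀ x t : ℤ, x = 0 ∨ t = 0 → Cen H (x • v + t • w) := by
    rintro x t (rfl | rfl)
    · rw [zero_smul, zero_add]
      exact cw1.mul t
    · rw [zero_smul, add_zero]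
      exact cv1.mul x
  induction n with
  | zero =>
    intro x t h
    apply zero
    left
    apply abs_eq_zero.1
    have h6 := abs_nonneg x
    have h7 := abs_nonneg t
    push_cast at h
    linarith
  | succ n ih =>
    intro x t h
    by_cases hx : x = 0
    · exact zero _ _ (Or.inl hx)
    by_cases ht : t = 0
    · exact zero _ _ (Or.inr ht)
    by_cases hA : |a * t| < 2 * |x|
    · obtain ⟨j, hj⟩ := step_lt (mul_ne_zero ha0 ht) hA
      obtain ⟨_, z, hzH, hzm⟩ := hz.smulv j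
      apply Cen.back hzH
      have e : av z (x • v + t • w) = (x + j * (a * t)) • v + t • w := by
        rw [av_of hzm, dotProduct_add, dotProduct_smul, dotProduct_smul, hz.1, ← ha]
        simp only [smul_eq_mul]
        module
      rw [e]
      apply ih
      push_cast at h
      linarith
    by_cases hB : |b * x| < 2 * |t|
    · obtain ⟨j, hj⟩ := step_lt (mul_ne_zero hb0 hx) hB
      obtain ⟨_, z, hzH, hzm⟩ := hT.smulv j
      apply Cen.back hzH
      have e : av z (x • v + t • w) = x • v + (t + j * (b * x)) • w := by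
        rw [av_of hzm, dotProduct_add, dotProduct_smul, dotProduct_smul, hT.1, ← hb]
        simp only [smul_eq_mul]
        module
      rw [e]
      apply ih
      push_cast at h
      linarith
    rw [not_lt, abs_mul] at hA hB
    rw [abs_mul] at h4
    have hxp : 0 < |x| := abs_pos.2 hx
    have htp : 0 < |t| := abs_pos.2 ht
    have hap : 0 < |a| := abs_pos.2 ha0
    have hbp : 0 < |b| := abs_pos.2 hb0
    -- equality must hold
    have q1 : |a| * |t| = 2 * |x| := by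
      apply le_antisymm _ hA
      have h8 : |a| * (|b| * |x|) ≤ 4 * |x| := by nlinarith
      have h9 : |a| * (2 * |t|) ≤ |a| * (|b| * |x|) := mul_le_mul_of_nonneg_left hB hap.le
      linarith
    have q2 : |a * b| = 4 := by
      rw [abs_mul]
      apply le_antisymm h4
      have h8 : 2 * (2 * |x|) ≤ |a| * |b| * |x| := by
        rw [← q1]
        have h9 : |a| * (2 * |t|) ≤ |a| * (|b| * |x|) := mul_le_mul_of_nonneg_left hB hap.le
        linarith
      nlinarith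
    have q3 : |a * t| = |2 * x| := by
      rw [abs_mul, abs_mul, q1]
      norm_num
    -- the third cusp
    have key : ∀ e : ℤ, e * e = 1 → Cen H ((e * a) • v + (2 : ℤ) • w) := by
      intro e he
      have he0 : e ≠ 0 := by
        rintro rfl
        simp at he
      have k1 : ∀ d : ℤ, d * d = 1 → a * b * d = -4 → Cen H ((d * a) • v + (2 : ℤ) • w) := by
        intro d hd hd4
        have h8 := cusp (hz.smulv d) hT (by
          rw [dotProduct_smul, ← ha, ← hb, smul_eq_mul]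
          linear_combination hd4)
        rw [← ha, smul_smul, mul_comm a d] at h8
        exact h8
      have hab : a * b * e = -4 ∨ a * b * e = 4 := by
        have h8 : |a * b * e| = 4 := by
          rw [abs_mul, q2]
          have : |e| = 1 := by
            have h9 : |e| * |e| = 1 := by rw [← abs_mul, he, abs_one]
            nlinarith [abs_nonneg e]
          rw [this, mul_one]
        rcases abs_choice (a * b * e) with h9 | h9 <;> rw [h9] at h8
        · right; exact h8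
        · left; linarith
      rcases hab with h8 | h8
      · exact k1 e he h8
      · obtain ⟨_, z, hzH, hzm⟩ := hz.smulv (-e)
        apply Cen.back hzH
        have e5 : av z ((e * a) • v + (2 : ℤ) • w) = (-e * a) • v + (2 : ℤ) • w := by
          rw [av_of hzm, dotProduct_add, dotProduct_smul, dotProduct_smul, hz.1, ← ha]
          simp only [smul_eq_mul]
          module
        rw [e5]
        exact k1 (-e) (by linarith) (by linarith)
    rcases abs_eq_abs.1 q3 with h8 | h8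
    · have h9 := (key 1 (by norm_num)).mul t
      have e5 : t • ((1 * a) • v + (2 : ℤ) • w) = (2 : ℤ) • (x • v + t • w) := by
        have : (a * t - 2 * x) • v = 0 := by rw [h8, sub_self, zero_smul]
        linear_combination this
      rw [e5] at h9
      exact h9.of_mul two_ne_zero
    · have h9 := (key (-1) (by norm_num)).mul t
      have e5 : t • ((-1 * a) • v + (2 : ℤ) • w) = (2 : ℤ) • (x • v + t • w) := by
        have : (a * t + 2 * x) • v = 0 := by rw [h8, neg_add_cancel, zero_smul]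
        linear_combination -this
      rw [e5] at h9
      exact h9.of_mul two_ne_zero

lemma not_par_of {v φ w : ι → ℤ} (hv : v ≠ 0) (hφv : φ ⬝ᵥ v = 0) (h : φ ⬝ᵥ w ≠ 0) :
    ¬ Par v w := by
  intro hp
  obtain ⟨c, hc⟩ := Function.ne_iff.1 hv
  have hvc : v c ≠ 0 := hc
  have e1 := congrArg (fun z => φ ⬝ᵥ z) (hp.smul_eq c)
  simp only [dotProduct_smul, hφv, smul_eq_mul, mul_zero] at e1
  exact mul_ne_zero hvc h e1

/-- Two transvections with `|φ (w) ψ (v)| ≤ 4`. -/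
theorem small_pair4 {v φ w ψ : ι → ℤ} (hH : Zd H) (hv : v ≠ 0) (hφ : φ ≠ 0) (hψ : ψ ≠ 0)
    (hz : Tr H v φ) (hT : Tr H w ψ) (h0 : (φ ⬝ᵥ w) * (ψ ⬝ᵥ v) ≠ 0)
    (h4 : |(φ ⬝ᵥ w) * (ψ ⬝ᵥ v)| ≤ 4) : Fi H := by
  refine plane hH hv hφ hz (not_par_of hv hz.1 (left_ne_zero_of_mul h0)) fun x t _ => ?_
  obtain ⟨n, hn⟩ : ∃ n : ℕ, |x| + |t| ≤ n := ⟨_, Int.self_le_toNat _⟩
  exact cen_of_small hφ hψ hz hT h0 h4 n x t hn

/-- The group `H` contains a subgroup of finite index of a group generated by two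
transvections. -/
theorem fi_of_relIndex {v φ w ψ : ι → ℤ} {S : Subgroup (SpecialLinearGroup ι ℤ)} (hH : Zd H)
    (hv : v ≠ 0) (hφ : φ ≠ 0) (hz : Tr H v φ) (hψw : ψ ⬝ᵥ w = 0)
    (h0 : (φ ⬝ᵥ w) * (ψ ⬝ᵥ v) ≠ 0)
    (hS : ∀ (x t p q : ℤ) (A : SpecialLinearGroup ι ℤ),
      mt A = 1 + vecMulVec (x • v + t • w) (p • φ + q • ψ) → A ∈ S)
    (hidx : H.relIndex S ≠ 0) : Fi H := by
  refine plane hH hv hφ hz (not_par_of hv hz.1 (left_ne_zero_of_mul h0)) fun x t ht => ?_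
  obtain ⟨a, ha⟩ : ∃ a, a = φ ⬝ᵥ w := ⟨_, rfl⟩
  obtain ⟨b, hb⟩ : ∃ b, b = ψ ⬝ᵥ v := ⟨_, rfl⟩
  rw [← ha, ← hb] at h0
  have h1 : ((b * x) • φ + (-(a * t)) • ψ) ⬝ᵥ (x • v + t • w) = 0 := by
    rw [add_dotProduct, smul_dotProduct, smul_dotProduct, dotProduct_add, dotProduct_add,
      dotProduct_smul, dotProduct_smul, dotProduct_smul, dotProduct_smul, hz.1, hψw, ← ha, ← hb]
    simp only [smul_eq_mul]
    ring
  have h2 : (b * x) • φ + (-(a * t)) • ψ ≠ 0 := by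
    intro h
    have h3 := congrArg (fun z => z ⬝ᵥ v) h
    simp only [add_dotProduct, smul_dotProduct, hz.1, ← hb, smul_eq_mul, mul_zero, zero_add,
      zero_dotProduct] at h3
    have h5 : (a * b) * t = 0 := by linear_combination -h3
    exact mul_ne_zero h0 ht h5
  obtain ⟨A, hA⟩ := tr_exists h1
  obtain ⟨m, hm, _, hmA⟩ := Subgroup.exists_pow_mem_of_relIndex_ne_zero hidx (hS _ _ _ _ A hA)
  have h6 : mt (A ^ m) = 1 + vecMulVec ((m : ℤ) • (x • v + t • w))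
      ((b * x) • φ + (-(a * t)) • ψ) := by
    have := mt_zpow_sq0 hA (vv_zero h1) (m : ℤ)
    rw [zpow_natCast] at this
    rw [this, smul_vecMulVec]
  have h7 : Cen H ((m : ℤ) • (x • v + t • w)) := by
    refine ⟨_, h2, ?_, A ^ m, hmA.1, h6⟩
    rw [dotProduct_smul, h1, smul_zero]
  exact h7.of_mul (by exact_mod_cast hm.ne')

/-- **Two transvections in a Zariski dense subgroup of infinite index.** Either they have a common
power, or they generate a free group and `H` has infinite index in each group containing the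
transvections with centre in the plane of their centres and axis containing the intersection of their
axes. -/
theorem dichotomy' {u₁ u₂ : SpecialLinearGroup ι ℤ} {v φ w ψ : ι → ℤ} (hH : Zd H) (hF : ¬ Fi H)
    (hu₁ : u₁ ∈ H) (hu₂ : u₂ ∈ H) (h1 : IsTv u₁ v φ) (h2 : IsTv u₂ w ψ) :
    (∃ a b : ℤ, a ≠ 0 ∧ b ≠ 0 ∧ u₁ ^ a = u₂ ^ b) ∨
      (Function.Injective (FreeGroup.lift ![u₁, u₂]) ∧ 5 ≤ |(φ ⬝ᵥ w) * (ψ ⬝ᵥ v)| ∧
        ∀ S : Subgroup (SpecialLinearGroup ι ℤ),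
          (∀ (x t p q : ℤ) (A : SpecialLinearGroup ι ℤ),
            mt A = 1 + vecMulVec (x • v + t • w) (p • φ + q • ψ) → A ∈ S) →
          H.relIndex S = 0) := by
  obtain ⟨hv, hφ, hφv, hum⟩ := h1
  obtain ⟨hw, hψ, hψw, hwm⟩ := h2
  have T1 : Tr H v φ := ⟨hφv, u₁, hu₁, hum⟩
  have T2 : Tr H w ψ := ⟨hψw, u₂, hu₂, hwm⟩
  by_cases hp : Par v w
  · by_cases hq : Par φ ψ
    · exact Or.inl (common_power ⟨hv, hφ, hφv, hum⟩ ⟨hw, hψ, hψw, hwm⟩ hp hq)
    · exact absurd (same_centre hH hv hφ T1 T2 hw hp hq) hF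
  · have hp' : ¬ Par w v := fun h => hp fun a b => by linear_combination -h a b
    right
    have h0 : (φ ⬝ᵥ w) * (ψ ⬝ᵥ v) ≠ 0 := by
      intro h0
      apply hF
      rcases mul_eq_zero.1 h0 with h3 | h3
      · exact pairM hH hv hφ T1 T2 hψ h3 hp
      · exact pairM hH hw hψ T2 T1 hφ h3 hp'
    have h5 : 5 ≤ |(φ ⬝ᵥ w) * (ψ ⬝ᵥ v)| := by
      by_contra hlt
      exact hF (small_pair4 hH hv hφ hψ T1 T2 h0 (by omega))
    refine ⟨free_pair ⟨hv, hφ, hφv, hum⟩ ⟨hw, hψ, hψw, hwm⟩ (by linarith), h5, ?_⟩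
    intro S hS
    by_contra hidx
    exact hF (fi_of_relIndex hH hv hφ T1 hψw h0 hS hidx)

end Pool.Agent.Run7.h25.TV
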