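import Pool.Agent.Run7.h25.TV.Three

/-!
# The centraliser of a transvection
-/

set_option autoImplicit false
set_option linter.unusedSectionVars false

namespace Pool.Agent.Run7.h25.TV

open Matrix Pool.Agent.Helper460_CSP

variable {ι : Type} [DecidableEq ι] [Fintype ι] {H : Subgroup (SpecialLinearGroup ι ℤ)}

lemma avp_fix {g : SpecialLinearGroup ι ℤ} {v : ι → ℤ} (hgv : av g v = v) (m : ℕ) :
    av (g ^ m) v = v := by
  induction m with
  | zero => rw [pow_zero, av_one]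
  | succ m ih => rw [pow_succ, av_mul, hgv, ih]

lemma dotp_fix {g : SpecialLinearGroup ι ℤ} {φ : ι → ℤ} (hφg : cv g φ = φ) (m : ℕ)
    (y : ι → ℤ) : φ ⬝ᵥ av (g ^ m) y = φ ⬝ᵥ y := by
  induction m with
  | zero => rw [pow_zero, av_one]
  | succ m ih => rw [pow_succ', av_mul, ← cv_dot, hφg, ih]

lemma cgr_exists (g : SpecialLinearGroup ι ℤ) {M : ℤ} (hM : M ≠ 0) :
    ∃ m : ℕ, 0 < m ∧ Cgr M (g ^ m) := by
  have hne : NeZero M.natAbs := ⟨Int.natAbs_ne_zero.2 hM⟩
  have hfin : Finite (SpecialLinearGroup ι (ZMod M.natAbs)) :=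
    Finite.of_injective (fun A => A.1) Subtype.val_injective
  refine ⟨orderOf (SpecialLinearGroup.map (n := ι) (Int.castRingHom (ZMod M.natAbs)) g),
    orderOf_pos _, ?_⟩
  rw [cgr_iff, MonoidHom.mem_ker, map_pow, pow_orderOf_eq_one]

/-- The vectors parallel to `v`. -/
def Par (v y : ι → ℤ) : Prop := ∀ a b, v a * y b = v b * y a

lemma Par.add {v y y' : ι → ℤ} (h : Par v y) (h' : Par v y') : Par v (y + y') := by
  intro a b
  rw [Pi.add_apply, Pi.add_apply]
  linear_combination h a b + h' a b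

lemma Par.fix {v y : ι → ℤ} {g : SpecialLinearGroup ι ℤ} (hv : v ≠ 0) (hgv : av g v = v)
    (h : Par v y) : av g y = y := by
  obtain ⟨b, hb⟩ := Function.ne_iff.1 hv
  have hb' : v b ≠ 0 := hb
  have h1 : v b • y = y b • v := by
    ext i
    rw [Pi.smul_apply, Pi.smul_apply, smul_eq_mul, smul_eq_mul]
    linear_combination h b i
  have h2 : v b • av g y = v b • y := by
    rw [← av_smul, h1, av_smul, hgv]
  ext i
  have := congrFun h2 i
  rw [Pi.smul_apply, Pi.smul_apply, smul_eq_mul, smul_eq_mul] at this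
  exact mul_left_cancel₀ hb' this

lemma Par.pow {v y : ι → ℤ} {g : SpecialLinearGroup ι ℤ} (hv : v ≠ 0) (hgv : av g v = v)
    (h : Par v (av g y - y)) (t : ℕ) : Par v (av (g ^ t) y - y) := by
  induction t with
  | zero =>
    rw [pow_zero, av_one, sub_self]
    intro a b
    simp
  | succ t ih =>
    have e : av (g ^ (t + 1)) y - y = (av (g ^ t) y - y) + (av g y - y) := by
      have h1 : av (g ^ t) (av g y - y) = av g y - y := h.fix hv (avp_fix hgv t)
      rw [av_sub] at h1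
      rw [pow_succ, av_mul, ← h1]
      abel
    rw [e]
    exact ih.add h

variable [Big ι]

/-- An element of `H` which moves `v` inside the axis gives finite index. -/
theorem fin_par' {v φ : ι → ℤ} (hH : Zd H) (hv : v ≠ 0) (hφ : φ ≠ 0) (hz : Tr H v φ)
    {x : SpecialLinearGroup ι ℤ} (hx : x ∈ H) (h1 : φ ⬝ᵥ av x v = 0) {a b : ι}
    (h2 : v a * av x v b - v b * av x v a ≠ 0) : Fi H := by
  have hT := hz.conj hx
  by_cases h3 : cv x⁻¹ φ ⬝ᵥ v = 0
  · obtain ⟨ψ, hψ⟩ : ∃ ψ, ψ = cv x⁻¹ φ := ⟨_, rfl⟩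
    rw [← hψ] at hT h3
    have hψ0 : ψ ≠ 0 := by
      rintro rfl
      apply hφ
      have := congrArg (cv x) hψ
      rw [← cv_mul, inv_mul_cancel, cv_one] at this
      rw [← this]
      unfold cv
      exact zero_vecMul _
    refine main (X := vecMulVec (av x v) ψ) (β := 0) hH hv hφ hz ?_ ?_ ?_ ?_ ?_ ?_ ?_
    · rw [vv_mulVec, h3, zero_smul]
    · rw [vecMul_vecMulVec, h1, zero_smul]
    · rw [zero_vecMul]
    · rw [zero_dotProduct]
    · rw [vv_zero hT.1, vecMulVec_zero, smul_zero]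
    · intro m r
      obtain ⟨_, A, hA, hA'⟩ := hT.smulv m
      obtain ⟨_, B, hB, hB'⟩ := hz.smulv r
      refine ⟨A * B, mul_mem hA hB, ?_⟩
      rw [mt_mul, hA', hB', smul_vecMulVec, smul_vecMulVec, Matrix.mul_add, mul_one,
        Matrix.add_mul, one_mul, Matrix.smul_mul, Matrix.mul_smul, vv_zero h3, vecMulVec_zero,
        smul_zero, smul_zero, add_zero, smul_zero, add_zero]
    · intro a' b' hab
      obtain ⟨j, hj⟩ := Function.ne_iff.1 hψ0
      have hj' : ψ j ≠ 0 := hj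
      have e1 := congrFun (congrFun hab a) j
      have e2 := congrFun (congrFun hab b) j
      rw [Matrix.smul_apply, Matrix.smul_apply, vecMulVec_apply, vecMulVec_apply, smul_eq_mul,
        smul_eq_mul] at e1 e2
      have e3 : a' * (ψ j * (v a * av x v b - v b * av x v a)) = 0 := by
        linear_combination v a * e2 - v b * e1
      exact (mul_eq_zero.1 e3).resolve_right (mul_ne_zero hj' h2)
  · have hv' : av x v ≠ 0 := by
      intro h0
      rw [h0] at h2
      simp at h2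
    exact asymm hH hv' hφ hT hz h1 h3

/-- The conjugation argument. If `H` has infinite index then, for generic `k` in `H`, some power of
`g` moves `k⁻¹ v` parallel to `v`. -/
theorem conj_arg {v φ : ι → ℤ} (hH : Zd H) (hF : ¬ Fi H) (hv : v ≠ 0) (hφ : φ ≠ 0)
    (hz : Tr H v φ) {g : SpecialLinearGroup ι ℤ} (hg : g ∈ H) (hgv : av g v = v)
    (hφg : cv g φ = φ) {k : SpecialLinearGroup ι ℤ} (hk : k ∈ H) (hA : φ ⬝ᵥ av k v ≠ 0)
    (hB : φ ⬝ᵥ av k⁻¹ v ≠ 0) : ∃ m : ℕ, 0 < m ∧ Par v (av (g ^ m) (av k⁻¹ v) - av k⁻¹ v) := by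
  have hφv := hz.1
  obtain ⟨A, hAe⟩ : ∃ A, A = φ ⬝ᵥ av k v := ⟨_, rfl⟩
  obtain ⟨B, hBe⟩ : ∃ B, B = φ ⬝ᵥ av k⁻¹ v := ⟨_, rfl⟩
  obtain ⟨u, hu⟩ : ∃ u, u = av k⁻¹ v := ⟨_, rfl⟩
  rw [← hAe] at hA
  rw [← hBe] at hB
  rw [← hu] at hBe ⊢
  obtain ⟨m, hm, hmc⟩ := cgr_exists g (mul_ne_zero hA hB)
  refine ⟨m, hm, ?_⟩
  have hdvd : A * B ∣ φ ⬝ᵥ av k (av (g ^ m) u) := by
    have h1 := (PF.dot (cv k φ) u).congr (g := 1) (h := g ^ m) (m := A * B) (by
      rw [inv_one, one_mul]
      exact hmc)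
    rw [av_one, cv_dot, cv_dot, hu, av_av_inv, hφv, sub_zero, ← hu] at h1
    exact h1
  obtain ⟨d, hd⟩ := hdvd
  obtain ⟨_, zb, hzb, hzb'⟩ := hz.smulv (-d)
  obtain ⟨y, hy⟩ : ∃ y, y = av (g ^ m) u + (B * -d) • v := ⟨_, rfl⟩
  have hxH : k * (g ^ m * zb) * k⁻¹ ∈ H :=
    mul_mem (mul_mem hk (mul_mem (H.pow_mem hg _) hzb)) (inv_mem hk)
  have h1 : av (k * (g ^ m * zb) * k⁻¹) v = av k y := by
    rw [av_mul, av_mul, av_mul, ← hu, av_of hzb', av_add, ← hBe, smul_smul, av_smul,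
      avp_fix hgv, ← hy]
  have h2 : φ ⬝ᵥ av k y = 0 := by
    rw [hy, av_add, dotProduct_add, hd, av_smul, dotProduct_smul, ← hAe, smul_eq_mul]
    ring
  have hpar : Par v (av k y) := by
    intro a b
    by_contra hne
    apply hF
    refine fin_par' (a := a) (b := b) hH hv hφ hz hxH (by rw [h1, h2]) ?_
    rw [h1]
    exact sub_ne_zero.2 hne
  obtain ⟨b, hb⟩ := Function.ne_iff.1 hv
  have hvb : v b ≠ 0 := hb
  have h3 : v b • y = (av k y b) • u := by
    have h4 : v b • av k y = (av k y b) • v := by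
      ext i
      rw [Pi.smul_apply, Pi.smul_apply, smul_eq_mul, smul_eq_mul]
      linear_combination hpar b i
    have h5 := congrArg (av k⁻¹) h4
    rwa [av_smul, av_smul, av_inv_av, ← hu] at h5
  have h6 : φ ⬝ᵥ y = B := by
    rw [hy, dotProduct_add, dotp_fix hφg, ← hBe, dotProduct_smul, hφv, smul_zero, add_zero]
  have h7 := congrArg (fun z => φ ⬝ᵥ z) h3
  simp only [dotProduct_smul, smul_eq_mul, h6, ← hBe] at h7
  have h8 : v b = av k y b := mul_right_cancel₀ hB h7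
  rw [← h8] at h3
  have h9 : y = u := by
    ext i
    have := congrFun h3 i
    rw [Pi.smul_apply, Pi.smul_apply, smul_eq_mul, smul_eq_mul] at this
    exact mul_left_cancel₀ hvb this
  have h10 : av (g ^ m) u - u = (B * d) • v := by
    have h11 : av (g ^ m) u = y - (B * -d) • v := by rw [hy]; abel
    rw [h11, h9]
    ext i
    simp only [Pi.sub_apply, Pi.smul_apply, smul_eq_mul]
    ring
  intro a b
  rw [h10, Pi.smul_apply, Pi.smul_apply, smul_eq_mul, smul_eq_mul]
  ring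

/-- **A Zariski dense subgroup of infinite index contains only a virtually cyclic part of the
centraliser of each of its transvections.** -/
theorem cent {z g : SpecialLinearGroup ι ℤ} {v φ : ι → ℤ} (hH : Zd H) (hz : z ∈ H) (hg : g ∈ H)
    (hzt : IsTv z v φ) (hc : g * z = z * g) (hpow : ∀ a b : ℤ, g ^ a = z ^ b → a = 0) :
    Fi H := by
  by_contra hF
  obtain ⟨hv, hφ, hφv, hzm⟩ := hzt
  have hTr : Tr H v φ := ⟨hφv, z, hz, hzm⟩
  obtain ⟨hgv, hφg⟩ := sq_fix ⟨hv, hφ, hφv, hzm⟩ hc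
  obtain ⟨G, hG⟩ : ∃ G, G = g * g := ⟨_, rfl⟩
  rw [← hG] at hgv hφg
  have hGH : G ∈ H := by rw [hG]; exact mul_mem hg hg
  have hGv : av G v = v := hgv
  have hφG : cv G φ = φ := hφg
  -- the vectors moved parallel to `v` by a power of `G`
  let W : AddSubgroup (ι → ℤ) :=
    { carrier := {y | ∃ m : ℕ, 0 < m ∧ Par v (av (G ^ m) y - y)}
      add_mem' := by
        rintro y y' ⟨m, hm, h1⟩ ⟨m', hm', h2⟩
        refine ⟨m * m', Nat.mul_pos hm hm', ?_⟩
        have e1 := h1.pow hv (avp_fix hGv m) m'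
        have e2 := h2.pow hv (avp_fix hGv m') m
        rw [← pow_mul] at e1 e2
        rw [mul_comm m' m] at e2
        have e3 : av (G ^ (m * m')) (y + y') - (y + y') =
            (av (G ^ (m * m')) y - y) + (av (G ^ (m * m')) y' - y') := by
          rw [av_add]; abel
        rw [e3]
        exact e1.add e2
      zero_mem' := ⟨1, one_pos, by
        have : av (G ^ 1) (0 : ι → ℤ) = 0 := mulVec_zero _
        rw [this, sub_self]
        intro a b
        simp⟩
      neg_mem' := by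
        rintro y ⟨m, hm, h1⟩
        refine ⟨m, hm, fun a b => ?_⟩
        have e1 : av (G ^ m) (-y) - -y = -(av (G ^ m) y - y) := by
          have : av (G ^ m) (-y) = -av (G ^ m) y := mulVec_neg _ _
          rw [this]; abel
        rw [e1, Pi.neg_apply, Pi.neg_apply]
        linear_combination -h1 a b }
  have hall : ∀ j : ι, ∃ m : ℕ, 0 < m ∧ Par v (av (G ^ m) (Pi.single j 1) - Pi.single j 1) := by
    intro j
    rcases sat W (Pi.single j 1) with ⟨q, hq, m, hm, h1⟩ | ⟨ψ, hψ, hψj⟩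
    · refine ⟨m, hm, fun a b => ?_⟩
      have h2 := h1 a b
      rw [av_smul, ← smul_sub, Pi.smul_apply, Pi.smul_apply, smul_eq_mul, smul_eq_mul] at h2
      apply mul_left_cancel₀ hq
      linear_combination h2
    · exfalso
      have hψ0 : ψ ≠ 0 := by
        rintro rfl
        exact hψj (zero_dotProduct _)
      obtain ⟨g1, hg1⟩ := ex_one hφ hv
      obtain ⟨g2, hg2⟩ := ex_one' hφ hv
      obtain ⟨g3, hg3⟩ := ex_one' hψ0 hv
      obtain ⟨c1, hc1⟩ := PF.generic (PF.dot φ v) (PF.doti φ v) hg1 hg2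
      obtain ⟨c2, hc2⟩ := PF.generic ((PF.dot φ v).mul (PF.doti φ v)) (PF.doti ψ v) hc1 hg3
      obtain ⟨k, hk, hkne⟩ := PF.transfer (((PF.dot φ v).mul (PF.doti φ v)).mul (PF.doti ψ v)) hH hc2
      have h1 : ψ ⬝ᵥ av k⁻¹ v ≠ 0 := right_ne_zero_of_mul hkne
      have h2 : φ ⬝ᵥ av k⁻¹ v ≠ 0 := right_ne_zero_of_mul (left_ne_zero_of_mul hkne)
      have h3 : φ ⬝ᵥ av k v ≠ 0 := left_ne_zero_of_mul (left_ne_zero_of_mul hkne)
      exact h1 (hψ _ (conj_arg hH hF hv hφ hTr hGH hGv hφG hk h3 h2))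
  choose m hm hmp using hall
  obtain ⟨K, hK⟩ : ∃ K, K = ∏ j, m j := ⟨_, rfl⟩
  have hK0 : 0 < K := by
    rw [hK]
    exact Finset.prod_pos fun j _ => hm j
  have hKp : ∀ j, Par v (av (G ^ K) (Pi.single j 1) - Pi.single j 1) := by
    intro j
    obtain ⟨t, ht⟩ : m j ∣ K := by rw [hK]; exact Finset.dvd_prod_of_mem _ (Finset.mem_univ j)
    rw [ht, pow_mul]
    exact (hmp j).pow hv (avp_fix hGv _) t
  obtain ⟨N, hN⟩ : ∃ N, N = mt (G ^ K) - 1 := ⟨_, rfl⟩
  have hNent : ∀ a b j, v a * N b j = v b * N a j := by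
    intro a b j
    have h1 := hKp j a b
    have e : ∀ c, (av (G ^ K) (Pi.single j 1 : ι → ℤ) - (Pi.single j 1 : ι → ℤ)) c = N c j := by
      intro c
      have e1 : av (G ^ K) (Pi.single j 1) c = mt (G ^ K) c j := by
        unfold av
        rw [mulVec_single_one]
        rfl
      have e2 : (Pi.single j 1 : ι → ℤ) c = (1 : Matrix ι ι ℤ) c j := by
        rw [Matrix.one_apply, Pi.single_apply]
      rw [Pi.sub_apply, e1, e2, hN, Matrix.sub_apply]
    rw [e, e] at h1
    exact h1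
  obtain ⟨b, hb⟩ := Function.ne_iff.1 hv
  have hvb : v b ≠ 0 := hb
  have hNv : N *ᵥ v = 0 := by
    rw [hN, sub_mulVec, one_mulVec]
    have : mt (G ^ K) *ᵥ v = v := avp_fix hGv K
    rw [this, sub_self]
  have hNN : N * N = 0 := by
    ext i j
    rw [Matrix.mul_apply, Matrix.zero_apply]
    have h1 : v b * ∑ c, N i c * N c j = (N *ᵥ v) i * N b j := by
      unfold mulVec dotProduct
      rw [Finset.mul_sum, Finset.sum_mul]
      refine Finset.sum_congr rfl fun c _ => ?_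
      linear_combination N i c * hNent b c j
    rw [hNv, Pi.zero_apply, zero_mul] at h1
    exact (mul_eq_zero.1 h1).resolve_left hvb
  apply hF
  have hGz : Commute G z := by
    rw [hG]
    exact Commute.mul_left (show Commute g z from hc) (show Commute g z from hc)
  refine uni_b (z := z) (u := G ^ K) (v := v) (φ := φ) hH hz (H.pow_mem hGH K)
    ⟨hv, hφ, hφv, hzm⟩ (hGz.pow_left K) ?_ (fun x _ => ?_) (fun a b hab => ?_)
  · rw [← hN]
    exact ⟨2, by rw [pow_two, hNN]⟩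
  · rw [← hN, hNN, vecMul_zero]
  · have h1 : g ^ (2 * (K : ℤ) * a) = z ^ b := by
      rw [← hab, hG, ← zpow_natCast, ← pow_two, ← zpow_natCast g, ← _root_.zpow_mul,
        ← _root_.zpow_mul]
      congr 1
      push_cast
      ring
    have h2 := hpow _ _ h1
    rcases mul_eq_zero.1 h2 with h3 | h3
    · omega
    · exact h3

end Pool.Agent.Run7.h25.TV
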