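import Pool.Agent.Run7.h25.TV.Rank2

/-!
# Coprimality
-/

set_option autoImplicit false
set_option linter.unusedSectionVars false

namespace Pool.Agent.Run7.h25.TV

open Matrix Pool.Agent.Helper460_CSP

variable {ι : Type} [DecidableEq ι] [Fintype ι] {H : Subgroup (SpecialLinearGroup ι ℤ)}

lemma dvd_pow_mul {p q : ℕ} (hp : p.Prime) (hq : q.Prime) (hne : p ≠ q) {e j : ℕ}
    (h : p ∣ q ^ e * j) : p ∣ j := by
  rcases hp.dvd_mul.1 h with h1 | h1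
  · exact absurd ((Nat.prime_dvd_prime_iff_eq hp hq).1 (hp.dvd_of_dvd_pow h1)) hne
  · exact h1

/-- Removing the common primes of `φ (k v)` and `φ (k x)` outside `N`. -/
theorem cop {v x φ : ι → ℤ} {κ : Type} (a α : κ → ι → ℤ) (hT : ∀ s, Tr H (a s) (α s)) {N : ℤ}
    (hhelp : ∀ p : ℕ, p.Prime → ¬ (p : ℤ) ∣ N → ∀ k : SpecialLinearGroup ι ℤ,
      ∃ s, ¬ (p : ℤ) ∣ (α s ⬝ᵥ v) * (φ ⬝ᵥ av k (a s)))
    (k₀ : SpecialLinearGroup ι ℤ)
    (hΔ : ∀ s, ∀ k, Cgr N (k₀⁻¹ * k) → (α s ⬝ᵥ x) * (φ ⬝ᵥ av k v) -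
      (α s ⬝ᵥ v) * (φ ⬝ᵥ av k x) ≠ 0) :
    ∀ (T : Finset ℕ) (k : SpecialLinearGroup ι ℤ), k ∈ H → Cgr N (k₀⁻¹ * k) →
      (∀ p : ℕ, p.Prime → ¬ (p : ℤ) ∣ N → (p : ℤ) ∣ φ ⬝ᵥ av k v → (p : ℤ) ∣ φ ⬝ᵥ av k x → p ∈ T) →
      ∃ k' ∈ H, Cgr N (k₀⁻¹ * k') ∧
        ∀ p : ℕ, p.Prime → ¬ (p : ℤ) ∣ N → ¬ ((p : ℤ) ∣ φ ⬝ᵥ av k' v ∧ (p : ℤ) ∣ φ ⬝ᵥ av k' x) := by
  intro T
  induction T using Finset.induction_on with
  | empty =>
    intro k hk hc hb
    exact ⟨k, hk, hc, fun p hp hN h => absurd (hb p hp hN h.1 h.2) (Finset.notMem_empty _)⟩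
  | insert q T hqT ih =>
    intro k hk hc hb
    by_cases hq : q.Prime ∧ ¬ (q : ℤ) ∣ N ∧ (q : ℤ) ∣ φ ⬝ᵥ av k v ∧ (q : ℤ) ∣ φ ⬝ᵥ av k x
    · obtain ⟨hqp, hqN, hqA, hqC⟩ := hq
      obtain ⟨s, hs⟩ := hhelp q hqp hqN k
      obtain ⟨A, hA⟩ : ∃ A, A = φ ⬝ᵥ av k v := ⟨_, rfl⟩
      obtain ⟨C, hC⟩ : ∃ C, C = φ ⬝ᵥ av k x := ⟨_, rfl⟩
      obtain ⟨c, hc'⟩ : ∃ c, c = φ ⬝ᵥ av k (a s) := ⟨_, rfl⟩
      obtain ⟨Δ, hΔe⟩ : ∃ Δ, Δ = c * ((α s ⬝ᵥ x) * A - (α s ⬝ᵥ v) * C) := ⟨_, rfl⟩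
      have hc0 : c ≠ 0 := by
        rintro h0
        apply hs
        rw [← hc', h0, mul_zero]
        exact dvd_zero _
      have hΔ0 : Δ ≠ 0 := by
        rw [hΔe, hA, hC]
        exact mul_ne_zero hc0 (hΔ s k hc)
      obtain ⟨e, j, hj, hje⟩ := Nat.exists_eq_pow_mul_and_not_dvd (Int.natAbs_ne_zero.2 hΔ0) q
        hqp.ne_one
      obtain ⟨_, y, hy, hy'⟩ := (hT s).smulv ((j : ℤ) * N)
      have hval : ∀ z, φ ⬝ᵥ av (k * y) z = φ ⬝ᵥ av k z + (j : ℤ) * N * ((α s ⬝ᵥ z) * c) := by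
        intro z
        have e1 : av y z = z + ((j : ℤ) * N * (α s ⬝ᵥ z)) • a s := by
          unfold av
          rw [hy', add_mulVec, one_mulVec, vecMulVec_mulVec]
          ext i
          simp only [Pi.add_apply, Pi.smul_apply, smul_eq_mul, MulOpposite.smul_eq_mul_unop,
            MulOpposite.unop_op]
          ring
        rw [av_mul, e1, av_add, av_smul, dotProduct_add, dotProduct_smul, smul_eq_mul, hc']
        ring
      have hyN : Cgr N y := by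
        intro i i'
        rw [hy', Matrix.add_apply, add_sub_cancel_left, vecMulVec_apply, Pi.smul_apply,
          smul_eq_mul]
        exact Dvd.intro_left ((j : ℤ) * a s i * α s i') (by ring)
      have hcy : Cgr N (k₀⁻¹ * (k * y)) := by
        rw [← mul_assoc]
        exact hc.mul hyN
      have hAv := hval v
      have hCv := hval x
      rw [← hA] at hAv
      rw [← hC] at hCv
      apply ih (k * y) (mul_mem hk hy) hcy
      intro p hp hpN h1 h2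
      have h3 : (p : ℤ) ∣ Δ := by
        have : Δ = (α s ⬝ᵥ x) * c * (φ ⬝ᵥ av (k * y) v) - (α s ⬝ᵥ v) * c * (φ ⬝ᵥ av (k * y) x) := by
          rw [hAv, hCv, hΔe]; ring
        rw [this]
        exact dvd_sub (h1.mul_left _) (h2.mul_left _)
      have h4 : p ≠ q := by
        rintro rfl
        rw [hAv, hA] at h1
        have h5 : (p : ℤ) ∣ (j : ℤ) * N * ((α s ⬝ᵥ v) * c) := (dvd_add_right hqA).1 h1
        have hpp : Prime (p : ℤ) := Nat.prime_iff_prime_int.1 hp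
        rcases hpp.dvd_mul.1 h5 with h6 | h6
        · rcases hpp.dvd_mul.1 h6 with h7 | h7
          · exact hj (Int.natCast_dvd_natCast.1 h7)
          · exact hqN h7
        · rw [hc'] at h6
          exact hs h6
      have h5 : p ∣ j := by
        have h6 : p ∣ Δ.natAbs := Int.natCast_dvd.1 h3
        rw [hje] at h6
        exact dvd_pow_mul hp hqp h4 h6
      have h6 : (p : ℤ) ∣ (j : ℤ) := Int.natCast_dvd_natCast.2 h5
      have h7 : (p : ℤ) ∣ A := by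
        rw [hAv] at h1
        exact (dvd_add_left (((h6.mul_right _).mul_right _))).1 h1
      have h8 : (p : ℤ) ∣ C := by
        rw [hCv] at h2
        exact (dvd_add_left (((h6.mul_right _).mul_right _))).1 h2
      rw [hA] at h7
      rw [hC] at h8
      exact (Finset.mem_insert.1 (hb p hp hpN h7 h8)).resolve_left h4
    · apply ih k hk hc
      intro p hp hpN h1 h2
      refine (Finset.mem_insert.1 (hb p hp hpN h1 h2)).resolve_left ?_
      rintro rfl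
      exact hq ⟨hp, hpN, h1, h2⟩

variable [Big ι]

/-- A finite family of transvections in `H` which moves every prime outside `Q`. -/
theorem family {v φ : ι → ℤ} (hH : Zd H) (hv : v ≠ 0) (hφ : φ ≠ 0) (hz : Tr H v φ) :
    ∃ (κ : Type) (_ : Fintype κ) (a α : κ → ι → ℤ) (Q : ℤ), Q ≠ 0 ∧
      (∀ s, Tr H (a s) (α s)) ∧ (∀ s, α s ⬝ᵥ v ≠ 0) ∧
      ∀ p : ℕ, p.Prime → ¬ (p : ℤ) ∣ Q → ∀ k : SpecialLinearGroup ι ℤ,
        ∃ s, ¬ (p : ℤ) ∣ (α s ⬝ᵥ v) * (φ ⬝ᵥ av k (a s)) := by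
  obtain ⟨S, hS⟩ : ∃ S : Set (ι → ℤ), S = {y | ∃ a α, Tr H a α ∧ α ⬝ᵥ v ≠ 0 ∧
    y = (α ⬝ᵥ v) • a} := ⟨_, rfl⟩
  have h1 : ∀ j : ι, ∃ q : ℤ, q ≠ 0 ∧ q • (Pi.single j 1 : ι → ℤ) ∈ Submodule.span ℤ S := by
    intro j
    rcases sat (Submodule.span ℤ S).toAddSubgroup (Pi.single j 1) with h | ⟨ψ, hψ, hψj⟩
    · exact h
    exfalso
    have hψ0 : ψ ≠ 0 := by
      rintro rfl
      exact hψj (zero_dotProduct _)
    obtain ⟨g, hg⟩ := ex_one hψ0 hv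
    obtain ⟨g', hg'⟩ := ex_one' hφ hv
    obtain ⟨c, hc⟩ := PF.generic (PF.dot ψ v) (PF.doti φ v) hg hg'
    obtain ⟨h, hh, hne⟩ := PF.transfer ((PF.dot ψ v).mul (PF.doti φ v)) hH hc
    have h2 : (cv h⁻¹ φ ⬝ᵥ v) • av h v ∈ S := by
      rw [hS]
      refine ⟨av h v, cv h⁻¹ φ, hz.conj hh, ?_, rfl⟩
      rw [cv_dot]
      exact right_ne_zero_of_mul hne
    have h3 := hψ _ (Submodule.subset_span h2)
    rw [dotProduct_smul, cv_dot, smul_eq_mul, mul_comm] at h3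
    exact hne h3
  choose q hq hqS using h1
  choose T hTS hT using fun j => Submodule.mem_span_finite_of_mem_span (hqS j)
  obtain ⟨U, hU⟩ : ∃ U : Finset (ι → ℤ), U = Finset.univ.biUnion T := ⟨_, rfl⟩
  have hUS : ∀ y : U, ∃ a α, Tr H a α ∧ α ⬝ᵥ v ≠ 0 ∧ y.1 = (α ⬝ᵥ v) • a := by
    intro y
    have h2 : y.1 ∈ Finset.univ.biUnion T := by rw [← hU]; exact y.2
    obtain ⟨j, _, hj⟩ := Finset.mem_biUnion.1 h2
    have h3 : y.1 ∈ S := hTS j hj
    rw [hS] at h3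
    exact h3
  choose a α hTr hne hy using hUS
  obtain ⟨i0, hi0⟩ := Function.ne_iff.1 hφ
  have hi0' : φ i0 ≠ 0 := hi0
  refine ⟨U, inferInstance, a, α, (∏ j, q j) * φ i0, ?_, hTr, hne, ?_⟩
  · exact mul_ne_zero (Finset.prod_ne_zero_iff.2 fun j _ => hq j) hi0'
  intro p hp hpQ k
  by_contra hcon
  push Not at hcon
  have hpp : Prime (p : ℤ) := Nat.prime_iff_prime_int.1 hp
  have h4 : ∀ j, ∀ y ∈ Submodule.span ℤ (T j : Set (ι → ℤ)), (p : ℤ) ∣ φ ⬝ᵥ av k y := by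
    intro j y hy'
    induction hy' using Submodule.span_induction with
    | mem y hy' =>
      have h5 : y ∈ U := by
        rw [hU]
        exact Finset.mem_biUnion.2 ⟨j, Finset.mem_univ _, hy'⟩
      have h6 := hcon ⟨y, h5⟩
      have h7 := hy ⟨y, h5⟩
      have h8 : φ ⬝ᵥ av k y = (α ⟨y, h5⟩ ⬝ᵥ v) * (φ ⬝ᵥ av k (a ⟨y, h5⟩)) := by
        conv_lhs => rw [show y = _ from h7]
        rw [av_smul, dotProduct_smul, smul_eq_mul]
      rw [h8]
      exact h6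
    | zero =>
      have : av k 0 = 0 := mulVec_zero _
      rw [this, dotProduct_zero]; exact dvd_zero _
    | add y z _ _ h1 h2 =>
      rw [av_add, dotProduct_add]; exact dvd_add h1 h2
    | smul c y _ h1 =>
      rw [av_smul, dotProduct_smul, smul_eq_mul]; exact h1.mul_left _
  have h5 : ∀ j, (p : ℤ) ∣ cv k φ j := by
    intro j
    have h6 := h4 j _ (hT j)
    rw [av_smul, dotProduct_smul, smul_eq_mul, ← cv_dot, dotProduct_single, mul_one] at h6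
    refine (hpp.dvd_mul.1 h6).resolve_left fun h7 => hpQ ?_
    exact (h7.trans (Finset.dvd_prod_of_mem _ (Finset.mem_univ j))).mul_right _
  apply hpQ
  apply Dvd.dvd.mul_left
  have h6 : φ i0 = cv k φ ⬝ᵥ av k⁻¹ (Pi.single i0 1) := by
    rw [cv_dot, av_av_inv, dotProduct_single, mul_one]
  rw [h6]
  exact Finset.dvd_sum fun j _ => (h5 j).mul_right _

omit [Big ι] in
lemma tr_exists {a α : ι → ℤ} (h : α ⬝ᵥ a = 0) :
    ∃ A : SpecialLinearGroup ι ℤ, mt A = 1 + vecMulVec a α := by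
  refine ⟨⟨1 + vecMulVec a α, ?_⟩, rfl⟩
  rw [vecMulVec_eq Unit, det_one_add_replicateCol_mul_replicateRow, h, add_zero]

omit [Big ι] in
lemma pick {f g : ι → ℤ} (h : ∃ i j, f i * g j - f j * g i ≠ 0) :
    ∃ y : ι → ℤ, f ⬝ᵥ y = 0 ∧ g ⬝ᵥ y ≠ 0 := by
  obtain ⟨i, j, hij⟩ := h
  refine ⟨Pi.single j (f i) - Pi.single i (f j), ?_, ?_⟩
  · rw [dotProduct_sub, dotProduct_single, dotProduct_single]; ring
  · rw [dotProduct_sub, dotProduct_single, dotProduct_single]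
    intro h0
    apply hij
    linear_combination h0

omit [Big ι] in
lemma av_of {A : SpecialLinearGroup ι ℤ} {a α : ι → ℤ} (hA : mt A = 1 + vecMulVec a α)
    (y : ι → ℤ) : av A y = y + (α ⬝ᵥ y) • a := by
  unfold av
  rw [hA, add_mulVec, one_mulVec, vecMulVec_mulVec]
  ext i
  simp only [Pi.add_apply, Pi.smul_apply, smul_eq_mul, MulOpposite.smul_eq_mul_unop,
    MulOpposite.unop_op]
  ring

omit [Big ι] in
lemma av_inv_of {A : SpecialLinearGroup ι ℤ} {a α : ι → ℤ} (h : α ⬝ᵥ a = 0)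
    (hA : mt A = 1 + vecMulVec a α) (y : ι → ℤ) : av A⁻¹ y = y - (α ⬝ᵥ y) • a := by
  unfold av
  rw [mt_inv_of h hA, sub_mulVec, one_mulVec, vecMulVec_mulVec]
  ext i
  simp only [Pi.sub_apply, Pi.smul_apply, smul_eq_mul, MulOpposite.smul_eq_mul_unop,
    MulOpposite.unop_op]
  ring

omit [Big ι] in
/-- The explicit element. -/
theorem ex_three {φ v x : ι → ℤ} (hv : v ≠ 0) (hφ : φ ≠ 0) (hφv : φ ⬝ᵥ v = 0)
    (hφx : φ ⬝ᵥ x = 0) (hvx : ∃ i j, v i * x j - v j * x i ≠ 0) :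
    ∃ k : SpecialLinearGroup ι ℤ, φ ⬝ᵥ av k v = 0 ∧ φ ⬝ᵥ av k x ≠ 0 ∧ φ ⬝ᵥ av k⁻¹ v ≠ 0 := by
  obtain ⟨α, hαv, hαx⟩ := pick hvx
  rw [dotProduct_comm] at hαv hαx
  have h1 : ∃ i j, φ i * α j - φ j * α i ≠ 0 := ind_of hφ hφx hαx
  have h2 : ∃ i j, α i * φ j - α j * φ i ≠ 0 := by
    obtain ⟨i, j, hij⟩ := h1
    exact ⟨j, i, by intro h0; apply hij; linear_combination h0⟩
  obtain ⟨a, haα, haφ⟩ := pick h2
  obtain ⟨b, hbφ, hbα⟩ := pick h1
  have hb : b ≠ 0 := by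
    rintro rfl
    exact hbα (dotProduct_zero _)
  obtain ⟨i, j, hij⟩ := ind_of (f := v) (g := b) (v := α) hv (by rw [dotProduct_comm, hαv])
    (by rwa [dotProduct_comm])
  obtain ⟨β, hβb, hβv⟩ := pick (f := b) (g := v) ⟨i, j, by
    intro h0; apply hij; linear_combination -h0⟩
  rw [dotProduct_comm] at hβb hβv
  obtain ⟨A, hA⟩ := tr_exists haα
  obtain ⟨B, hB⟩ := tr_exists hβb
  refine ⟨B * A, ?_, ?_, ?_⟩
  · rw [av_mul, av_of hA, hαv, zero_smul, add_zero, av_of hB, dotProduct_add, hφv,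
      dotProduct_smul, hbφ, smul_zero, add_zero]
  · rw [av_mul, av_of hA, av_of hB, dotProduct_add, dotProduct_add, hφx, dotProduct_smul,
      dotProduct_smul, hbφ, smul_zero, add_zero, zero_add, smul_eq_mul]
    exact mul_ne_zero hαx haφ
  · rw [_root_.mul_inv_rev, av_mul, av_inv_of hβb hB, av_inv_of haα hA, dotProduct_sub,
      dotProduct_sub, dotProduct_sub, hφv, dotProduct_smul, dotProduct_smul, dotProduct_smul,
      hbφ, hαv]
    simp only [smul_eq_mul, mul_zero, zero_sub, sub_zero, neg_mul, sub_neg_eq_add, zero_add]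
    exact mul_ne_zero (mul_ne_zero hβv hbα) haφ

end Pool.Agent.Run7.h25.TV
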