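import Pool.Agent.Run7.h25.TV.Pairs
import Mathlib.GroupTheory.CoprodI

/-!
# Free groups generated by two transvections
-/

set_option autoImplicit false
set_option linter.unusedSectionVars false

namespace Pool.Agent.Run7.h25.TV

open Matrix Pool.Agent.Helper460_CSP
open scoped Pointwise Cardinal

variable {ι : Type} [DecidableEq ι] [Fintype ι] {H : Subgroup (SpecialLinearGroup ι ℤ)}

/-- Ping-pong with the cyclic groups generated by the elements of a family. -/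
theorem free_of_ping_pong {G κ α : Type} [Group G] [Nontrivial κ] [MulAction G α] (a : κ → G)
    (X : κ → Set α) (h1 : ∀ i, (X i).Nonempty) (h2 : Pairwise fun i j => Disjoint (X i) (X j))
    (h3 : ∀ i j, i ≠ j → ∀ n : ℤ, n ≠ 0 → (a i) ^ n • X j ⊆ X i) :
    Function.Injective (FreeGroup.lift a) := by
  have : FreeGroup.lift a =
      (Monoid.CoprodI.lift fun i => FreeGroup.lift fun _ => a i).comp
        (@freeGroupEquivCoprodI κ).toMonoidHom := by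
    ext i
    simp
  rw [this, MonoidHom.coe_comp]
  clear this
  refine Function.Injective.comp ?_ (MulEquiv.injective freeGroupEquivCoprodI)
  change Function.Injective (Monoid.CoprodI.lift fun i : κ => FreeGroup.lift fun _ => a i)
  let K : κ → Type := fun _i => FreeGroup Unit
  let f : ∀ i, K i →* G := fun i => FreeGroup.lift fun _ => a i
  apply Monoid.CoprodI.lift_injective_of_ping_pong f _ X
  · exact h1
  · exact h2
  · change Pairwise fun i j => ∀ h : K i, h ≠ 1 → f i h • X j ⊆ X i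
    rintro i j hij
    refine FreeGroup.freeGroupUnitEquivInt.forall_congr_left.mpr ?_
    intro n hne1
    change FreeGroup.lift (fun _ => a i) (FreeGroup.of () ^ n) • X j ⊆ X i
    simp only [map_zpow, FreeGroup.lift_apply_of]
    change a i ^ n • X j ⊆ X i
    have hnne0 : n ≠ 0 := by
      rintro rfl
      apply hne1
      simp [K, FreeGroup.freeGroupUnitEquivInt]
    exact h3 i j hij n hnne0
  show _ ∨ ∃ i, 3 ≤ #(K i)
  right
  obtain ⟨i, _⟩ := exists_pair_ne κ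
  refine ⟨i, ?_⟩
  simp only [K]
  rw [FreeGroup.freeGroupUnitEquivInt.cardinal_eq, Cardinal.mk_denumerable]
  exact Cardinal.natCast_le_aleph0

/-- The vectors, with the action of the special linear group. -/
def Vc (ι : Type) : Type := ι → ℤ

instance : MulAction (SpecialLinearGroup ι ℤ) (Vc ι) where
  smul A y := av A y
  one_smul y := av_one y
  mul_smul A B y := av_mul A B y

lemma smul_vc (A : SpecialLinearGroup ι ℤ) (y : Vc ι) : A • y = av A y := rfl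

/-- Two transvections with `|φ (w) ψ (v)| ≥ 4` generate a free group. -/
theorem free_pair {u₁ u₂ : SpecialLinearGroup ι ℤ} {v φ w ψ : ι → ℤ} (h1 : IsTv u₁ v φ)
    (h2 : IsTv u₂ w ψ) (h4 : 4 ≤ |(φ ⬝ᵥ w) * (ψ ⬝ᵥ v)|) :
    Function.Injective (FreeGroup.lift ![u₁, u₂]) := by
  obtain ⟨hv, hφ, hφv, hum⟩ := h1
  obtain ⟨hw, hψ, hψw, hwm⟩ := h2
  obtain ⟨a, ha⟩ : ∃ a, a = φ ⬝ᵥ w := ⟨_, rfl⟩
  obtain ⟨b, hb⟩ : ∃ b, b = ψ ⬝ᵥ v := ⟨_, rfl⟩
  rw [← ha, ← hb, abs_mul] at h4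
  have hap : 0 < |a| := by
    rcases (abs_nonneg a).lt_or_eq with h | h
    · exact h
    · rw [← h] at h4; linarith
  have hbp : 0 < |b| := by
    rcases (abs_nonneg b).lt_or_eq with h | h
    · exact h
    · rw [← h] at h4; linarith
  have hU : ∀ (n : ℤ) (y : ι → ℤ), av (u₁ ^ n) y = y + (n * (φ ⬝ᵥ y)) • v := by
    intro n y
    have e : mt (u₁ ^ n) = 1 + vecMulVec (n • v) φ := by
      rw [mt_zpow_sq0 hum (vv_zero hφv), smul_vecMulVec]
    rw [av_of e, smul_smul, mul_comm]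
  have hW : ∀ (n : ℤ) (y : ι → ℤ), av (u₂ ^ n) y = y + (n * (ψ ⬝ᵥ y)) • w := by
    intro n y
    have e : mt (u₂ ^ n) = 1 + vecMulVec (n • w) ψ := by
      rw [mt_zpow_sq0 hwm (vv_zero hψw), smul_vecMulVec]
    rw [av_of e, smul_smul, mul_comm]
  have k1 : ∀ n : ℤ, n ≠ 0 → ∀ y : ι → ℤ, |a| * |ψ ⬝ᵥ y| < 2 * |φ ⬝ᵥ y| →
      2 * |φ ⬝ᵥ av (u₁ ^ n) y| < |a| * |ψ ⬝ᵥ av (u₁ ^ n) y| := by
    intro n hn y hy
    rw [hU, dotProduct_add, dotProduct_smul, hφv, smul_zero, add_zero, dotProduct_add,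
      dotProduct_smul, ← hb, smul_eq_mul]
    obtain ⟨p, hp⟩ : ∃ p, p = φ ⬝ᵥ y := ⟨_, rfl⟩
    obtain ⟨q, hq⟩ : ∃ q, q = ψ ⬝ᵥ y := ⟨_, rfl⟩
    rw [← hp, ← hq] at hy ⊢
    have hn1 : 1 ≤ |n| := Int.one_le_abs hn
    have h5 : |n| * |p| * |b| - |q| ≤ |q + n * p * b| := by
      have h6 := abs_sub_abs_le_abs_sub (n * p * b) (-q)
      rw [abs_neg, abs_mul, abs_mul, sub_neg_eq_add, add_comm (n * p * b)] at h6
      exact h6
    have h7 : |p| * |b| ≤ |n| * |p| * |b| := by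
      have : 0 ≤ |p| * |b| := by positivity
      nlinarith
    have h8 : |a| * (|p| * |b| - |q|) ≤ |a| * |q + n * p * b| :=
      mul_le_mul_of_nonneg_left (by linarith) hap.le
    have hp0 := abs_nonneg p
    nlinarith
  have k2 : ∀ n : ℤ, n ≠ 0 → ∀ y : ι → ℤ, 2 * |φ ⬝ᵥ y| < |a| * |ψ ⬝ᵥ y| →
      |a| * |ψ ⬝ᵥ av (u₂ ^ n) y| < 2 * |φ ⬝ᵥ av (u₂ ^ n) y| := by
    intro n hn y hy
    rw [hW, dotProduct_add, dotProduct_smul, hψw, smul_zero, add_zero, dotProduct_add,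
      dotProduct_smul, ← ha, smul_eq_mul]
    obtain ⟨p, hp⟩ : ∃ p, p = φ ⬝ᵥ y := ⟨_, rfl⟩
    obtain ⟨q, hq⟩ : ∃ q, q = ψ ⬝ᵥ y := ⟨_, rfl⟩
    rw [← hp, ← hq] at hy ⊢
    have hn1 : 1 ≤ |n| := Int.one_le_abs hn
    have h5 : |n| * |q| * |a| - |p| ≤ |p + n * q * a| := by
      have h6 := abs_sub_abs_le_abs_sub (n * q * a) (-p)
      rw [abs_neg, abs_mul, abs_mul, sub_neg_eq_add, add_comm (n * q * a)] at h6
      exact h6
    have h7 : |q| * |a| ≤ |n| * |q| * |a| := by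
      have : 0 ≤ |q| * |a| := by positivity
      nlinarith
    nlinarith
  -- the two sets
  let S₁ : Set (Vc ι) := fun y : ι → ℤ => 2 * |φ ⬝ᵥ y| < |a| * |ψ ⬝ᵥ y|
  let S₂ : Set (Vc ι) := fun y : ι → ℤ => |a| * |ψ ⬝ᵥ y| < 2 * |φ ⬝ᵥ y|
  have hdis : Disjoint S₁ S₂ := by
    rw [Set.disjoint_left]
    intro y hy1 hy2
    have e : ∀ z : ι → ℤ, 2 * |φ ⬝ᵥ z| < |a| * |ψ ⬝ᵥ z| → |a| * |ψ ⬝ᵥ z| < 2 * |φ ⬝ᵥ z| →
      False := fun z p q => lt_asymm p q
    exact e y hy1 hy2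
  have hS₁ : S₁.Nonempty := ⟨v, by
    show 2 * |φ ⬝ᵥ v| < |a| * |ψ ⬝ᵥ v|
    rw [hφv, abs_zero, mul_zero, ← hb]
    positivity⟩
  have hS₂ : S₂.Nonempty := ⟨w, by
    show |a| * |ψ ⬝ᵥ w| < 2 * |φ ⬝ᵥ w|
    rw [hψw, abs_zero, mul_zero, ← ha]
    positivity⟩
  have hm1 : ∀ n : ℤ, n ≠ 0 → u₁ ^ n • S₂ ⊆ S₁ := by
    rintro n hn _ ⟨y, hy, rfl⟩
    exact k1 n hn y hy
  have hm2 : ∀ n : ℤ, n ≠ 0 → u₂ ^ n • S₁ ⊆ S₂ := by
    rintro n hn _ ⟨y, hy, rfl⟩
    exact k2 n hn y hy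
  have hnt : Nontrivial (Fin 2) := inferInstance
  refine free_of_ping_pong ![u₁, u₂] (α := Vc ι) ![S₁, S₂] ?_ ?_ ?_
  · intro i
    fin_cases i
    · exact hS₁
    · exact hS₂
  · intro i j hij
    fin_cases i <;> fin_cases j
    · exact absurd rfl hij
    · exact hdis
    · exact hdis.symm
    · exact absurd rfl hij
  · intro i j hij n hn
    fin_cases i <;> fin_cases j
    · exact absurd rfl hij
    · exact hm1 n hn
    · exact hm2 n hn
    · exact absurd rfl hij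

variable [Big ι]

/-- **Two transvections in a Zariski dense subgroup of infinite index have a common power or
generate a free group.** -/
theorem dichotomy {u₁ u₂ : SpecialLinearGroup ι ℤ} {v φ w ψ : ι → ℤ} (hH : Zd H) (hF : ¬ Fi H)
    (hu₁ : u₁ ∈ H) (hu₂ : u₂ ∈ H) (h1 : IsTv u₁ v φ) (h2 : IsTv u₂ w ψ) :
    (∃ a b : ℤ, a ≠ 0 ∧ b ≠ 0 ∧ u₁ ^ a = u₂ ^ b) ∨
      Function.Injective (FreeGroup.lift ![u₁, u₂]) := by
  obtain ⟨hv, hφ, hφv, hum⟩ := h1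
  obtain ⟨hw, hψ, hψw, hwm⟩ := h2
  have T1 : Tr H v φ := ⟨hφv, u₁, hu₁, hum⟩
  have T2 : Tr H w ψ := ⟨hψw, u₂, hu₂, hwm⟩
  by_cases hp : Par v w
  · by_cases hq : Par φ ψ
    · exact Or.inl (common_power ⟨hv, hφ, hφv, hum⟩ ⟨hw, hψ, hψw, hwm⟩ hp hq)
    · exact absurd (same_centre hH hv hφ T1 T2 hw hp hq) hF
  · have hp' : ¬ Par w v := fun h => hp fun a b => by linear_combination -h a b
    right
    apply free_pair ⟨hv, hφ, hφv, hum⟩ ⟨hw, hψ, hψw, hwm⟩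
    by_contra hlt
    apply hF
    by_cases h0 : (φ ⬝ᵥ w) * (ψ ⬝ᵥ v) = 0
    · rcases mul_eq_zero.1 h0 with h3 | h3
      · exact pairM hH hv hφ T1 T2 hψ h3 hp
      · exact pairM hH hw hψ T2 T1 hφ h3 hp'
    · exact small_pair hH hv hφ hψ T1 T2 h0 (by omega)

end Pool.Agent.Run7.h25.TV
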