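import Pool.Agent.Run7.h25.TV.Tr

/-!
# Generic elements
-/

set_option autoImplicit false
set_option linter.unusedSectionVars false

namespace Pool.Agent.Run7.h25.TV

open Matrix Pool.Agent.Helper460_CSP Polynomial

/-- Index sets with at least three elements for which the congruence subgroups are known to be
generated by elementary matrices. -/
class Big (ι : Type) [DecidableEq ι] [Fintype ι] : Prop where
  card : 3 ≤ Fintype.card ι
  bls : ∀ M : ℤ, M ≠ 0 → ∀ A : SpecialLinearGroup ι ℤ, Cgr M A → A ∈ El ι M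

instance (n : ℕ) : Big (Fin (n + 3)) :=
  ⟨by rw [Fintype.card_fin]; omega, fun _ hM A hA => Pool.Agent.Helper460_CSP.bls hM n A hA⟩

variable {ι : Type} [DecidableEq ι] [Fintype ι]

/-- Polynomials in the entries of `g` and of `g⁻¹`. -/
inductive PF : (SpecialLinearGroup ι ℤ → ℤ) → Prop
  | const (c : ℤ) : PF (fun _ => c)
  | ent (i j : ι) : PF (fun g => mt g i j)
  | ient (i j : ι) : PF (fun g => mt g⁻¹ i j)
  | add {F F' : SpecialLinearGroup ι ℤ → ℤ} : PF F → PF F' → PF (fun g => F g + F' g)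
  | mul {F F' : SpecialLinearGroup ι ℤ → ℤ} : PF F → PF F' → PF (fun g => F g * F' g)

lemma PF.sum {κ : Type} (s : Finset κ) {F : κ → SpecialLinearGroup ι ℤ → ℤ}
    (h : ∀ i ∈ s, PF (F i)) : PF (fun g => ∑ i ∈ s, F i g) := by
  classical
  induction s using Finset.induction_on with
  | empty => simpa using PF.const (ι := ι) 0
  | insert a s ha ih =>
    simp only [Finset.sum_insert ha]
    exact PF.add (h a (Finset.mem_insert_self _ _))
      (ih fun i hi => h i (Finset.mem_insert_of_mem hi))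

lemma PF.prod {κ : Type} (s : Finset κ) {F : κ → SpecialLinearGroup ι ℤ → ℤ}
    (h : ∀ i ∈ s, PF (F i)) : PF (fun g => ∏ i ∈ s, F i g) := by
  classical
  induction s using Finset.induction_on with
  | empty => simpa using PF.const (ι := ι) 1
  | insert a s ha ih =>
    simp only [Finset.prod_insert ha]
    exact PF.mul (h a (Finset.mem_insert_self _ _))
      (ih fun i hi => h i (Finset.mem_insert_of_mem hi))

lemma PF.sub {F F' : SpecialLinearGroup ι ℤ → ℤ} (h : PF F) (h' : PF F') :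
    PF (fun g => F g - F' g) := by
  have : PF (fun g => F g + (-1) * F' g) := h.add ((PF.const (-1)).mul h')
  simpa [sub_eq_add_neg] using this

lemma PF.dot (φ v : ι → ℤ) : PF (fun g : SpecialLinearGroup ι ℤ => φ ⬝ᵥ av g v) := by
  unfold av dotProduct mulVec dotProduct
  exact PF.sum _ fun i _ => (PF.const _).mul (PF.sum _ fun j _ => (PF.ent i j).mul (PF.const _))

lemma PF.doti (φ v : ι → ℤ) : PF (fun g : SpecialLinearGroup ι ℤ => φ ⬝ᵥ av g⁻¹ v) := by
  unfold av dotProduct mulVec dotProduct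
  exact PF.sum _ fun i _ => (PF.const _).mul (PF.sum _ fun j _ => (PF.ient i j).mul (PF.const _))

lemma ent_line (a b : SpecialLinearGroup ι ℤ) (k l : ι) (h : k ≠ l) (t : ℤ) (i j : ι) :
    mt (a * tv k l h t * b) i j = mt (a * b) i j + mt a i k * mt b l j * t := by
  rw [mt_mul, mt_mul, mt_mul]
  show (mt a * transvection k l t * mt b) i j = _
  rw [transvection, mul_add, mul_one, add_mul, Matrix.add_apply, add_right_inj, Matrix.mul_assoc,
    Matrix.mul_apply]
  rw [Finset.sum_eq_single k]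
  · rw [Matrix.single_mul_apply_same]; ring
  · intro c _ hc
    rw [Matrix.single_mul_apply_of_ne _ _ _ _ _ hc, mul_zero]
  · intro hk; exact absurd (Finset.mem_univ _) hk

lemma tv_inv (k l : ι) (h : k ≠ l) (t : ℤ) : (tv k l h t)⁻¹ = tv k l h (-t) := by
  rw [inv_eq_iff_mul_eq_one, ← tv_add, add_neg_cancel, tv_zero]

lemma PF.line {F : SpecialLinearGroup ι ℤ → ℤ} (hF : PF F) (a b : SpecialLinearGroup ι ℤ)
    (k l : ι) (h : k ≠ l) : ∃ P : ℤ[X], ∀ t, F (a * tv k l h t * b) = P.eval t := by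
  induction hF with
  | const c => exact ⟨C c, fun t => by simp⟩
  | ent i j => exact ⟨C (mt (a * b) i j) + C (mt a i k * mt b l j) * X, fun t => by
      simp only [ent_line, eval_add, eval_mul, eval_C, eval_X]⟩
  | ient i j =>
    refine ⟨C (mt (b⁻¹ * a⁻¹) i j) - C (mt b⁻¹ i k * mt a⁻¹ l j) * X, fun t => ?_⟩
    have h1 : (a * tv k l h t * b)⁻¹ = b⁻¹ * tv k l h (-t) * a⁻¹ := by
      rw [_root_.mul_inv_rev, _root_.mul_inv_rev, tv_inv, mul_assoc]
    simp only [h1, ent_line, eval_sub, eval_mul, eval_C, eval_X]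
    ring
  | add _ _ ih1 ih2 =>
    obtain ⟨P, hP⟩ := ih1
    obtain ⟨Q, hQ⟩ := ih2
    exact ⟨P + Q, fun t => by simp only [hP, hQ, eval_add]⟩
  | mul _ _ ih1 ih2 =>
    obtain ⟨P, hP⟩ := ih1
    obtain ⟨Q, hQ⟩ := ih2
    exact ⟨P * Q, fun t => by simp only [hP, hQ, eval_mul]⟩

lemma PF.congr {F : SpecialLinearGroup ι ℤ → ℤ} (hF : PF F) {m : ℤ}
    {g h : SpecialLinearGroup ι ℤ} (hgh : Cgr m (g⁻¹ * h)) : m ∣ F h - F g := by
  induction hF with
  | const c => simp
  | ent i j =>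
    have e1 : mt h = mt g * mt (g⁻¹ * h) := by rw [← mt_mul, mul_inv_cancel_left]
    have e2 : mt h i j - mt g i j =
        ∑ k, mt g i k * (mt (g⁻¹ * h) k j - (1 : Matrix ι ι ℤ) k j) := by
      rw [Finset.sum_congr rfl (fun k _ => mul_sub _ _ _), Finset.sum_sub_distrib,
        ← Matrix.mul_apply, ← Matrix.mul_apply, ← e1, mul_one]
    rw [e2]
    exact Finset.dvd_sum fun k _ => (hgh k j).mul_left _
  | ient i j =>
    have h3 : Cgr m (h⁻¹ * g) := by
      have := hgh.inv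
      rwa [_root_.mul_inv_rev, inv_inv] at this
    have e1 : mt h⁻¹ = mt (h⁻¹ * g) * mt g⁻¹ := by rw [← mt_mul, mul_assoc, mul_inv_cancel, mul_one]
    have e2 : mt h⁻¹ i j - mt g⁻¹ i j =
        ∑ k, (mt (h⁻¹ * g) i k - (1 : Matrix ι ι ℤ) i k) * mt g⁻¹ k j := by
      rw [Finset.sum_congr rfl (fun k _ => sub_mul _ _ _), Finset.sum_sub_distrib,
        ← Matrix.mul_apply, ← Matrix.mul_apply, ← e1, one_mul]
    rw [e2]
    exact Finset.dvd_sum fun k _ => (h3 i k).mul_right _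
  | @add F F' _ _ ih1 ih2 =>
    have : F h + F' h - (F g + F' g) = (F h - F g) + (F' h - F' g) := by ring
    rw [this]
    exact dvd_add ih1 ih2
  | @mul F F' _ _ ih1 ih2 =>
    have : F h * F' h - (F g * F' g) = (F h - F g) * F' h + F g * (F' h - F' g) := by ring
    rw [this]
    exact dvd_add (ih1.mul_right _) (ih2.mul_left _)

/-- The connecting property. -/
def Qx (x : SpecialLinearGroup ι ℤ) : Prop :=
  ∀ F F' : SpecialLinearGroup ι ℤ → ℤ, PF F → PF F' → ∀ a b, F a ≠ 0 → F' (a * x * b) ≠ 0 →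
    ∃ c, F c ≠ 0 ∧ F' (c * b) ≠ 0

lemma Qx_tv (y : SpecialLinearGroup ι ℤ) (k l : ι) (h : k ≠ l) (t : ℤ) :
    Qx (y * tv k l h t * y⁻¹) := by
  intro F F' hF hF' a b ha hb
  obtain ⟨P, hP⟩ := hF.line (a * y) y⁻¹ k l h
  obtain ⟨P', hP'⟩ := hF'.line (a * y) (y⁻¹ * b) k l h
  have h1 : P ≠ 0 := by
    rintro rfl
    apply ha
    have := hP 0
    rw [tv_zero, mul_one, mul_assoc, mul_inv_cancel, mul_one, eval_zero] at this
    exact this
  have h2 : P' ≠ 0 := by
    rintro rfl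
    apply hb
    have := hP' t
    rw [eval_zero] at this
    rw [← this]
    congr 1
    group
  have h3 : P * P' ≠ 0 := mul_ne_zero h1 h2
  obtain ⟨s, hs⟩ : ∃ s : ℤ, (P * P').eval s ≠ 0 := by
    by_contra hcon
    push Not at hcon
    exact h3 (Polynomial.funext fun s => by rw [hcon s, eval_zero])
  rw [eval_mul] at hs
  refine ⟨a * y * tv k l h s * y⁻¹, ?_, ?_⟩
  · rw [hP]; exact left_ne_zero_of_mul hs
  · have : a * y * tv k l h s * y⁻¹ * b = a * y * tv k l h s * (y⁻¹ * b) := by group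
    rw [this, hP']; exact right_ne_zero_of_mul hs

lemma Qx_El {x : SpecialLinearGroup ι ℤ} (hx : x ∈ El ι 1) : Qx x := by
  have key : ∀ x ∈ El ι 1, Qx x ∧ Qx x⁻¹ := by
    intro x hx
    unfold El Subgroup.normalClosure at hx
    induction hx using Subgroup.closure_induction with
    | mem x hx =>
      obtain ⟨z, ⟨i, j, hij, rfl⟩, hz⟩ := Group.mem_conjugatesOfSet_iff.1 hx
      obtain ⟨y, rfl⟩ := isConj_iff.1 hz
      refine ⟨Qx_tv y i j hij 1, ?_⟩
      have : (y * tv i j hij 1 * y⁻¹)⁻¹ = y * tv i j hij (-1) * y⁻¹ := by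
        rw [← tv_inv]; group
      rw [this]
      exact Qx_tv y i j hij (-1)
    | one =>
      rw [inv_one]
      have : Qx (1 : SpecialLinearGroup ι ℤ) := fun F F' _ _ a b ha hb => ⟨a, ha, by
        rwa [mul_one] at hb⟩
      exact ⟨this, this⟩
    | mul x y _ _ hx hy =>
      have hmul : ∀ x y : SpecialLinearGroup ι ℤ, Qx x → Qx y → Qx (x * y) := by
        intro x y hx hy F F' hF hF' a b ha hb
        obtain ⟨c, hc, hc'⟩ := hx F F' hF hF' a (y * b) ha (by
          have : a * x * (y * b) = a * (x * y) * b := by group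
          rwa [this])
        exact hy F F' hF hF' c b hc (by rwa [mul_assoc])
      refine ⟨hmul _ _ hx.1 hy.1, ?_⟩
      rw [_root_.mul_inv_rev]
      exact hmul _ _ hy.2 hx.2
    | inv x _ hx => exact ⟨hx.2, by rw [inv_inv]; exact hx.1⟩
  exact (key x hx).1

variable [Big ι]

lemma mem_El_one (x : SpecialLinearGroup ι ℤ) : x ∈ El ι 1 :=
  Big.bls 1 one_ne_zero x fun _ _ => one_dvd _

/-- **The generic lemma.** -/
theorem PF.generic {F F' : SpecialLinearGroup ι ℤ → ℤ} (hF : PF F) (hF' : PF F')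
    {g g' : SpecialLinearGroup ι ℤ} (h : F g ≠ 0) (h' : F' g' ≠ 0) : ∃ c, F c * F' c ≠ 0 := by
  obtain ⟨c, h1, h2⟩ := Qx_El (mem_El_one (g⁻¹ * g')) F F' hF hF' g 1 h (by
    rwa [mul_one, mul_inv_cancel_left])
  rw [mul_one] at h2
  exact ⟨c, mul_ne_zero h1 h2⟩

lemma PF.generic_prod {κ : Type} (s : Finset κ) {F : κ → SpecialLinearGroup ι ℤ → ℤ}
    (hF : ∀ i ∈ s, PF (F i)) (h : ∀ i ∈ s, ∃ g, F i g ≠ 0) : ∃ c, ∏ i ∈ s, F i c ≠ 0 := by
  classical
  induction s using Finset.induction_on with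
  | empty => exact ⟨1, by simp⟩
  | insert a s ha ih =>
    obtain ⟨c, hc⟩ := ih (fun i hi => hF i (Finset.mem_insert_of_mem hi))
      (fun i hi => h i (Finset.mem_insert_of_mem hi))
    obtain ⟨g, hg⟩ := h a (Finset.mem_insert_self _ _)
    simp only [Finset.prod_insert ha]
    exact PF.generic (hF a (Finset.mem_insert_self _ _))
      (PF.prod s fun i hi => hF i (Finset.mem_insert_of_mem hi)) hg hc

/-- `H` is dense in the congruence topology. -/
def Dn (H : Subgroup (SpecialLinearGroup ι ℤ)) : Prop :=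
  ∀ (g : SpecialLinearGroup ι ℤ) (m : ℤ), m ≠ 0 → ∃ h ∈ H, Cgr m (g⁻¹ * h)

/-- `H` is Zariski dense: a polynomial function which does not vanish identically does not vanish
identically on `H`. -/
def Zd (H : Subgroup (SpecialLinearGroup ι ℤ)) : Prop :=
  ∀ F : SpecialLinearGroup ι ℤ → ℤ, PF F → (∃ g, F g ≠ 0) → ∃ k ∈ H, F k ≠ 0

/-- `H` contains a congruence subgroup. -/
def Fi (H : Subgroup (SpecialLinearGroup ι ℤ)) : Prop :=
  ∃ M : ℤ, M ≠ 0 ∧ ∀ A : SpecialLinearGroup ι ℤ, Cgr M A → A ∈ H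

omit [Big ι] in
theorem Dn.zd {H : Subgroup (SpecialLinearGroup ι ℤ)} (hH : Dn H) : Zd H := by
  rintro F hF ⟨g, h⟩
  obtain ⟨k, hk, hc⟩ := hH g (2 * F g) (mul_ne_zero two_ne_zero h)
  refine ⟨k, hk, fun h0 => ?_⟩
  have h1 := hF.congr hc
  rw [h0, zero_sub, dvd_neg] at h1
  obtain ⟨c, hc⟩ := h1
  have h2 : F g * (2 * c - 1) = 0 := by linear_combination -hc
  rcases mul_eq_zero.1 h2 with h3 | h3
  · exact h h3
  · omega

omit [Big ι] in
theorem Dn.top {H : Subgroup (SpecialLinearGroup ι ℤ)} (hH : Dn H) (hF : Fi H) : H = ⊤ := by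
  obtain ⟨M, hM, hall⟩ := hF
  rw [eq_top_iff]
  intro g _
  obtain ⟨k, hk, hc⟩ := hH g M hM
  have h5 := hall _ hc
  have h6 := mul_mem hk (inv_mem h5)
  rwa [_root_.mul_inv_rev, inv_inv, mul_inv_cancel_left] at h6

omit [Big ι] in
theorem PF.transfer {F : SpecialLinearGroup ι ℤ → ℤ} (hF : PF F)
    {H : Subgroup (SpecialLinearGroup ι ℤ)} (hH : Zd H) {g : SpecialLinearGroup ι ℤ}
    (h : F g ≠ 0) : ∃ k ∈ H, F k ≠ 0 :=
  hH F hF ⟨g, h⟩

omit [Big ι] in
lemma PF.lmul {F : SpecialLinearGroup ι ℤ → ℤ} (hF : PF F) (a : SpecialLinearGroup ι ℤ) :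
    PF (fun g => F (a * g)) := by
  induction hF with
  | const c => exact PF.const c
  | ent i j =>
    have : (fun g : SpecialLinearGroup ι ℤ => mt (a * g) i j) =
        fun g => ∑ k, mt a i k * mt g k j := by
      funext g
      rw [mt_mul, Matrix.mul_apply]
    rw [this]
    exact PF.sum _ fun k _ => (PF.const _).mul (PF.ent k j)
  | ient i j =>
    have : (fun g : SpecialLinearGroup ι ℤ => mt (a * g)⁻¹ i j) =
        fun g => ∑ k, mt g⁻¹ i k * mt a⁻¹ k j := by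
      funext g
      rw [_root_.mul_inv_rev, mt_mul, Matrix.mul_apply]
    rw [this]
    exact PF.sum _ fun k _ => (PF.ient i k).mul (PF.const _)
  | add _ _ ih1 ih2 => exact ih1.add ih2
  | mul _ _ ih1 ih2 => exact ih1.mul ih2

/-- A subgroup of finite index of a Zariski dense subgroup is Zariski dense. -/
theorem Zd.congr {H : Subgroup (SpecialLinearGroup ι ℤ)} (hH : Zd H)
    {F : SpecialLinearGroup ι ℤ → ℤ} (hF : PF F) {g : SpecialLinearGroup ι ℤ} (h : F g ≠ 0)
    {M : ℤ} (hM : M ≠ 0) : ∃ k ∈ H, Cgr M k ∧ F k ≠ 0 := by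
  classical
  have hne : NeZero M.natAbs := ⟨Int.natAbs_ne_zero.2 hM⟩
  let π : SpecialLinearGroup ι ℤ →* SpecialLinearGroup ι (ZMod M.natAbs) :=
    SpecialLinearGroup.map (Int.castRingHom (ZMod M.natAbs))
  have hfin : Finite (SpecialLinearGroup ι (ZMod M.natAbs)) :=
    Finite.of_injective (fun A => A.1) Subtype.val_injective
  have := Fintype.ofFinite (SpecialLinearGroup ι (ZMod M.natAbs))
  have hr : ∀ c : SpecialLinearGroup ι (ZMod M.natAbs), ∃ r ∈ H, ∀ k ∈ H, π k = c → π r = c := by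
    intro c
    by_cases hc : ∃ k ∈ H, π k = c
    · obtain ⟨k, hk, hk'⟩ := hc
      exact ⟨k, hk, fun _ _ _ => hk'⟩
    · exact ⟨1, one_mem _, fun k hk hk' => absurd ⟨k, hk, hk'⟩ hc⟩
  choose r hrH hr using hr
  obtain ⟨x, hx⟩ := PF.generic_prod (Finset.univ : Finset (SpecialLinearGroup ι (ZMod M.natAbs)))
    (F := fun c x => F ((r c)⁻¹ * x)) (fun c _ => hF.lmul _)
    (fun c _ => ⟨r c * g, by simpa using h⟩)
  obtain ⟨k, hk, hk'⟩ := hH _ (PF.prod (Finset.univ : Finset (SpecialLinearGroup ι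
    (ZMod M.natAbs))) (F := fun c x => F ((r c)⁻¹ * x)) fun c _ => hF.lmul _) ⟨x, hx⟩
  refine ⟨(r (π k))⁻¹ * k, mul_mem (inv_mem (hrH _)) hk, ?_,
    (Finset.prod_ne_zero_iff.1 hk') (π k) (Finset.mem_univ _)⟩
  rw [cgr_iff, MonoidHom.mem_ker]
  show π ((r (π k))⁻¹ * k) = 1
  rw [map_mul, map_inv, hr (π k) k hk rfl, inv_mul_cancel]

omit [Big ι] in
lemma dot_tv (φ v : ι → ℤ) (i j : ι) (h : i ≠ j) (t : ℤ) :
    φ ⬝ᵥ av (tv i j h t) v = φ ⬝ᵥ v + t * (φ i * v j) := by
  have e : av (tv i j h t) v = v + Pi.single i (t * v j) := by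
    ext k
    rw [av_tv, Pi.add_apply, Pi.single_apply]
  rw [e, dotProduct_add, dotProduct_single]
  ring

omit [Big ι] in
/-- Nonvanishing, first kind. -/
theorem ex_one {φ v : ι → ℤ} (hφ : φ ≠ 0) (hv : v ≠ 0) :
    ∃ g : SpecialLinearGroup ι ℤ, φ ⬝ᵥ av g v ≠ 0 := by
  by_contra hcon
  push Not at hcon
  obtain ⟨i, hi⟩ := Function.ne_iff.1 hφ
  have hi' : φ i ≠ 0 := hi
  have h1 : φ ⬝ᵥ v = 0 := by
    have := hcon 1
    rwa [av_one] at this
  have h2 : ∀ j, j ≠ i → v j = 0 := by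
    intro j hj
    have := hcon (tv i j hj.symm 1)
    rw [dot_tv, h1, zero_add, one_mul] at this
    exact (mul_eq_zero.1 this).resolve_left hi'
  have h3 : φ ⬝ᵥ v = φ i * v i := by
    unfold dotProduct
    rw [Finset.sum_eq_single i]
    · intro j _ hj
      rw [h2 j hj, mul_zero]
    · intro h; exact absurd (Finset.mem_univ _) h
  apply hv
  ext j
  by_cases hj : j = i
  · subst hj
    rw [h3] at h1
    exact (mul_eq_zero.1 h1).resolve_left hi'
  · exact h2 j hj

omit [Big ι] in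
theorem ex_one' {φ v : ι → ℤ} (hφ : φ ≠ 0) (hv : v ≠ 0) :
    ∃ g : SpecialLinearGroup ι ℤ, φ ⬝ᵥ av g⁻¹ v ≠ 0 := by
  obtain ⟨g, hg⟩ := ex_one hφ hv
  exact ⟨g⁻¹, by rwa [inv_inv]⟩

omit [Big ι] in
lemma av_mul_tv (g : SpecialLinearGroup ι ℤ) (i j : ι) (h : i ≠ j) (v : ι → ℤ) :
    av (g * tv i j h 1) v = av g v + v j • av g (Pi.single i 1) := by
  have e : av (tv i j h 1) v = v + v j • Pi.single i 1 := by
    ext k
    rw [av_tv, Pi.add_apply, Pi.smul_apply, Pi.single_apply]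
    split_ifs <;> simp
  rw [av_mul, e, av_add, av_smul]

/-- The bivector function vanishes. -/
def PV (φ ψ x y : ι → ℤ) : Prop :=
  ∀ g : SpecialLinearGroup ι ℤ,
    (φ ⬝ᵥ av g x) * (ψ ⬝ᵥ av g y) - (φ ⬝ᵥ av g y) * (ψ ⬝ᵥ av g x) = 0

omit [Big ι] in
lemma PV.symm {φ ψ x y : ι → ℤ} (h : PV φ ψ x y) : PV φ ψ y x := fun g => by
  linear_combination -(h g)

omit [Big ι] in
lemma PV.step {φ ψ x y : ι → ℤ} (h : PV φ ψ x y) {i j k : ι} (hj : i ≠ j) (hk : i ≠ k)
    (hm : x j * y k - x k * y j ≠ 0) :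
    PV φ ψ x (Pi.single i 1) ∧ PV φ ψ y (Pi.single i 1) := by
  have key : ∀ (g : SpecialLinearGroup ι ℤ) (l : ι), i ≠ l →
      y l * ((φ ⬝ᵥ av g x) * (ψ ⬝ᵥ av g (Pi.single i 1)) -
        (φ ⬝ᵥ av g (Pi.single i 1)) * (ψ ⬝ᵥ av g x)) =
      x l * ((φ ⬝ᵥ av g y) * (ψ ⬝ᵥ av g (Pi.single i 1)) -
        (φ ⬝ᵥ av g (Pi.single i 1)) * (ψ ⬝ᵥ av g y)) := by
    intro g l hl
    have h1 := h g
    have h2 := h (g * tv i l hl 1)
    rw [av_mul_tv, av_mul_tv] at h2
    simp only [dotProduct_add, dotProduct_smul, smul_eq_mul] at h2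
    linear_combination h2 - h1
  constructor
  · intro g
    have h1 := key g j hj
    have h2 := key g k hk
    refine (mul_eq_zero.1 (?_ : (x j * y k - x k * y j) * _ = 0)).resolve_left hm
    linear_combination x j * h2 - x k * h1
  · intro g
    have h1 := key g j hj
    have h2 := key g k hk
    refine (mul_eq_zero.1 (?_ : (x j * y k - x k * y j) * _ = 0)).resolve_left hm
    linear_combination y j * h2 - y k * h1

lemma third (i j : ι) : ∃ k, k ≠ i ∧ k ≠ j := by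
  obtain ⟨q, hq⟩ : ∃ q, q ∉ ({i, j} : Finset ι) := by
    by_contra hcon
    push Not at hcon
    have h1 : (Finset.univ : Finset ι) ⊆ {i, j} := fun x _ => hcon x
    have h2 := Finset.card_le_card h1
    have h4 := Finset.card_le_two (a := i) (b := j)
    rw [Finset.card_univ] at h2
    have := Big.card (ι := ι)
    omega
  rw [Finset.mem_insert, Finset.mem_singleton, not_or] at hq
  exact ⟨q, hq.1, hq.2⟩

/-- Nonvanishing, second kind. -/
theorem ex_two {φ ψ v w : ι → ℤ} (hf : ∃ i j, φ i * ψ j - φ j * ψ i ≠ 0)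
    (hv : ∃ i j, v i * w j - v j * w i ≠ 0) :
    ∃ g : SpecialLinearGroup ι ℤ,
      (φ ⬝ᵥ av g v) * (ψ ⬝ᵥ av g w) - (φ ⬝ᵥ av g w) * (ψ ⬝ᵥ av g v) ≠ 0 := by
  by_contra hcon
  push Not at hcon
  have h0 : PV φ ψ v w := hcon
  obtain ⟨j, j', hj⟩ := hv
  obtain ⟨i, hi1, hi2⟩ := third j j'
  have h1 := (h0.step hi1 hi2 hj).1
  obtain ⟨k, hki, hk⟩ : ∃ k, k ≠ i ∧ v k ≠ 0 := by
    by_cases h2 : v j = 0
    · refine ⟨j', hi2.symm, fun h3 => hj ?_⟩
      rw [h2, h3]; ring
    · exact ⟨j, hi1.symm, h2⟩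
  obtain ⟨i', h3, h4⟩ := third k i
  have h5 : PV φ ψ (Pi.single i 1) (Pi.single i' 1) :=
    (h1.step h3 h4 (by
      rw [Pi.single_eq_same, Pi.single_eq_of_ne hki]
      simpa using hk)).2
  have hst : ∀ a b c : ι, a ≠ b → c ≠ a → c ≠ b → PV φ ψ (Pi.single a 1) (Pi.single b 1) →
      PV φ ψ (Pi.single a 1) (Pi.single c 1) ∧ PV φ ψ (Pi.single b 1) (Pi.single c 1) := by
    intro a b c hab hca hcb h
    apply h.step hca hcb
    rw [Pi.single_eq_same, Pi.single_eq_same, Pi.single_eq_of_ne hab, Pi.single_eq_of_ne hab.symm]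
    norm_num
  have h6 : ∀ c, c ≠ i → PV φ ψ (Pi.single i 1) (Pi.single c 1) := by
    intro c hc
    by_cases hci : c = i'
    · rw [hci]; exact h5
    · exact (hst i i' c h4.symm hc hci h5).1
  have h7 : ∀ a b, a ≠ b → PV φ ψ (Pi.single a 1) (Pi.single b 1) := by
    intro a b hab
    by_cases ha : a = i
    · subst ha; exact h6 b hab.symm
    · by_cases hb : b = i
      · subst hb; exact (h6 a ha).symm
      · exact (hst i a b (Ne.symm ha) hb hab.symm (h6 a ha)).2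
  obtain ⟨a, b, hab⟩ := hf
  by_cases hab' : a = b
  · subst hab'; exact hab (sub_self _)
  · have := h7 a b hab' 1
    rw [av_one, av_one] at this
    simp only [dotProduct_single, mul_one] at this
    exact hab this

end Pool.Agent.Run7.h25.TV
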