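import Pool.Agent.Run7.h25.TV.Trick

/-!
# A transvection and any commuting unipotent element
-/

set_option autoImplicit false
set_option linter.unusedSectionVars false

namespace Pool.Agent.Run7.h25.TV

open Matrix Pool.Agent.Helper460_CSP Polynomial

variable {ι : Type} [DecidableEq ι] [Fintype ι] {H : Subgroup (SpecialLinearGroup ι ℤ)}

lemma mt_pow (A : SpecialLinearGroup ι ℤ) (k : ℕ) : mt (A ^ k) = mt A ^ k := by
  induction k with
  | zero => rw [pow_zero, pow_zero, mt_one]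
  | succ k ih => rw [pow_succ, mt_mul, ih, pow_succ]

lemma cv_pow_fix {g : SpecialLinearGroup ι ℤ} {φ : ι → ℤ} (hφg : cv g φ = φ) (m : ℕ) :
    cv (g ^ m) φ = φ := by
  induction m with
  | zero => rw [pow_zero, cv_one]
  | succ m ih => rw [pow_succ, cv_mul, ih, hφg]

lemma pow_expand {N : Matrix ι ι ℤ} {n : ℕ} (hN : N ^ (n + 1) = 0) (K : ℕ) :
    (1 + N) ^ K = ∑ j ∈ Finset.range (n + 1), (K.choose j : ℤ) • N ^ j := by
  rw [add_comm, (Commute.one_right N).add_pow]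
  have h1 : ∀ m ∈ Finset.range (K + 1), N ^ m * 1 ^ (K - m) * (K.choose m : Matrix ι ι ℤ) =
      (K.choose m : ℤ) • N ^ m := by
    intro m _
    rw [one_pow, mul_one, (Nat.cast_commute _ _).symm.eq, ← nsmul_eq_mul, natCast_zsmul]
  rw [Finset.sum_congr rfl h1]
  have h2 : ∑ j ∈ Finset.range (K + 1), (K.choose j : ℤ) • N ^ j =
      ∑ j ∈ Finset.range (K + 1 + (n + 1)), (K.choose j : ℤ) • N ^ j := by
    apply Finset.sum_subset
    · intro x hx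
      rw [Finset.mem_range] at hx ⊢
      omega
    · intro x _ hx
      rw [Finset.mem_range, not_lt] at hx
      rw [Nat.choose_eq_zero_of_lt (by omega), Nat.cast_zero, zero_smul]
  have h3 : ∑ j ∈ Finset.range (n + 1), (K.choose j : ℤ) • N ^ j =
      ∑ j ∈ Finset.range (K + 1 + (n + 1)), (K.choose j : ℤ) • N ^ j := by
    apply Finset.sum_subset
    · intro x hx
      rw [Finset.mem_range] at hx ⊢
      omega
    · intro x _ hx
      rw [Finset.mem_range, not_lt] at hx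
      rw [pow_eq_zero_of_le hx hN, smul_zero]
  rw [h2, h3]

lemma sum_mulVec' {s : Finset ℕ} {F : ℕ → Matrix ι ι ℤ} (y : ι → ℤ) :
    (∑ j ∈ s, F j) *ᵥ y = ∑ j ∈ s, F j *ᵥ y := by
  classical
  induction s using Finset.induction_on with
  | empty => simp
  | insert a s ha ih => rw [Finset.sum_insert ha, Finset.sum_insert ha, add_mulVec, ih]

lemma expand {N : Matrix ι ι ℤ} {g : SpecialLinearGroup ι ℤ} (hgN : mt g = 1 + N) {n : ℕ}
    (hN : N ^ (n + 1) = 0) (φ w : ι → ℤ) (k : SpecialLinearGroup ι ℤ) (K : ℕ) :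
    φ ⬝ᵥ av k (av (g ^ K) w) =
      ∑ j ∈ Finset.range (n + 1), (K.choose j : ℤ) * (φ ⬝ᵥ av k (N ^ j *ᵥ w)) := by
  rw [← cv_dot]
  unfold av
  rw [mt_pow, hgN, pow_expand hN, sum_mulVec', dotProduct_sum]
  refine Finset.sum_congr rfl fun j _ => ?_
  rw [smul_mulVec, dotProduct_smul, smul_eq_mul]
  congr 1
  exact cv_dot _ _ _

lemma cgr_pow {N : Matrix ι ι ℤ} {g : SpecialLinearGroup ι ℤ} (hgN : mt g = 1 + N) {n : ℕ}
    (hN : N ^ (n + 1) = 0) (m : ℕ) : Cgr (m : ℤ) ((g ^ n.factorial) ^ m) := by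
  intro i j
  have h1 : mt ((g ^ n.factorial) ^ m) - 1 =
      ∑ j ∈ Finset.range n, ((n.factorial * m).choose (j + 1) : ℤ) • N ^ (j + 1) := by
    rw [← pow_mul, mt_pow, hgN, pow_expand hN, Finset.sum_range_succ']
    simp
  have h2 : mt ((g ^ n.factorial) ^ m) i j - (1 : Matrix ι ι ℤ) i j =
      (mt ((g ^ n.factorial) ^ m) - 1) i j := rfl
  rw [h2, h1, Matrix.sum_apply]
  refine Finset.dvd_sum fun t ht => ?_
  rw [Matrix.smul_apply, smul_eq_mul]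
  apply Dvd.dvd.mul_right
  obtain ⟨Q, _, hQ, _⟩ := binpoly n.factorial (t + 1)
    (Nat.factorial_dvd_factorial (by rw [Finset.mem_range] at ht; omega))
  have h3 := sub_dvd_eval_sub (m : ℤ) 0 Q
  have h4 := hQ 0
  rw [mul_zero, Nat.choose_zero_succ, Nat.cast_zero] at h4
  rw [hQ, h4, sub_zero, sub_zero] at h3
  exact h3

variable [Big ι]

/-- An element of `H` which moves `v` inside the axis gives finite index. -/
theorem fin_par {v φ : ι → ℤ} (hH : Zd H) (hv : v ≠ 0) (hφ : φ ≠ 0) (hz : Tr H v φ)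
    {x : SpecialLinearGroup ι ℤ} (hx : x ∈ H) (h1 : φ ⬝ᵥ av x v = 0) {a b : ι}
    (h2 : v a * av x v b - v b * av x v a ≠ 0) : Fi H := by
  have hT := hz.conj hx
  by_cases h3 : cv x⁻¹ φ ⬝ᵥ v = 0
  · obtain ⟨ψ, hψ⟩ : ∃ ψ, ψ = cv x⁻¹ φ := ⟨_, rfl⟩
    rw [← hψ] at hT h3
    have hψ0 : ψ ≠ 0 := by
      rintro rfl
      apply hφ
      have := congrArg (cv x) hψ
      rw [← cv_mul, inv_mul_cancel, cv_one] at this
      rw [← this]
      unfold cv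
      exact zero_vecMul _
    refine main (X := vecMulVec (av x v) ψ) (β := 0) hH hv hφ hz ?_ ?_ ?_ ?_ ?_ ?_ ?_
    · rw [vv_mulVec, h3, zero_smul]
    · rw [vecMul_vecMulVec, h1, zero_smul]
    · rw [zero_vecMul]
    · rw [zero_dotProduct]
    · rw [vv_zero hT.1, vecMulVec_zero, smul_zero]
    · intro m r
      obtain ⟨_, A, hA, hA'⟩ := hT.smulv m
      obtain ⟨_, B, hB, hB'⟩ := hz.smulv r
      refine ⟨A * B, mul_mem hA hB, ?_⟩
      rw [mt_mul, hA', hB', smul_vecMulVec, smul_vecMulVec, Matrix.mul_add, mul_one,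
        Matrix.add_mul, one_mul, Matrix.smul_mul, Matrix.mul_smul, vv_zero h3, vecMulVec_zero,
        smul_zero, smul_zero, add_zero, smul_zero, add_zero]
    · intro a' b' hab
      obtain ⟨j, hj⟩ := Function.ne_iff.1 hψ0
      have hj' : ψ j ≠ 0 := hj
      have e1 := congrFun (congrFun hab a) j
      have e2 := congrFun (congrFun hab b) j
      rw [Matrix.smul_apply, Matrix.smul_apply, vecMulVec_apply, vecMulVec_apply, smul_eq_mul,
        smul_eq_mul] at e1 e2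
      have e3 : a' * (ψ j * (v a * av x v b - v b * av x v a)) = 0 := by
        linear_combination v a * e2 - v b * e1
      exact (mul_eq_zero.1 e3).resolve_right (mul_ne_zero hj' h2)
  · have hv' : av x v ≠ 0 := by
      intro h0
      rw [h0] at h2
      simp at h2
    exact asymm hH hv' hφ hT hz h1 h3


/-- `V a b y = v a * y b - v b * y a`. -/
def V (v : ι → ℤ) (a b : ι) (y : ι → ℤ) : ℤ := v a * y b - v b * y a

omit [Big ι] in
lemma V_add (v : ι → ℤ) (a b : ι) (y y' : ι → ℤ) : V v a b (y + y') = V v a b y + V v a b y' := by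
  simp only [V, Pi.add_apply]; ring

omit [Big ι] in
lemma V_smul (v : ι → ℤ) (a b : ι) (c : ℤ) (y : ι → ℤ) : V v a b (c • y) = c * V v a b y := by
  simp only [V, Pi.smul_apply, smul_eq_mul]; ring

omit [Big ι] in
lemma V_self (v : ι → ℤ) (a b : ι) : V v a b v = 0 := by
  simp only [V]; ring

omit [Big ι] in
lemma V_mulVec {v : ι → ℤ} {M : Matrix ι ι ℤ} (hM : ∀ a b i, v a * M b i - v b * M a i = 0)
    (a b : ι) (y : ι → ℤ) : V v a b (M *ᵥ y) = 0 := by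
  unfold V mulVec dotProduct
  rw [Finset.mul_sum, Finset.mul_sum, ← Finset.sum_sub_distrib]
  refine Finset.sum_eq_zero fun i _ => ?_
  linear_combination y i * hM a b i

/-- The growth of `V (N ^ (e + 1) g ^ K y)`. -/
lemma V_grow {v : ι → ℤ} {N : Matrix ι ι ℤ} {g : SpecialLinearGroup ι ℤ} (hgN : mt g = 1 + N)
    {e : ℕ} (he : ∀ a b i, v a * (N ^ (e + 3)) b i - v b * (N ^ (e + 3)) a i = 0)
    (a b : ι) (y : ι → ℤ) (K : ℕ) :
    V v a b (N ^ (e + 1) *ᵥ av (g ^ K) y) =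
      V v a b (N ^ (e + 1) *ᵥ y) + K * V v a b (N ^ (e + 2) *ᵥ y) ∧
    V v a b (N ^ (e + 2) *ᵥ av (g ^ K) y) = V v a b (N ^ (e + 2) *ᵥ y) := by
  induction K with
  | zero =>
    rw [pow_zero, av_one]
    refine ⟨by push_cast; ring, rfl⟩
  | succ K ih =>
    obtain ⟨h1, h2⟩ := ih
    have e1 : av (g ^ (K + 1)) y = av (g ^ K) y + N *ᵥ av (g ^ K) y := by
      rw [pow_succ', av_mul]
      conv_lhs => unfold av
      rw [hgN, add_mulVec, one_mulVec]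
      rfl
    rw [e1, mulVec_add, mulVec_add, V_add, V_add, mulVec_mulVec, mulVec_mulVec, ← pow_succ,
      ← pow_succ, h1, h2, V_mulVec he]
    refine ⟨by push_cast; ring, by ring⟩

/-- **The general theorem.** -/
theorem gen {v φ : ι → ℤ} {N : Matrix ι ι ℤ} {g : SpecialLinearGroup ι ℤ} (hH : Zd H) (hv : v ≠ 0)
    (hφ : φ ≠ 0) (hz : Tr H v φ) (hg : g ∈ H) (hgN : mt g = 1 + N) {n : ℕ}
    (hN : N ^ (n + 1) = 0) (hNv : N *ᵥ v = 0) (hφN : φ ᵥ* N = 0) {e : ℕ}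
    (he : ∀ j, e + 2 < j → ∀ a b i, v a * (N ^ j) b i - v b * (N ^ j) a i = 0)
    {a b i : ι} (habi : v a * (N ^ (e + 2)) b i - v b * (N ^ (e + 2)) a i ≠ 0) : Fi H := by
  have hφv := hz.1
  -- the element `l`
  obtain ⟨X, hX⟩ : ∃ X, X = N ^ (e + 2) := ⟨_, rfl⟩
  rw [← hX] at habi
  obtain ⟨ξ, hξ⟩ : ∃ ξ : ι → ℤ, ξ = v a • X b - v b • X a := ⟨_, rfl⟩
  have hξ0 : ξ ≠ 0 := by
    intro h0
    apply habi
    have := congrFun h0 i
    rw [hξ] at this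
    simpa using this
  obtain ⟨g1, hg1⟩ := ex_one hφ hv
  obtain ⟨g2, hg2⟩ := ex_one' hφ hv
  obtain ⟨g3, hg3⟩ := ex_one hξ0 hv
  obtain ⟨c1, hc1⟩ := PF.generic (PF.dot φ v) (PF.doti φ v) hg1 hg2
  obtain ⟨c2, hc2⟩ := PF.generic ((PF.dot φ v).mul (PF.doti φ v)) (PF.dot ξ v) hc1 hg3
  obtain ⟨l, hl, hlne⟩ := PF.transfer (((PF.dot φ v).mul (PF.doti φ v)).mul (PF.dot ξ v)) hH hc2
  have hl3 : ξ ⬝ᵥ av l v ≠ 0 := right_ne_zero_of_mul hlne
  obtain ⟨B, hBe⟩ : ∃ B, B = φ ⬝ᵥ av l v := ⟨_, rfl⟩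
  obtain ⟨A₀, hA₀⟩ : ∃ A₀, A₀ = φ ⬝ᵥ av l⁻¹ v := ⟨_, rfl⟩
  have hB0 : B ≠ 0 := by rw [hBe]; exact left_ne_zero_of_mul (left_ne_zero_of_mul hlne)
  have hA₀0 : A₀ ≠ 0 := by rw [hA₀]; exact right_ne_zero_of_mul (left_ne_zero_of_mul hlne)
  obtain ⟨x, hx⟩ : ∃ x, x = X *ᵥ av l v := ⟨_, rfl⟩
  have hvx : v a * x b - v b * x a ≠ 0 := by
    have e1 : x b = X b ⬝ᵥ av l v := by rw [hx]; rfl
    have e2 : x a = X a ⬝ᵥ av l v := by rw [hx]; rfl
    rw [hξ, sub_dotProduct, smul_dotProduct, smul_dotProduct, smul_eq_mul, smul_eq_mul,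
      ← e1, ← e2] at hl3
    exact hl3
  obtain ⟨μ, hμ⟩ : ∃ μ, μ = v a * x b - v b * x a := ⟨_, rfl⟩
  rw [← hμ] at hvx
  -- the family of transvections
  obtain ⟨κ, hκ, as, αs, Q, hQ, hTr, hαv, hfam⟩ := family hH hv hφ hz
  obtain ⟨w, hw⟩ : ∃ w : κ → ι → ℤ, w = fun s => (αs s ⬝ᵥ x) • v - (αs s ⬝ᵥ v) • x := ⟨_, rfl⟩
  have hw0 : ∀ s, w s ≠ 0 := by
    intro s h0
    apply mul_ne_zero (hαv s) hvx
    rw [hw] at h0
    have e1 := congrFun h0 a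
    have e2 := congrFun h0 b
    simp only [Pi.sub_apply, Pi.smul_apply, smul_eq_mul, Pi.zero_apply] at e1 e2
    rw [hμ]
    linear_combination v b * e1 - v a * e2
  -- the generic element
  have p4 : PF (fun k : SpecialLinearGroup ι ℤ => ∏ s, φ ⬝ᵥ av k (w s)) :=
    PF.prod _ fun s _ => PF.dot φ (w s)
  obtain ⟨g4, hg4⟩ := PF.generic_prod (Finset.univ : Finset κ)
    (F := fun s k => φ ⬝ᵥ av k (w s)) (fun s _ => PF.dot φ (w s))
    (fun s _ => ex_one hφ (hw0 s))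
  obtain ⟨g₂, hg₂⟩ := PF.generic (PF.dot φ v) p4 hg1 hg4
  obtain ⟨F, hF⟩ : ∃ F : SpecialLinearGroup ι ℤ → ℤ, F = fun k =>
    (φ ⬝ᵥ av k v) * ∏ s, φ ⬝ᵥ av k (w s) := ⟨_, rfl⟩
  have hFp : PF F := by
    rw [hF]
    exact (PF.dot φ v).mul p4
  have hFg : F g₂ ≠ 0 := by rw [hF]; exact hg₂
  -- the levels
  obtain ⟨b', hb'⟩ := Function.ne_iff.1 hv
  have hvb : v b' ≠ 0 := hb'
  obtain ⟨T, hT⟩ : ∃ T : ℤ, T = B * A₀ * Q * (n.factorial : ℤ) ^ (e + 2) *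
    ((2 * n + 2).factorial : ℤ) * v b' := ⟨_, rfl⟩
  have hT0 : T ≠ 0 := by
    rw [hT]
    have h1 : ((n.factorial : ℤ)) ≠ 0 := by exact_mod_cast n.factorial_ne_zero
    have h2 : (((2 * n + 2).factorial : ℤ)) ≠ 0 := by exact_mod_cast (2 * n + 2).factorial_ne_zero
    exact mul_ne_zero (mul_ne_zero (mul_ne_zero (mul_ne_zero (mul_ne_zero hB0 hA₀0) hQ)
      (pow_ne_zero _ h1)) h2) hvb
  have hTB : B ∣ T := ⟨A₀ * Q * (n.factorial : ℤ) ^ (e + 2) * ((2 * n + 2).factorial : ℤ) * v b', by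
    rw [hT]; ring⟩
  have hTA : A₀ ∣ T := ⟨B * Q * (n.factorial : ℤ) ^ (e + 2) * ((2 * n + 2).factorial : ℤ) * v b', by
    rw [hT]; ring⟩
  have hTQ : Q ∣ T := ⟨B * A₀ * (n.factorial : ℤ) ^ (e + 2) * ((2 * n + 2).factorial : ℤ) * v b', by
    rw [hT]; ring⟩
  have hTn : (n.factorial : ℤ) ^ (e + 2) ∣ T := ⟨B * A₀ * Q * ((2 * n + 2).factorial : ℤ) * v b', by
    rw [hT]; ring⟩
  have hTn2 : ((2 * n + 2).factorial : ℤ) ∣ T := ⟨B * A₀ * Q * (n.factorial : ℤ) ^ (e + 2) * v b', by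
    rw [hT]; ring⟩
  have hTv : v b' ∣ T := ⟨B * A₀ * Q * (n.factorial : ℤ) ^ (e + 2) * ((2 * n + 2).factorial : ℤ), by
    rw [hT]; ring⟩
  obtain ⟨N₁, hN₁⟩ : ∃ N₁, N₁ = A₀ * T := ⟨_, rfl⟩
  have hN₁0 : N₁ ≠ 0 := by
    rw [hN₁]
    exact mul_ne_zero hA₀0 hT0
  obtain ⟨w', hw'H, hw'N, hw'F⟩ := hH.congr (hFp.lmul l⁻¹) (g := l * g₂)
    (by rwa [inv_mul_cancel_left]) hN₁0
  obtain ⟨k₀, hk₀e⟩ : ∃ k₀, k₀ = l⁻¹ * w' := ⟨_, rfl⟩
  have hk₀ : k₀ ∈ H := by rw [hk₀e]; exact mul_mem (inv_mem hl) hw'H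
  have hk₀F : F k₀ ≠ 0 := by rw [hk₀e]; exact hw'F
  have hk₀N : Cgr N₁ (l⁻¹⁻¹ * k₀) := by
    rw [hk₀e, inv_inv, mul_inv_cancel_left]
    exact hw'N
  obtain ⟨q, hq1, hq2⟩ := Nat.exists_infinite_primes ((F k₀ * N₁).natAbs + 1)
  have hqp : Prime (q : ℤ) := Nat.prime_iff_prime_int.1 hq2
  have hqd : ¬ (q : ℤ) ∣ F k₀ * N₁ := by
    intro h0
    have h1 : q ∣ (F k₀ * N₁).natAbs := Int.natCast_dvd.1 h0
    have h2 := Nat.le_of_dvd (Int.natAbs_pos.2 (mul_ne_zero hk₀F hN₁0)) h1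
    omega
  have hqF : ¬ (q : ℤ) ∣ F k₀ := fun h0 => hqd (h0.mul_right _)
  have hmono : ∀ {M M' : ℤ} {A : SpecialLinearGroup ι ℤ}, M ∣ M' → Cgr M' A → Cgr M A :=
    fun h h' i j => h.trans (h' i j)
  have htrans : ∀ {M : ℤ} {a b c : SpecialLinearGroup ι ℤ}, Cgr M (a⁻¹ * b) → Cgr M (b⁻¹ * c) →
      Cgr M (a⁻¹ * c) := by
    intro M a b c h1 h2
    have := h1.mul h2
    rwa [show a⁻¹ * b * (b⁻¹ * c) = a⁻¹ * c by group] at this
  have hFk : ∀ k, Cgr (N₁ * q) (k₀⁻¹ * k) → ¬ (q : ℤ) ∣ F k := by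
    intro k hk h0
    have h1 := hFp.congr (hmono (dvd_mul_left _ _) hk : Cgr (q : ℤ) (k₀⁻¹ * k))
    exact hqF ((dvd_sub_right h0).1 h1)
  have hnd : ∀ {y z : ℤ}, ¬ (q : ℤ) ∣ y → z ∣ y → ¬ (q : ℤ) ∣ z := fun h h' h'' => h (h''.trans h')
  have hdef : ∀ s, ∀ k, Cgr (N₁ * q) (k₀⁻¹ * k) → (αs s ⬝ᵥ x) * (φ ⬝ᵥ av k v) -
      (αs s ⬝ᵥ v) * (φ ⬝ᵥ av k x) ≠ 0 := by
    intro s k hk h0
    have h1 : φ ⬝ᵥ av k (w s) = 0 := by
      rw [hw, ← h0]
      simp only [av_sub, av_smul, dotProduct_sub, dotProduct_smul, smul_eq_mul]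
    apply hFk k hk
    have h2 : F k = 0 := by
      rw [hF]
      exact mul_eq_zero_of_right _ (Finset.prod_eq_zero (Finset.mem_univ s) h1)
    rw [h2]
    exact dvd_zero _
  have hhelp : ∀ p : ℕ, p.Prime → ¬ (p : ℤ) ∣ N₁ * q → ∀ k : SpecialLinearGroup ι ℤ,
      ∃ s, ¬ (p : ℤ) ∣ (αs s ⬝ᵥ v) * (φ ⬝ᵥ av k (as s)) := by
    intro p hp hpN k
    apply hfam p hp _ k
    intro h0
    apply hpN
    rw [hN₁]
    exact ((h0.trans hTQ).mul_left _).mul_right _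
  have hself : Cgr (N₁ * q) (k₀⁻¹ * k₀) := by
    rw [inv_mul_cancel]
    intro i j
    rw [mt_one, sub_self]
    exact dvd_zero _
  have hk₀A : φ ⬝ᵥ av k₀ v ≠ 0 := by
    intro h0
    apply hFk k₀ hself
    have h2 : F k₀ = 0 := by
      rw [hF]
      show (φ ⬝ᵥ av k₀ v) * _ = 0
      rw [h0, zero_mul]
    rw [h2]
    exact dvd_zero _
  obtain ⟨k, hk, hkN, hkp⟩ := cop as αs hTr hhelp k₀ hdef
    (φ ⬝ᵥ av k₀ v).natAbs.primeFactors k₀ hk₀ hself (by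
      intro p hp _ h1 _
      exact Nat.mem_primeFactors.2 ⟨hp, Int.natCast_dvd.1 h1, Int.natAbs_ne_zero.2 hk₀A⟩)
  -- the numbers
  have hFk' := hFk k hkN
  obtain ⟨A, hA⟩ : ∃ A, A = φ ⬝ᵥ av k v := ⟨_, rfl⟩
  obtain ⟨C₀, hC⟩ : ∃ C₀, C₀ = φ ⬝ᵥ av k x := ⟨_, rfl⟩
  obtain ⟨R, hR⟩ : ∃ R, R = φ ⬝ᵥ av k (av l v) := ⟨_, rfl⟩
  have hFe : F k = A * ∏ s, φ ⬝ᵥ av k (w s) := by
    rw [hF, hA]
  have hqA : ¬ (q : ℤ) ∣ A := hnd hFk' (by rw [hFe]; exact dvd_mul_right _ _)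
  have hA0 : A ≠ 0 := by
    rintro h0
    apply hqA
    rw [h0]
    exact dvd_zero _
  have hkN₁ : Cgr N₁ (l⁻¹⁻¹ * k) := htrans hk₀N (hmono (dvd_mul_right _ _) hkN)
  have hN₁R : N₁ ∣ R := by
    have h1 := (PF.dot φ (av l v)).congr hkN₁
    rw [av_inv_av, hφv, sub_zero] at h1
    rw [hR]
    exact h1
  have hN₁A : N₁ ∣ A - A₀ := by
    have h1 := (PF.dot φ v).congr hkN₁
    rw [hA, hA₀]
    exact h1
  obtain ⟨y, hy⟩ := hN₁A
  obtain ⟨A₁, hA₁⟩ : ∃ A₁, A₁ = 1 + T * y := ⟨_, rfl⟩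
  have hAA : A = A₁ * A₀ := by
    rw [hN₁] at hy
    rw [hA₁]
    linear_combination hy
  have hA₁0 : A₁ ≠ 0 := by
    rintro h0
    rw [h0, zero_mul] at hAA
    exact hA0 hAA
  -- coprimality
  have hcopT : IsCoprime T A₁ := by
    rw [hA₁]
    exact ⟨-y, 1, by ring⟩
  have hcd : ∀ {z : ℤ}, z ∣ T → IsCoprime z A₁ := fun h => hcopT.of_isCoprime_of_dvd_left h
  have hcop2 : IsCoprime C₀ A₁ := by
    rw [Int.isCoprime_iff_gcd_eq_one]
    by_contra hne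
    obtain ⟨p, hp, hpd⟩ := Nat.exists_prime_and_dvd hne
    have hpp : Prime (p : ℤ) := Nat.prime_iff_prime_int.1 hp
    have h3 : (p : ℤ) ∣ C₀ := (Int.natCast_dvd_natCast.2 hpd).trans (Int.gcd_dvd_left _ _)
    have h2 : (p : ℤ) ∣ A₁ :=
      (Int.natCast_dvd_natCast.2 hpd).trans (Int.gcd_dvd_right _ _)
    have h4 : (p : ℤ) ∣ A := by rw [hAA]; exact h2.mul_right _
    have h5 : (p : ℤ) ∣ N₁ * q := by
      by_contra h6
      apply hkp p hp h6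
      rw [← hA, ← hC]
      exact ⟨h4, h3⟩
    rcases hpp.dvd_mul.1 h5 with h6 | h6
    · have h7 : (p : ℤ) ∣ T := by
        rw [hN₁] at h6
        rcases hpp.dvd_mul.1 h6 with h8 | h8
        · exact h8.trans hTA
        · exact h8
      rw [hA₁] at h2
      have h8 : (p : ℤ) ∣ 1 := (dvd_add_left (h7.mul_right y)).1 h2
      exact hpp.not_isUnit (isUnit_of_dvd_one h8)
    · have h7 : p = q := (Nat.prime_dvd_prime_iff_eq hp hq2).1 (Int.natCast_dvd_natCast.1 h6)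
      rw [h7] at h4
      exact hqA h4
  -- the powers
  have hen : e + 2 ≤ n := by
    by_contra hcon
    apply habi
    rw [hX, pow_eq_zero_of_le (by omega) hN]
    simp
  obtain ⟨G₁, hG₁⟩ : ∃ G₁, G₁ = g ^ n.factorial := ⟨_, rfl⟩
  have hG₁H : G₁ ∈ H := by rw [hG₁]; exact H.pow_mem hg _
  have hgv : av g v = v := by
    unfold av
    rw [hgN, add_mulVec, one_mulVec, hNv, add_zero]
  have hφg : cv g φ = φ := by
    unfold cv
    rw [hgN, vecMul_add, vecMul_one, hφN, add_zero]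
  have hG₁v : av G₁ v = v := by rw [hG₁]; exact av_pow_fix hgv _
  have hφG₁ : cv G₁ φ = φ := by rw [hG₁]; exact cv_pow_fix hφg _
  have hG₁c : ∀ m : ℕ, Cgr (m : ℤ) (G₁ ^ m) := by
    intro m
    rw [hG₁]
    exact cgr_pow hgN hN m
  have hG₁p : ∀ m : ℕ, G₁ ^ m = g ^ (n.factorial * m) := by
    intro m
    rw [hG₁, pow_mul]
  obtain ⟨P, hPd, hPe, hPc⟩ := poly n fun j => φ ⬝ᵥ av k (N ^ j *ᵥ av l v)
  have hP : ∀ m : ℕ, P.eval (m : ℤ) = φ ⬝ᵥ av k (av (G₁ ^ m) (av l v)) := by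
    intro m
    rw [hPe, hG₁p, expand hgN hN]
  obtain ⟨ρ, hρ, hρ'⟩ := hPc (e + 2) hen A₁ (by
    intro j hj
    have h1 : v b' • (N ^ j *ᵥ av l v) = ((N ^ j *ᵥ av l v) b') • v := by
      ext i
      have h2 := V_mulVec (he j hj) b' i (av l v)
      unfold V at h2
      rw [Pi.smul_apply, Pi.smul_apply, smul_eq_mul, smul_eq_mul]
      linear_combination h2
    have h2 : A₁ ∣ v b' * (φ ⬝ᵥ av k (N ^ j *ᵥ av l v)) := by
      rw [← smul_eq_mul, ← dotProduct_smul, ← av_smul, h1, av_smul, dotProduct_smul, smul_eq_mul,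
        ← hA, hAA]
      exact (dvd_mul_right _ _).mul_left _
    exact (hcd hTv).symm.dvd_of_dvd_mul_left h2)
  have hP0 : ∀ q : ℕ, q.Prime → (q : ℤ) ∣ A₁ → 2 * n < q ∧ ¬ (q : ℤ) ∣ P.coeff (e + 2) := by
    intro q hq hqA₁
    have hqq : Prime (q : ℤ) := Nat.prime_iff_prime_int.1 hq
    have hno : ∀ {z : ℤ}, IsCoprime z A₁ → ¬ (q : ℤ) ∣ z := by
      intro z hz h0
      exact hqq.not_isUnit (hz.isUnit_of_dvd' h0 hqA₁)
    refine ⟨?_, fun h0 => ?_⟩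
    · by_contra hcon
      apply hno (hcd hTn2)
      exact_mod_cast (hq.dvd_factorial.2 (by omega) : q ∣ (2 * n + 2).factorial)
    · have h1 : (q : ℤ) ∣ ρ * (φ ⬝ᵥ av k (N ^ (e + 2) *ᵥ av l v)) := by
        have h2 := hqA₁.trans hρ'
        exact (dvd_sub_right h0).1 h2
      rcases hqq.dvd_mul.1 h1 with h2 | h2
      · exact hno (hcd (hρ.trans hTn)) h2
      · rw [← hX, ← hx, ← hC] at h2
        exact hno hcop2 h2
  have hmapc : ∀ (f : ℤ[X]) (q : ℕ) (j : ℕ), ¬ (q : ℤ) ∣ f.coeff j →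
      (f.map (Int.castRingHom (ZMod q))).coeff j ≠ 0 := by
    intro f q j h0 h1
    rw [coeff_map] at h1
    exact h0 ((ZMod.intCast_zmod_eq_zero_iff_dvd _ _).1 h1)
  obtain ⟨m₂, hm₂⟩ := avoid P n hPd A₁ hA₁0 (by
    intro q hq hqA₁
    obtain ⟨h1, h2⟩ := hP0 q hq hqA₁
    refine ⟨by omega, fun h0 => ?_⟩
    apply hmapc P q _ h2
    rw [h0, coeff_zero])
  obtain ⟨t, ht⟩ : ∃ t, t = P.derivative.eval (m₂ : ℤ) := ⟨_, rfl⟩
  obtain ⟨m₁, hm₁⟩ := avoid (P.derivative * (C t - P.derivative)) (2 * n) (by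
      have h1 : P.derivative.natDegree ≤ n := (natDegree_derivative_le P).trans (by omega)
      have h2 : (C t - P.derivative).natDegree ≤ n :=
        (natDegree_sub_le _ _).trans (max_le (by rw [natDegree_C]; omega) h1)
      exact natDegree_mul_le.trans (by omega)) A₁ hA₁0 (by
    intro q hq hqA₁
    obtain ⟨h1, h2⟩ := hP0 q hq hqA₁
    refine ⟨h1, ?_⟩
    have : Fact q.Prime := ⟨hq⟩
    have hqq : Prime (q : ℤ) := Nat.prime_iff_prime_int.1 hq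
    have h3 : ¬ (q : ℤ) ∣ P.derivative.coeff (e + 1) := by
      rw [coeff_derivative]
      intro h0
      rcases hqq.dvd_mul.1 h0 with h4 | h4
      · exact h2 h4
      · have h5 : (q : ℤ) ∣ ((e + 2 : ℕ) : ℤ) := by
          push_cast at h4 ⊢
          have : ((e : ℤ) + 2) = e + 1 + 1 := by ring
          rw [this]
          exact h4
        have h6 := Nat.le_of_dvd (by omega) (Int.natCast_dvd_natCast.1 h5)
        omega
    have h4 : ¬ (q : ℤ) ∣ (C t - P.derivative).coeff (e + 1) := by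
      rw [coeff_sub, coeff_C_succ, zero_sub, dvd_neg]
      exact h3
    rw [Polynomial.map_mul]
    refine mul_ne_zero (fun h0 => ?_) (fun h0 => ?_)
    · apply hmapc _ q _ h3
      rw [h0, coeff_zero]
    · apply hmapc _ q _ h4
      rw [h0, coeff_zero])
  rw [eval_mul, eval_sub, eval_C, ht] at hm₁
  -- the auxiliary prime
  obtain ⟨q₀, hq₀1, hq₀2⟩ := Nat.exists_infinite_primes ((A₁ * μ).natAbs + 1)
  have hq₀p : Prime (q₀ : ℤ) := Nat.prime_iff_prime_int.1 hq₀2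
  have hq₀d : ¬ (q₀ : ℤ) ∣ A₁ * μ := by
    intro h0
    have h1 : q₀ ∣ (A₁ * μ).natAbs := Int.natCast_dvd.1 h0
    have h2 := Nat.le_of_dvd (Int.natAbs_pos.2 (mul_ne_zero hA₁0 hvx)) h1
    omega
  obtain ⟨Q', hQ'⟩ : ∃ Q', Q' = A₀ * B * q₀ := ⟨_, rfl⟩
  have hQ'c : IsCoprime Q' A₁ := by
    rw [hQ']
    refine ((hcd hTA).mul_left (hcd hTB)).mul_left ?_
    rw [hq₀p.coprime_iff_not_dvd]
    exact fun h0 => hq₀d (h0.mul_right _)
  have hQ'u : ¬ IsUnit Q' := by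
    intro h0
    rw [hQ'] at h0
    exact hq₀p.not_isUnit (isUnit_of_mul_isUnit_right h0)
  obtain ⟨l', hl', G, m₃, hG1, hG2, hG3, hG4⟩ := trick hz hG₁H hl hG₁v hφG₁ hG₁c hP
    (by rw [← hA, hAA]) hBe.symm hA₀.symm hA₁0 (hcd hTA) (hcd hTB) (hcd hTA) hQ'c
    hm₁.of_mul_left_left hm₂ hm₁.of_mul_left_right hQ'u
  have hG0 : G ≠ 0 := by
    rintro rfl
    apply hQ'u
    rw [zero_sub, dvd_neg] at hG1
    exact isUnit_of_dvd_one hG1
  obtain ⟨t', ht'⟩ := hG1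
  -- the second polynomial
  obtain ⟨P₂, _, hP₂e, _⟩ := poly n fun j => φ ⬝ᵥ av k (N ^ j *ᵥ av l' v)
  have hP₂ : ∀ m : ℕ, P₂.eval (m : ℤ) = φ ⬝ᵥ av k (av (G₁ ^ m) (av l' v)) := by
    intro m
    rw [hP₂e, hG₁p, expand hgN hN]
  have hcG : IsCoprime (A₁ * G) (A₀ * B) := by
    refine IsCoprime.mul_left ((hcd hTA).symm.mul_right (hcd hTB).symm) ⟨1, -(q₀ * t'), ?_⟩
    rw [hQ'] at ht'
    linear_combination ht'
  obtain ⟨m₄, hm₄1, hm₄2⟩ := crt_nat hcG (mul_ne_zero hA₁0 hG0) (mul_ne_zero hA₀0 hB0) (m₃ : ℤ) 0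
  rw [sub_zero] at hm₄2
  obtain ⟨Mt, hMt⟩ : ∃ Mt, Mt = A₁ * G * (A₀ * B) := ⟨_, rfl⟩
  have hMt0 : Mt ≠ 0 := by
    rw [hMt]
    exact mul_ne_zero (mul_ne_zero hA₁0 hG0) (mul_ne_zero hA₀0 hB0)
  have hMt4 : Mt ∣ P₂.eval (m₄ : ℤ) := by
    rw [hMt]
    apply hcG.mul_dvd
    · have h1 := hm₄1.trans (sub_dvd_eval_sub (m₄ : ℤ) (m₃ : ℤ) P₂)
      rw [hP₂ m₃] at h1
      exact (dvd_sub_left hG4).1 h1
    · have h0 : (m₄ : ℤ) ∣ P₂.eval (m₄ : ℤ) - P₂.eval 0 := by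
        have := sub_dvd_eval_sub (m₄ : ℤ) 0 P₂
        rwa [sub_zero] at this
      have h1 := hm₄2.trans h0
      have h2 : P₂.eval 0 = φ ⬝ᵥ av k (av l' v) := by
        have := hP₂ 0
        rwa [Nat.cast_zero, pow_zero, av_one] at this
      have h3 : A₀ * B ∣ φ ⬝ᵥ av k (av l' v) - R := by
        rw [hR, ← dotProduct_sub, ← av_sub, ← cv_dot]
        refine Finset.dvd_sum fun i _ => Dvd.dvd.mul_left ?_ _
        refine Dvd.dvd.trans ?_ (hG3 i)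
        rw [hQ']
        exact dvd_mul_right _ _
      have h4 : A₀ * B ∣ R := by
        refine Dvd.dvd.trans ?_ hN₁R
        rw [hN₁]
        exact mul_dvd_mul_left _ hTB
      have h5 : A₀ * B ∣ P₂.eval 0 := by
        rw [h2]
        exact (dvd_sub_left h4).1 h3
      exact (dvd_sub_left h5).1 h1
  obtain ⟨m₅, hm₅⟩ : ∃ m₅, m₅ = m₄ + Mt.natAbs := ⟨_, rfl⟩
  have hMt5 : Mt ∣ P₂.eval (m₅ : ℤ) := by
    have h1 : Mt ∣ (m₅ : ℤ) - m₄ := by
      rw [hm₅]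
      push_cast
      rw [add_sub_cancel_left]
      exact (dvd_abs _ _).2 dvd_rfl
    exact (dvd_sub_left hMt4).1 (h1.trans (sub_dvd_eval_sub (m₅ : ℤ) (m₄ : ℤ) P₂))
  have hfinal : ∀ m : ℕ, Mt ∣ P₂.eval (m : ℤ) → ∃ x ∈ H, ∃ γ : ℤ, φ ⬝ᵥ av x v = 0 ∧
      av x v = av k (av (G₁ ^ m) (av l' v) + γ • v) := by
    rintro m ⟨d, hd⟩
    obtain ⟨_, zb, hzb, hzb'⟩ := hz.smulv (-d)
    have h1 : av (k * (G₁ ^ m * zb) * l') v =
        av k (av (G₁ ^ m) (av l' v) + (B * G * -d) • v) := by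
      rw [av_mul, av_mul, av_mul, av_of hzb', av_add, hG2, smul_smul, av_smul, av_pow_fix hG₁v]
    refine ⟨k * (G₁ ^ m * zb) * l', mul_mem (mul_mem hk (mul_mem (H.pow_mem hG₁H _) hzb)) hl',
      B * G * -d, ?_, h1⟩
    rw [h1, av_add, dotProduct_add, ← hP₂, hd, av_smul, dotProduct_smul, ← hA, hAA, hMt,
      smul_eq_mul]
    ring
  by_contra hnF
  obtain ⟨x₄, hx₄, γ₄, h41, h42⟩ := hfinal m₄ hMt4
  obtain ⟨x₅, hx₅, γ₅, h51, h52⟩ := hfinal m₅ hMt5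
  have hpar : ∀ {x : SpecialLinearGroup ι ℤ}, x ∈ H → φ ⬝ᵥ av x v = 0 → ∀ a b,
      v a * av x v b - v b * av x v a = 0 := by
    intro x hx h1 a b
    by_contra h2
    exact hnF (fin_par hH hv hφ hz hx h1 h2)
  have hyy : ∀ {x : SpecialLinearGroup ι ℤ} {y : ι → ℤ}, x ∈ H → φ ⬝ᵥ av x v = 0 →
      av x v = av k y → v b' • y = (av k y b') • av k⁻¹ v := by
    intro x y hx h1 h2
    have h3 : v b' • av k y = (av k y b') • v := by
      ext i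
      have h4 := hpar hx h1 b' i
      rw [h2] at h4
      rw [Pi.smul_apply, Pi.smul_apply, smul_eq_mul, smul_eq_mul]
      linear_combination h4
    have h4 := congrArg (av k⁻¹) h3
    rwa [av_smul, av_smul, av_inv_av] at h4
  have e4 := hyy hx₄ h41 h42
  have e5 := hyy hx₅ h51 h52
  obtain ⟨y₄, hy₄⟩ : ∃ y₄, y₄ = av (G₁ ^ m₄) (av l' v) + γ₄ • v := ⟨_, rfl⟩
  obtain ⟨y₅, hy₅⟩ : ∃ y₅, y₅ = av (G₁ ^ m₅) (av l' v) + γ₅ • v := ⟨_, rfl⟩
  rw [← hy₄] at e4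
  rw [← hy₅] at e5
  have f4 : φ ⬝ᵥ y₄ = B * G := by
    rw [hy₄, dotProduct_add, dot_pow_fix hφG₁, hG2, dotProduct_smul, hφv, smul_zero, add_zero]
  have f5 : φ ⬝ᵥ y₅ = B * G := by
    rw [hy₅, dotProduct_add, dot_pow_fix hφG₁, hG2, dotProduct_smul, hφv, smul_zero, add_zero]
  have g4 := congrArg (fun z => φ ⬝ᵥ z) e4
  have g5 := congrArg (fun z => φ ⬝ᵥ z) e5
  simp only [dotProduct_smul, smul_eq_mul, f4, f5] at g4 g5
  have hφk : φ ⬝ᵥ av k⁻¹ v ≠ 0 := by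
    intro h0
    rw [h0, mul_zero] at g4
    exact mul_ne_zero hvb (mul_ne_zero hB0 hG0) g4
  have hβ : av k y₄ b' = av k y₅ b' := mul_right_cancel₀ hφk (g4.symm.trans g5)
  have hy45 : y₄ = y₅ := by
    rw [hβ, ← e5] at e4
    ext i
    have := congrFun e4 i
    rw [Pi.smul_apply, Pi.smul_apply, smul_eq_mul, smul_eq_mul] at this
    exact mul_left_cancel₀ hvb this
  have hL : ∀ (m : ℕ) (γ : ℤ), V v a b (N ^ (e + 1) *ᵥ (av (G₁ ^ m) (av l' v) + γ • v)) =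
      V v a b (N ^ (e + 1) *ᵥ av l' v) + (n.factorial * m : ℕ) *
        V v a b (N ^ (e + 2) *ᵥ av l' v) := by
    intro m γ
    rw [mulVec_add, V_add, mulVec_smul, V_smul, pow_succ N e, ← mulVec_mulVec v, hNv,
      mulVec_zero, ← pow_succ N e, hG₁p,
      (V_grow hgN (he (e + 3) (by omega)) a b (av l' v) (n.factorial * m)).1]
    simp [V]
  have h6 := hL m₄ γ₄
  have h7 := hL m₅ γ₅
  rw [← hy₄, hy45] at h6
  rw [← hy₅, h6] at h7
  have h8 : V v a b (N ^ (e + 2) *ᵥ av l' v) = 0 := by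
    have h9 : (n.factorial : ℤ) * (Mt.natAbs : ℤ) * V v a b (N ^ (e + 2) *ᵥ av l' v) = 0 := by
      rw [hm₅] at h7
      push_cast at h7 ⊢
      linear_combination -h7
    have h10 : ((n.factorial : ℤ)) ≠ 0 := by exact_mod_cast n.factorial_ne_zero
    have h11 : ((Mt.natAbs : ℤ)) ≠ 0 := by exact_mod_cast Int.natAbs_ne_zero.2 hMt0
    exact (mul_eq_zero.1 h9).resolve_left (mul_ne_zero h10 h11)
  apply hq₀d
  apply Dvd.dvd.mul_left
  have h12 : (q₀ : ℤ) ∣ V v a b (N ^ (e + 2) *ᵥ av l' v) - V v a b (N ^ (e + 2) *ᵥ av l v) := by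
    have h13 : ∀ c, (q₀ : ℤ) ∣ (N ^ (e + 2) *ᵥ av l' v) c - (N ^ (e + 2) *ᵥ av l v) c := by
      intro c
      have e1 : (N ^ (e + 2) *ᵥ av l' v) c - (N ^ (e + 2) *ᵥ av l v) c =
          ∑ i, (N ^ (e + 2)) c i * (av l' v i - av l v i) := by
        unfold mulVec dotProduct
        rw [← Finset.sum_sub_distrib]
        refine Finset.sum_congr rfl fun i _ => ?_
        ring
      rw [e1]
      refine Finset.dvd_sum fun i _ => Dvd.dvd.mul_left ((?_ : (q₀ : ℤ) ∣ Q').trans (hG3 i)) _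
      rw [hQ']
      exact dvd_mul_left _ _
    unfold V
    have e2 : ∀ p p' r r' : ℤ, v a * p - v b * p' - (v a * r - v b * r') =
        v a * (p - r) - v b * (p' - r') := fun _ _ _ _ => by ring
    rw [e2]
    exact dvd_sub ((h13 b).mul_left _) ((h13 a).mul_left _)
  rw [h8, zero_sub, dvd_neg] at h12
  rw [hμ, hx, hX]
  exact h12

end Pool.Agent.Run7.h25.TV
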