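import Pool.Agent.Run7.h25.TV.Cop

/-!
# Dense subgroups with commuting unipotent elements
-/

set_option autoImplicit false
set_option linter.unusedSectionVars false

namespace Pool.Agent.Run7.h25.TV

open Matrix Pool.Agent.Helper460_CSP

variable {ι : Type} [DecidableEq ι] [Fintype ι] {H : Subgroup (SpecialLinearGroup ι ℤ)}

lemma vv_mulVec (v φ y : ι → ℤ) : vecMulVec v φ *ᵥ y = (φ ⬝ᵥ y) • v := by
  rw [vecMulVec_mulVec]
  ext i
  simp only [Pi.smul_apply, smul_eq_mul, MulOpposite.smul_eq_mul_unop, MulOpposite.unop_op]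
  ring

/-- The action of `1 + m X + m ^ 2 v ⊗ β + r v ⊗ φ`. -/
lemma av_U {A : SpecialLinearGroup ι ℤ} {X : Matrix ι ι ℤ} {v φ β : ι → ℤ} {m r : ℤ}
    (hA : mt A = 1 + m • X + (m * m) • vecMulVec v β + r • vecMulVec v φ) (y : ι → ℤ) :
    av A y = y + m • (X *ᵥ y) + (m * m * (β ⬝ᵥ y) + r * (φ ⬝ᵥ y)) • v := by
  unfold av
  rw [hA, add_mulVec, add_mulVec, add_mulVec, one_mulVec, smul_mulVec, smul_mulVec, smul_mulVec,
    vv_mulVec, vv_mulVec, smul_smul, smul_smul, add_smul]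
  abel

lemma av_U_inv {A : SpecialLinearGroup ι ℤ} {X : Matrix ι ι ℤ} {v φ β : ι → ℤ} {m r : ℤ}
    (hXv : X *ᵥ v = 0) (hφX : φ ᵥ* X = 0) (hβX : β ᵥ* X = 0) (hφv : φ ⬝ᵥ v = 0) (hβv : β ⬝ᵥ v = 0)
    (hXX : X * X = (2 : ℤ) • vecMulVec v β)
    (hA : mt A = 1 + m • X + (m * m) • vecMulVec v β + r • vecMulVec v φ) (y : ι → ℤ) :
    av A⁻¹ y = y - m • (X *ᵥ y) + (m * m * (β ⬝ᵥ y) - r * (φ ⬝ᵥ y)) • v := by
  apply av_inv
  rw [av_U hA, mulVec_add, mulVec_sub, mulVec_smul, mulVec_smul, hXv, mulVec_mulVec, hXX,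
    smul_mulVec, vv_mulVec, dotProduct_add, dotProduct_sub, dotProduct_smul, dotProduct_smul,
    dotProduct_add, dotProduct_sub, dotProduct_smul, dotProduct_smul,
    hφv, hβv, dotProduct_mulVec β, hβX, dotProduct_mulVec φ, hφX, zero_dotProduct]
  ext i
  simp only [Pi.add_apply, Pi.sub_apply, Pi.smul_apply, smul_eq_mul, smul_zero, add_zero]
  ring

variable [Big ι]

/-- The case when the image of `X` is spanned by `v`. -/
theorem caseB {v φ ρ : ι → ℤ} (hH : Zd H) (hv : v ≠ 0) (hφ : φ ≠ 0) (hz : Tr H v φ)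
    (hρ : Tr H v ρ) (hi : ∃ i j, φ i * ρ j - φ j * ρ i ≠ 0) : Fi H := by
  obtain ⟨g, hg⟩ := ex_one hφ hv
  obtain ⟨g', hg'⟩ := ex_one' hφ hv
  obtain ⟨c, hc⟩ := PF.generic (PF.dot φ v) (PF.doti φ v) hg hg'
  obtain ⟨h, hh, hne⟩ := PF.transfer ((PF.dot φ v).mul (PF.doti φ v)) hH hc
  have h1 : φ ⬝ᵥ av h v ≠ 0 := left_ne_zero_of_mul hne
  have h2 : φ ⬝ᵥ av h⁻¹ v ≠ 0 := right_ne_zero_of_mul hne
  have hv' : av h v ≠ 0 := by
    intro h0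
    rw [h0, dotProduct_zero] at h1
    exact h1 rfl
  have ht : Tr H v ((ρ ⬝ᵥ av h v) • φ + (-(φ ⬝ᵥ av h v)) • ρ) := (hz.smulf _).addf (hρ.smulf _)
  refine asymm hH hv' ?_ (hz.conj hh) ht ?_ ?_
  · intro h0
    obtain ⟨i, j, hij⟩ := hi
    apply hij
    have e1 := congrFun h0 i
    have e2 := congrFun h0 j
    simp only [Pi.add_apply, Pi.smul_apply, smul_eq_mul, Pi.zero_apply] at e1 e2
    have : φ ⬝ᵥ av h v * (φ i * ρ j - φ j * ρ i) = 0 := by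
      linear_combination φ j * e1 - φ i * e2
    exact (mul_eq_zero.1 this).resolve_left h1
  · rw [add_dotProduct, smul_dotProduct, smul_dotProduct, smul_eq_mul, smul_eq_mul]
    ring
  · rw [cv_dot]
    exact h2

/-- **The main theorem.** -/
theorem main {v φ β : ι → ℤ} {X : Matrix ι ι ℤ} (hH : Zd H) (hv : v ≠ 0) (hφ : φ ≠ 0)
    (hz : Tr H v φ) (hXv : X *ᵥ v = 0) (hφX : φ ᵥ* X = 0) (hβX : β ᵥ* X = 0) (hβv : β ⬝ᵥ v = 0)
    (hXX : X * X = (2 : ℤ) • vecMulVec v β)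
    (hU : ∀ m r : ℤ, ∃ A ∈ H, mt A = 1 + m • X + (m * m) • vecMulVec v β + r • vecMulVec v φ)
    (hX : ∀ a b : ℤ, a • X = b • vecMulVec v φ → a = 0) : Fi H := by
  have hφv := hz.1
  by_cases hB : ∀ a b i, v a * X b i - v b * X a i = 0
  · -- the image of `X` is spanned by `v`
    obtain ⟨b, hb⟩ := Function.ne_iff.1 hv
    have hb' : v b ≠ 0 := hb
    have e1 : v b • X = vecMulVec v (X b) := by
      ext a i
      rw [Matrix.smul_apply, smul_eq_mul, vecMulVec_apply]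
      linear_combination -hB a b i
    have e2 : X b ⬝ᵥ v = 0 := congrFun hXv b
    have e3 : v b • (X * X) = 0 := by
      rw [← Matrix.mul_smul, e1, mul_vecMulVec, hXv, zero_vecMulVec]
    have e4 : vecMulVec v β = 0 := by
      rw [hXX] at e3
      ext i j
      have := congrFun (congrFun e3 i) j
      rw [Matrix.smul_apply, Matrix.smul_apply, smul_eq_mul, smul_eq_mul, Matrix.zero_apply] at this
      rw [Matrix.zero_apply]
      exact (mul_eq_zero.1 ((mul_eq_zero.1 this).resolve_left hb')).resolve_left two_ne_zero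
    have hρ : Tr H v (X b) := by
      obtain ⟨A, hA, hA'⟩ := hU (v b) 0
      exact ⟨e2, A, hA, by rw [hA', zero_smul, add_zero, e1, e4, smul_zero, add_zero]⟩
    refine caseB hH hv hφ hz hρ ?_
    by_contra hcon
    push Not at hcon
    obtain ⟨i, hi⟩ := Function.ne_iff.1 hφ
    have hi' : φ i ≠ 0 := hi
    have := hX (φ i * v b) (X b i) (by
      ext r s
      have h1 := congrFun (congrFun e1 r) s
      rw [Matrix.smul_apply, smul_eq_mul, vecMulVec_apply] at h1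
      rw [Matrix.smul_apply, Matrix.smul_apply, smul_eq_mul, smul_eq_mul, vecMulVec_apply]
      linear_combination φ i * h1 + v r * hcon i s)
    exact mul_ne_zero hi' hb' this
  push Not at hB
  obtain ⟨a, b, i, habi⟩ := hB
  -- the element `l`
  obtain ⟨ξ, hξ⟩ : ∃ ξ : ι → ℤ, ξ = v a • X b - v b • X a := ⟨_, rfl⟩
  have hξ0 : ξ ≠ 0 := by
    intro h0
    apply habi
    have := congrFun h0 i
    rw [hξ] at this
    simpa using this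
  obtain ⟨g1, hg1⟩ := ex_one hφ hv
  obtain ⟨g2, hg2⟩ := ex_one' hφ hv
  obtain ⟨g3, hg3⟩ := ex_one hξ0 hv
  obtain ⟨c1, hc1⟩ := PF.generic (PF.dot φ v) (PF.doti φ v) hg1 hg2
  obtain ⟨c2, hc2⟩ := PF.generic ((PF.dot φ v).mul (PF.doti φ v)) (PF.dot ξ v) hc1 hg3
  obtain ⟨l, hl, hlne⟩ := PF.transfer (((PF.dot φ v).mul (PF.doti φ v)).mul (PF.dot ξ v)) hH hc2
  have hl3 : ξ ⬝ᵥ av l v ≠ 0 := right_ne_zero_of_mul hlne
  obtain ⟨B, hBe⟩ : ∃ B, B = φ ⬝ᵥ av l v := ⟨_, rfl⟩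
  obtain ⟨A₀, hA₀⟩ : ∃ A₀, A₀ = φ ⬝ᵥ av l⁻¹ v := ⟨_, rfl⟩
  have hB0 : B ≠ 0 := by rw [hBe]; exact left_ne_zero_of_mul (left_ne_zero_of_mul hlne)
  have hA₀0 : A₀ ≠ 0 := by rw [hA₀]; exact right_ne_zero_of_mul (left_ne_zero_of_mul hlne)
  obtain ⟨x, hx⟩ : ∃ x, x = X *ᵥ av l v := ⟨_, rfl⟩
  have hvx : v a * x b - v b * x a ≠ 0 := by
    have e1 : x b = X b ⬝ᵥ av l v := by rw [hx]; rfl
    have e2 : x a = X a ⬝ᵥ av l v := by rw [hx]; rfl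
    rw [hξ, sub_dotProduct, smul_dotProduct, smul_dotProduct, smul_eq_mul, smul_eq_mul,
      ← e1, ← e2] at hl3
    exact hl3
  have hφx : φ ⬝ᵥ x = 0 := by rw [hx, dotProduct_mulVec, hφX, zero_dotProduct]
  -- the family of transvections
  obtain ⟨κ, hκ, as, αs, Q, hQ, hTr, hαv, hfam⟩ := family hH hv hφ hz
  obtain ⟨w, hw⟩ : ∃ w : κ → ι → ℤ, w = fun s => (αs s ⬝ᵥ x) • v - (αs s ⬝ᵥ v) • x := ⟨_, rfl⟩
  have hw0 : ∀ s, w s ≠ 0 := by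
    intro s h0
    apply mul_ne_zero (hαv s) hvx
    rw [hw] at h0
    have e1 := congrFun h0 a
    have e2 := congrFun h0 b
    simp only [Pi.sub_apply, Pi.smul_apply, smul_eq_mul, Pi.zero_apply] at e1 e2
    linear_combination v b * e1 - v a * e2
  obtain ⟨η, hη⟩ : ∃ η, η = cv l⁻¹ φ ᵥ* X := ⟨_, rfl⟩
  obtain ⟨B', hB'⟩ : ∃ B', B' = β ⬝ᵥ av l v := ⟨_, rfl⟩
  obtain ⟨ζ, hζ0, hζ⟩ : ∃ ζ : ι → ℤ, ζ ≠ 0 ∧ (β ≠ 0 → ζ = B • β + B' • φ) := by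
    by_cases hβ0 : β = 0
    · exact ⟨φ, hφ, fun h => absurd hβ0 h⟩
    · refine ⟨B • β + B' • φ, fun h0 => hβ0 ?_, fun _ => rfl⟩
      have h1 : (B • β + B' • φ) ⬝ᵥ av l v = 0 := by rw [h0, zero_dotProduct]
      rw [add_dotProduct, smul_dotProduct, smul_dotProduct, ← hB', ← hBe, smul_eq_mul,
        smul_eq_mul] at h1
      have h2 : B' = 0 := by
        have : B * (2 * B') = 0 := by linear_combination h1
        have := (mul_eq_zero.1 this).resolve_left hB0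
        omega
      rw [h2, zero_smul, add_zero] at h0
      ext i
      have h3 := congrFun h0 i
      rw [Pi.smul_apply, smul_eq_mul] at h3
      exact (mul_eq_zero.1 h3).resolve_left hB0
  -- the generic element
  have p1 : PF (fun k : SpecialLinearGroup ι ℤ => φ ⬝ᵥ av k v) := PF.dot φ v
  have p3 : PF (fun k : SpecialLinearGroup ι ℤ => A₀ * (φ ⬝ᵥ av k x) * (φ ⬝ᵥ av k⁻¹ v) -
      B * (φ ⬝ᵥ av k v) * (η ⬝ᵥ av k⁻¹ v)) :=
    (((PF.const A₀).mul (PF.dot φ x)).mul (PF.doti φ v)).sub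
      (((PF.const B).mul (PF.dot φ v)).mul (PF.doti η v))
  have p4 : PF (fun k : SpecialLinearGroup ι ℤ => ∏ s, φ ⬝ᵥ av k (w s)) :=
    PF.prod _ fun s _ => PF.dot φ (w s)
  obtain ⟨g4, hg4⟩ := PF.generic_prod (Finset.univ : Finset κ)
    (F := fun s k => φ ⬝ᵥ av k (w s)) (fun s _ => PF.dot φ (w s))
    (fun s _ => ex_one hφ (hw0 s))
  obtain ⟨k3, hk31, hk32, hk33⟩ := ex_three hv hφ hφv hφx ⟨a, b, hvx⟩
  have hk3 : A₀ * (φ ⬝ᵥ av k3 x) * (φ ⬝ᵥ av k3⁻¹ v) -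
      B * (φ ⬝ᵥ av k3 v) * (η ⬝ᵥ av k3⁻¹ v) ≠ 0 := by
    rw [hk31, mul_zero, zero_mul, sub_zero]
    exact mul_ne_zero (mul_ne_zero hA₀0 hk32) hk33
  obtain ⟨g5, hg5⟩ := ex_one' hζ0 hv
  obtain ⟨c3, hc3⟩ := PF.generic ((PF.dot φ v).mul (PF.doti φ v)) p3 hc1 hk3
  obtain ⟨c5, hc5⟩ := PF.generic (((PF.dot φ v).mul (PF.doti φ v)).mul p3) (PF.doti ζ v) hc3 hg5
  obtain ⟨g₂, hg₂⟩ := PF.generic ((((PF.dot φ v).mul (PF.doti φ v)).mul p3).mul (PF.doti ζ v))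
    p4 hc5 hg4
  obtain ⟨F, hF⟩ : ∃ F : SpecialLinearGroup ι ℤ → ℤ, F = fun k =>
    (φ ⬝ᵥ av k v) * (φ ⬝ᵥ av k⁻¹ v) * (A₀ * (φ ⬝ᵥ av k x) * (φ ⬝ᵥ av k⁻¹ v) -
      B * (φ ⬝ᵥ av k v) * (η ⬝ᵥ av k⁻¹ v)) * (ζ ⬝ᵥ av k⁻¹ v) * ∏ s, φ ⬝ᵥ av k (w s) := ⟨_, rfl⟩
  have hFp : PF F := by
    rw [hF]
    exact ((((PF.dot φ v).mul (PF.doti φ v)).mul p3).mul (PF.doti ζ v)).mul p4
  have hFg : F g₂ ≠ 0 := by rw [hF]; exact hg₂
  -- the levels
  obtain ⟨N₁, hN₁⟩ : ∃ N₁, N₁ = A₀ * (B * A₀ * Q) := ⟨_, rfl⟩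
  have hN₁0 : N₁ ≠ 0 := by
    rw [hN₁]
    exact mul_ne_zero hA₀0 (mul_ne_zero (mul_ne_zero hB0 hA₀0) hQ)
  obtain ⟨w', hw'H, hw'N, hw'F⟩ := hH.congr (hFp.lmul l⁻¹) (g := l * g₂)
    (by rwa [inv_mul_cancel_left]) hN₁0
  obtain ⟨k₀, hk₀e⟩ : ∃ k₀, k₀ = l⁻¹ * w' := ⟨_, rfl⟩
  have hk₀ : k₀ ∈ H := by rw [hk₀e]; exact mul_mem (inv_mem hl) hw'H
  have hk₀F : F k₀ ≠ 0 := by rw [hk₀e]; exact hw'F
  have hk₀N : Cgr N₁ (l⁻¹⁻¹ * k₀) := by
    rw [hk₀e, inv_inv, mul_inv_cancel_left]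
    exact hw'N
  obtain ⟨q, hq1, hq2⟩ := Nat.exists_infinite_primes ((F k₀ * N₁).natAbs + 1)
  have hqp : Prime (q : ℤ) := Nat.prime_iff_prime_int.1 hq2
  have hqd : ¬ (q : ℤ) ∣ F k₀ * N₁ := by
    intro h0
    have h1 : q ∣ (F k₀ * N₁).natAbs := Int.natCast_dvd.1 h0
    have h2 := Nat.le_of_dvd (Int.natAbs_pos.2 (mul_ne_zero hk₀F hN₁0)) h1
    omega
  have hqF : ¬ (q : ℤ) ∣ F k₀ := fun h0 => hqd (h0.mul_right _)
  have hq0 : (q : ℤ) ≠ 0 := hqp.ne_zero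
  have hmono : ∀ {M M' : ℤ} {A : SpecialLinearGroup ι ℤ}, M ∣ M' → Cgr M' A → Cgr M A :=
    fun h h' i j => h.trans (h' i j)
  have htrans : ∀ {M : ℤ} {a b c : SpecialLinearGroup ι ℤ}, Cgr M (a⁻¹ * b) → Cgr M (b⁻¹ * c) →
      Cgr M (a⁻¹ * c) := by
    intro M a b c h1 h2
    have := h1.mul h2
    rwa [show a⁻¹ * b * (b⁻¹ * c) = a⁻¹ * c by group] at this
  have hFk : ∀ k, Cgr (N₁ * q) (k₀⁻¹ * k) → ¬ (q : ℤ) ∣ F k := by
    intro k hk h0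
    have h1 := hFp.congr (hmono (dvd_mul_left _ _) hk : Cgr (q : ℤ) (k₀⁻¹ * k))
    exact hqF ((dvd_sub_right h0).1 h1)
  have hnd : ∀ {y z : ℤ}, ¬ (q : ℤ) ∣ y → z ∣ y → ¬ (q : ℤ) ∣ z := fun h h' h'' => h (h''.trans h')
  have hdef : ∀ s, ∀ k, Cgr (N₁ * q) (k₀⁻¹ * k) → (αs s ⬝ᵥ x) * (φ ⬝ᵥ av k v) -
      (αs s ⬝ᵥ v) * (φ ⬝ᵥ av k x) ≠ 0 := by
    intro s k hk h0
    have h1 : φ ⬝ᵥ av k (w s) = 0 := by
      rw [hw, ← h0]
      simp only [av_sub, av_smul, dotProduct_sub, dotProduct_smul, smul_eq_mul]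
    apply hFk k hk
    have h2 : F k = 0 := by
      rw [hF]
      exact mul_eq_zero_of_right _ (Finset.prod_eq_zero (Finset.mem_univ s) h1)
    rw [h2]
    exact dvd_zero _
  have hhelp : ∀ p : ℕ, p.Prime → ¬ (p : ℤ) ∣ N₁ * q → ∀ k : SpecialLinearGroup ι ℤ,
      ∃ s, ¬ (p : ℤ) ∣ (αs s ⬝ᵥ v) * (φ ⬝ᵥ av k (as s)) := by
    intro p hp hpN k
    apply hfam p hp _ k
    intro h0
    apply hpN
    rw [hN₁]
    exact ((h0.mul_left _).mul_left _).mul_right _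
  have hk₀A : φ ⬝ᵥ av k₀ v ≠ 0 := by
    intro h0
    apply hFk k₀ (by
      rw [inv_mul_cancel]
      intro i j
      rw [mt_one, sub_self]
      exact dvd_zero _)
    have h2 : F k₀ = 0 := by
      rw [hF]
      show (φ ⬝ᵥ av k₀ v) * _ * _ * _ * _ = 0
      rw [h0, zero_mul, zero_mul, zero_mul, zero_mul]
    rw [h2]
    exact dvd_zero _
  obtain ⟨k, hk, hkN, hkp⟩ := cop as αs hTr hhelp k₀ hdef
    (φ ⬝ᵥ av k₀ v).natAbs.primeFactors k₀ hk₀ (by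
      rw [inv_mul_cancel]
      intro i j
      rw [mt_one, sub_self]
      exact dvd_zero _) (by
      intro p hp _ h1 _
      exact Nat.mem_primeFactors.2 ⟨hp, Int.natCast_dvd.1 h1, Int.natAbs_ne_zero.2 hk₀A⟩)
  -- the numbers
  have hFk' := hFk k hkN
  obtain ⟨A, hA⟩ : ∃ A, A = φ ⬝ᵥ av k v := ⟨_, rfl⟩
  obtain ⟨C, hC⟩ : ∃ C, C = φ ⬝ᵥ av k x := ⟨_, rfl⟩
  obtain ⟨E, hE⟩ : ∃ E, E = φ ⬝ᵥ av k⁻¹ v := ⟨_, rfl⟩
  obtain ⟨Y, hY⟩ : ∃ Y, Y = η ⬝ᵥ av k⁻¹ v := ⟨_, rfl⟩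
  obtain ⟨Z, hZ⟩ : ∃ Z, Z = β ⬝ᵥ av k⁻¹ v := ⟨_, rfl⟩
  obtain ⟨W, hW⟩ : ∃ W, W = ζ ⬝ᵥ av k⁻¹ v := ⟨_, rfl⟩
  obtain ⟨R, hR⟩ : ∃ R, R = φ ⬝ᵥ av k (av l v) := ⟨_, rfl⟩
  obtain ⟨R', hR'⟩ : ∃ R', R' = φ ⬝ᵥ av l⁻¹ (av k⁻¹ v) := ⟨_, rfl⟩
  have hFe : F k = A * E * (A₀ * C * E - B * A * Y) * W * ∏ s, φ ⬝ᵥ av k (w s) := by
    rw [hF, hA, hC, hE, hY, hW]
  have hqA : ¬ (q : ℤ) ∣ A := hnd hFk' (by rw [hFe]; exact Dvd.intro _ (by ring :
    A * (E * (A₀ * C * E - B * A * Y) * W * ∏ s, φ ⬝ᵥ av k (w s)) = _))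
  have hE0 : E ≠ 0 := by
    rintro h0
    apply hFk'
    rw [hFe, h0, mul_zero, zero_mul, zero_mul, zero_mul]
    exact dvd_zero _
  have hf30 : A₀ * C * E - B * A * Y ≠ 0 := by
    rintro h0
    apply hFk'
    rw [hFe, h0, mul_zero, zero_mul, zero_mul]
    exact dvd_zero _
  have hW0 : W ≠ 0 := by
    rintro h0
    apply hFk'
    rw [hFe, h0, mul_zero, zero_mul]
    exact dvd_zero _
  have hA0 : A ≠ 0 := by
    rintro h0
    apply hqA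
    rw [h0]
    exact dvd_zero _
  have hkN₁ : Cgr N₁ (l⁻¹⁻¹ * k) := htrans hk₀N (hmono (dvd_mul_right _ _) hkN)
  have hN₁R : N₁ ∣ R := by
    have h1 := (PF.dot φ (av l v)).congr hkN₁
    rw [av_inv_av, hφv, sub_zero] at h1
    rw [hR]
    exact h1
  have hN₁A : N₁ ∣ A - A₀ := by
    have h1 := (PF.dot φ v).congr hkN₁
    rw [hA, hA₀]
    exact h1
  obtain ⟨y, hy⟩ := hN₁A
  obtain ⟨A₁, hA₁⟩ : ∃ A₁, A₁ = 1 + (B * A₀ * Q) * y := ⟨_, rfl⟩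
  have hAA : A = A₀ * A₁ := by
    rw [hN₁] at hy
    rw [hA₁]
    linear_combination hy
  -- coprimality
  have hcop1 : IsCoprime (A₀ * B) A₁ := by
    rw [hA₁]
    exact ⟨-(Q * y), 1, by ring⟩
  have hcop2 : IsCoprime C A₁ := by
    rw [Int.isCoprime_iff_gcd_eq_one]
    by_contra hne
    obtain ⟨p, hp, hpd⟩ := Nat.exists_prime_and_dvd hne
    have hpp : Prime (p : ℤ) := Nat.prime_iff_prime_int.1 hp
    have h3 : (p : ℤ) ∣ C := (Int.natCast_dvd_natCast.2 hpd).trans (Int.gcd_dvd_left _ _)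
    have h2 : (p : ℤ) ∣ A₁ :=
      (Int.natCast_dvd_natCast.2 hpd).trans (Int.gcd_dvd_right _ _)
    have h4 : (p : ℤ) ∣ A := by rw [hAA]; exact h2.mul_left _
    have h5 : (p : ℤ) ∣ N₁ * q := by
      by_contra h6
      apply hkp p hp h6
      rw [← hA, ← hC]
      exact ⟨h4, h3⟩
    rcases hpp.dvd_mul.1 h5 with h6 | h6
    · have h7 : (p : ℤ) ∣ B * A₀ * Q := by
        rw [hN₁] at h6
        rcases hpp.dvd_mul.1 h6 with h8 | h8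
        · exact (h8.mul_left _).mul_right _
        · exact h8
      rw [hA₁] at h2
      have h8 : (p : ℤ) ∣ 1 := (dvd_add_left (h7.mul_right y)).1 h2
      exact hpp.not_isUnit (isUnit_of_dvd_one h8)
    · have h7 : p = q := (Nat.prime_dvd_prime_iff_eq hp hq2).1 (Int.natCast_dvd_natCast.1 h6)
      rw [h7] at h4
      exact hqA h4
  obtain ⟨m₀, r₀, hmr⟩ : ∃ m₀ r₀ : ℤ, R + m₀ * C + m₀ * m₀ * (A * B') + r₀ * (A * B) = 0 := by
    obtain ⟨s, t, hst⟩ := (hcop1.mul_left hcop2 : IsCoprime (A₀ * B * C) A₁)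
    obtain ⟨R₁, hR₁⟩ := hN₁R
    have h1 : A₀ * B ∣ R + (-(A₀ * B * R * s)) * C +
        (-(A₀ * B * R * s)) * (-(A₀ * B * R * s)) * (A * B') := by
      rw [hN₁] at hR₁
      exact ⟨A₀ * Q * R₁ - R * s * C + R * s * (A₀ * B * R * s) * (A * B'), by
        linear_combination hR₁⟩
    have h2 : A₁ ∣ R + (-(A₀ * B * R * s)) * C +
        (-(A₀ * B * R * s)) * (-(A₀ * B * R * s)) * (A * B') := by
      exact ⟨R * t + (A₀ * B * R * s) * (A₀ * B * R * s) * (A₀ * B'), by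
        rw [hAA]; linear_combination (-R) * hst⟩
    obtain ⟨d, hd⟩ := hcop1.mul_dvd h1 h2
    refine ⟨-(A₀ * B * R * s), -d, ?_⟩
    rw [hd, hAA]
    ring
  -- the final element
  have hfin : ∀ t : ℤ, R' - (m₀ + t * (A * B)) * Y + ((m₀ + t * (A * B)) * (m₀ + t * (A * B)) * Z -
      (r₀ - t * (C + (2 * m₀ + t * (A * B)) * (A * B'))) * E) * A₀ ≠ 0 → Fi H := by
    intro t ht
    obtain ⟨u, hu, hu'⟩ := hU (m₀ + t * (A * B))
      (r₀ - t * (C + (2 * m₀ + t * (A * B)) * (A * B')))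
    have hh : k * u * l ∈ H := mul_mem (mul_mem hk hu) hl
    have h1 : φ ⬝ᵥ av (k * u * l) v = 0 := by
      rw [av_mul, av_mul, av_U hu', ← hx, ← hBe, ← hB', av_add, av_add, av_smul, av_smul,
        dotProduct_add, dotProduct_add, dotProduct_smul, dotProduct_smul, ← hR, ← hC, ← hA,
        smul_eq_mul, smul_eq_mul]
      linear_combination hmr
    have h2 : φ ⬝ᵥ av (k * u * l)⁻¹ v ≠ 0 := by
      have e : (k * u * l)⁻¹ = l⁻¹ * (u⁻¹ * k⁻¹) := by group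
      rw [e, av_mul, av_mul, av_U_inv hXv hφX hβX hφv hβv hXX hu', ← hE, ← hZ, av_add, av_sub,
        av_smul, av_smul, dotProduct_add, dotProduct_sub, dotProduct_smul, dotProduct_smul, ← hR',
        ← hA₀, smul_eq_mul, smul_eq_mul]
      have e2 : φ ⬝ᵥ av l⁻¹ (X *ᵥ av k⁻¹ v) = Y := by
        rw [← cv_dot, dotProduct_mulVec, ← hη, hY]
      rw [e2]
      exact ht
    have hv' : av (k * u * l) v ≠ 0 := by
      intro h0
      have := congrArg (av (k * u * l)⁻¹) h0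
      rw [av_inv_av] at this
      apply hv
      rw [this]
      exact mulVec_zero _
    exact asymm hH hv' hφ (hz.conj hh) hz h1 (by rw [cv_dot]; exact h2)
  by_contra hne
  have hz0 := fun t => not_imp_comm.1 (hfin t) hne
  have t0 := hz0 0
  have t1 := hz0 1
  have t2 := hz0 (-1)
  by_cases hβ0 : β = 0
  · have hZ0 : Z = 0 := by rw [hZ, hβ0, zero_dotProduct]
    have hB'0 : B' = 0 := by rw [hB', hβ0, zero_dotProduct]
    rw [hZ0, hB'0] at t0 t1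
    apply hf30
    linear_combination t1 - t0
  · have hW' : W = B * Z + B' * E := by
      rw [hW, hζ hβ0, add_dotProduct, smul_dotProduct, smul_dotProduct, ← hZ, ← hE, smul_eq_mul,
        smul_eq_mul]
    have : 2 * (A₀ * (A * B) * A) * W = 0 := by
      rw [hW']
      linear_combination t1 + t2 - 2 * t0
    exact mul_ne_zero (mul_ne_zero two_ne_zero (mul_ne_zero (mul_ne_zero hA₀0
      (mul_ne_zero hA0 hB0)) hA0)) hW0 this

end Pool.Agent.Run7.h25.TV
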