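import Pool.Agent.Run7.h25.TV.Stab

/-!
# Pairs of transvections
-/

set_option autoImplicit false
set_option linter.unusedSectionVars false

namespace Pool.Agent.Run7.h25.TV

open Matrix Pool.Agent.Helper460_CSP

variable {ι : Type} [DecidableEq ι] [Fintype ι] {H : Subgroup (SpecialLinearGroup ι ℤ)}

lemma Par.smul_eq {v y : ι → ℤ} (h : Par v y) (b : ι) : v b • y = y b • v := by
  ext i
  rw [Pi.smul_apply, Pi.smul_apply, smul_eq_mul, smul_eq_mul]
  linear_combination h b i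

/-- Commensurable transvections. -/
lemma common_power {u w : SpecialLinearGroup ι ℤ} {v φ y ψ : ι → ℤ} (hu : IsTv u v φ)
    (hw : IsTv w y ψ) (h1 : Par v y) (h2 : Par φ ψ) :
    ∃ a b : ℤ, a ≠ 0 ∧ b ≠ 0 ∧ u ^ a = w ^ b := by
  obtain ⟨hv, hφ, hφv, hum⟩ := hu
  obtain ⟨hy, hψ, hψy, hwm⟩ := hw
  obtain ⟨b, hb⟩ := Function.ne_iff.1 hv
  have hvb : v b ≠ 0 := hb
  obtain ⟨c, hc⟩ := Function.ne_iff.1 hφ
  have hφc : φ c ≠ 0 := hc
  have e1 := h1.smul_eq b
  have e2 := h2.smul_eq c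
  have hyb : y b ≠ 0 := by
    intro h0
    rw [h0, zero_smul] at e1
    exact hy ((smul_eq_zero.1 e1).resolve_left hvb)
  have hψc : ψ c ≠ 0 := by
    intro h0
    rw [h0, zero_smul] at e2
    exact hψ ((smul_eq_zero.1 e2).resolve_left hφc)
  refine ⟨y b * ψ c, v b * φ c, mul_ne_zero hyb hψc, mul_ne_zero hvb hφc, ?_⟩
  apply mt_inj
  rw [mt_zpow_sq0 hum (vv_zero hφv), mt_zpow_sq0 hwm (vv_zero hψy)]
  congr 1
  have e3 : (v b * φ c) • vecMulVec y ψ = vecMulVec (v b • y) (φ c • ψ) := by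
    rw [smul_vecMulVec, vecMulVec_smul, smul_smul]
  have e4 : (y b * ψ c) • vecMulVec v φ = vecMulVec (y b • v) (ψ c • φ) := by
    rw [smul_vecMulVec, vecMulVec_smul, smul_smul]
  rw [e3, e4, e1, e2]

variable [Big ι]

/-- The centre of one transvection lies on the axis of another. -/
theorem pairM {v φ y ψ : ι → ℤ} (hH : Zd H) (hv : v ≠ 0) (hφ : φ ≠ 0) (hz : Tr H v φ)
    (hT : Tr H y ψ) (hψ0 : ψ ≠ 0) (h1 : φ ⬝ᵥ y = 0) (h2 : ¬ Par v y) : Fi H := by
  unfold Par at h2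
  push Not at h2
  obtain ⟨a, b, h2⟩ := h2
  replace h2 := sub_ne_zero.2 h2
  by_cases h3 : ψ ⬝ᵥ v = 0
  · refine main (X := vecMulVec y ψ) (β := 0) hH hv hφ hz ?_ ?_ ?_ ?_ ?_ ?_ ?_
    · rw [vv_mulVec, h3, zero_smul]
    · rw [vecMul_vecMulVec, h1, zero_smul]
    · rw [zero_vecMul]
    · rw [zero_dotProduct]
    · rw [vv_zero hT.1, vecMulVec_zero, smul_zero]
    · intro m r
      obtain ⟨_, A, hA, hA'⟩ := hT.smulv m
      obtain ⟨_, B, hB, hB'⟩ := hz.smulv r
      refine ⟨A * B, mul_mem hA hB, ?_⟩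
      rw [mt_mul, hA', hB', smul_vecMulVec, smul_vecMulVec, Matrix.mul_add, mul_one,
        Matrix.add_mul, one_mul, Matrix.smul_mul, Matrix.mul_smul, vv_zero h3, vecMulVec_zero,
        smul_zero, smul_zero, add_zero, smul_zero, add_zero]
    · intro a' b' hab
      obtain ⟨j, hj⟩ := Function.ne_iff.1 hψ0
      have hj' : ψ j ≠ 0 := hj
      have e1 := congrFun (congrFun hab a) j
      have e2 := congrFun (congrFun hab b) j
      rw [Matrix.smul_apply, Matrix.smul_apply, vecMulVec_apply, vecMulVec_apply, smul_eq_mul,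
        smul_eq_mul] at e1 e2
      have e3 : a' * (ψ j * (v a * y b - v b * y a)) = 0 := by
        linear_combination v a * e2 - v b * e1
      exact (mul_eq_zero.1 e3).resolve_right (mul_ne_zero hj' h2)
  · have hy : y ≠ 0 := by
      rintro rfl
      simp at h2
    exact asymm hH hy hφ hT hz h1 h3

/-- Two transvections with the same centre and different axes. -/
theorem same_centre {v φ y ψ : ι → ℤ} (hH : Zd H) (hv : v ≠ 0) (hφ : φ ≠ 0) (hz : Tr H v φ)
    (hT : Tr H y ψ) (hy : y ≠ 0) (h1 : Par v y) (h2 : ¬ Par φ ψ) : Fi H := by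
  obtain ⟨b, hb⟩ := Function.ne_iff.1 hv
  have hvb : v b ≠ 0 := hb
  have e1 := h1.smul_eq b
  have hyb : y b ≠ 0 := by
    intro h0
    rw [h0, zero_smul] at e1
    exact hy ((smul_eq_zero.1 e1).resolve_left hvb)
  have hψv : ψ ⬝ᵥ v = 0 := by
    have h3 := congrArg (fun z => ψ ⬝ᵥ z) e1
    simp only [dotProduct_smul, hT.1, smul_eq_mul, mul_zero] at h3
    exact (mul_eq_zero.1 h3.symm).resolve_left hyb
  have hT2 := hT.smulv (v b)
  rw [e1] at hT2
  have hT3 := hT2.swap hψv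
  unfold Par at h2
  push Not at h2
  obtain ⟨i, j, hij⟩ := h2
  refine caseB hH hv hφ hz hT3 ⟨i, j, ?_⟩
  rw [Pi.smul_apply, Pi.smul_apply, smul_eq_mul, smul_eq_mul]
  intro h0
  apply hij
  apply mul_left_cancel₀ hyb
  linear_combination h0

/-- A nonzero form which vanishes on two vectors. -/
lemma ex_form {v w : ι → ℤ} (h : ¬ Par v w) : ∃ ξ : ι → ℤ, ξ ≠ 0 ∧ ξ ⬝ᵥ v = 0 ∧ ξ ⬝ᵥ w = 0 := by
  unfold Par at h
  push Not at h
  obtain ⟨i, j, hij⟩ := h
  have hne : i ≠ j := by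
    rintro rfl
    exact hij rfl
  obtain ⟨l, hli, hlj⟩ := third i j
  refine ⟨Pi.single i (v j * w l - v l * w j) + Pi.single j (v l * w i - v i * w l) +
    Pi.single l (v i * w j - v j * w i), ?_, ?_, ?_⟩
  · intro h0
    have h1 := congrFun h0 l
    rw [Pi.add_apply, Pi.add_apply, Pi.single_eq_of_ne hli, Pi.single_eq_of_ne hlj,
      Pi.single_eq_same, Pi.zero_apply] at h1
    apply hij
    linear_combination h1
  · rw [add_dotProduct, add_dotProduct, single_dotProduct, single_dotProduct, single_dotProduct]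
    ring
  · rw [add_dotProduct, add_dotProduct, single_dotProduct, single_dotProduct, single_dotProduct]
    ring

lemma step_lt {Y c : ℤ} (hc : c ≠ 0) (h : |c| < 2 * |Y|) : ∃ j : ℤ, |Y + j * c| < |Y| := by
  rcases le_total 0 Y with hY | hY <;> rcases lt_or_gt_of_ne hc with hc' | hc'
  · refine ⟨1, ?_⟩
    rw [abs_of_neg hc', abs_of_nonneg hY] at h
    rw [abs_of_nonneg hY, abs_lt]
    constructor <;> linarith
  · refine ⟨-1, ?_⟩
    rw [abs_of_pos hc', abs_of_nonneg hY] at h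
    rw [abs_of_nonneg hY, abs_lt]
    constructor <;> linarith
  · refine ⟨-1, ?_⟩
    rw [abs_of_neg hc', abs_of_nonpos hY] at h
    rw [abs_of_nonpos hY, abs_lt]
    constructor <;> linarith
  · refine ⟨1, ?_⟩
    rw [abs_of_pos hc', abs_of_nonpos hY] at h
    rw [abs_of_nonpos hY, abs_lt]
    constructor <;> linarith

/-- Two transvections which generate, in the plane of their centres, a group of finite covolume. -/
theorem small_pair {v φ w ψ : ι → ℤ} (hH : Zd H) (hv : v ≠ 0) (hφ : φ ≠ 0) (hψ : ψ ≠ 0)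
    (hz : Tr H v φ) (hT : Tr H w ψ) (h0 : (φ ⬝ᵥ w) * (ψ ⬝ᵥ v) ≠ 0)
    (h3 : |(φ ⬝ᵥ w) * (ψ ⬝ᵥ v)| ≤ 3) : Fi H := by
  obtain ⟨a, ha⟩ : ∃ a, a = φ ⬝ᵥ w := ⟨_, rfl⟩
  obtain ⟨b, hb⟩ : ∃ b, b = ψ ⬝ᵥ v := ⟨_, rfl⟩
  rw [← ha, ← hb] at h0 h3
  have ha0 : a ≠ 0 := left_ne_zero_of_mul h0
  have hb0 : b ≠ 0 := right_ne_zero_of_mul h0
  have hw : w ≠ 0 := by
    rintro rfl
    rw [dotProduct_zero] at ha
    exact ha0 ha
  have hnp : ¬ Par v w := by
    intro hp
    obtain ⟨c, hc⟩ := Function.ne_iff.1 hv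
    have hvc : v c ≠ 0 := hc
    have e1 := congrArg (fun z => φ ⬝ᵥ z) (hp.smul_eq c)
    simp only [dotProduct_smul, hz.1, smul_eq_mul, mul_zero, ← ha] at e1
    exact mul_ne_zero hvc ha0 e1
  obtain ⟨ξ, hξ0, hξv, hξw⟩ := ex_form hnp
  obtain ⟨g, hg⟩ := ex_one' hξ0 hv
  obtain ⟨k, hk, hkξ⟩ := PF.transfer (PF.doti ξ v) hH hg
  have hnpar : ∀ y : ι → ℤ, ξ ⬝ᵥ y = 0 → y ≠ 0 → ¬ Par v (av k y) := by
    intro y hy hy0 hp
    obtain ⟨c, hc⟩ := Function.ne_iff.1 hv
    have hvc : v c ≠ 0 := hc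
    have e1 := congrArg (av k⁻¹) (hp.smul_eq c)
    rw [av_smul, av_smul, av_inv_av] at e1
    have e2 := congrArg (fun z => ξ ⬝ᵥ z) e1
    simp only [dotProduct_smul, hy, smul_eq_mul, mul_zero] at e2
    have e3 := (mul_eq_zero.1 e2.symm).resolve_right hkξ
    rw [e3, zero_smul] at e1
    exact hy0 ((smul_eq_zero.1 e1).resolve_left hvc)
  have hcv : ∀ (x : SpecialLinearGroup ι ℤ) {θ : ι → ℤ}, θ ≠ 0 → cv x θ ≠ 0 := by
    intro x θ hθ h1
    apply hθ
    have h2 := congrArg (cv x⁻¹) h1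
    rw [← cv_mul, mul_inv_cancel, cv_one] at h2
    rw [h2]
    exact zero_vecMul _
  have hav : ∀ (x : SpecialLinearGroup ι ℤ) {y : ι → ℤ}, y ≠ 0 → av x y ≠ 0 := by
    intro x y hy h1
    apply hy
    have h2 := congrArg (av x⁻¹) h1
    rw [av_inv_av] at h2
    rw [h2]
    exact mulVec_zero _
  have key : ∀ n : ℕ, ∀ s ∈ H, ξ ⬝ᵥ av s v = 0 → ξ ⬝ᵥ av s w = 0 →
      |φ ⬝ᵥ av k (av s v)| + |φ ⬝ᵥ av k (av s w)| ≤ n → Fi H := by
    intro n
    induction n with
    | zero =>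
      intro s hs h1 h2 h4
      have h5 : φ ⬝ᵥ av k (av s v) = 0 := by
        have h6 := abs_nonneg (φ ⬝ᵥ av k (av s v))
        have h7 := abs_nonneg (φ ⬝ᵥ av k (av s w))
        apply abs_eq_zero.1
        push_cast at h4
        linarith
      have hT' := hz.conj (mul_mem hk hs)
      rw [av_mul] at hT'
      exact pairM hH hv hφ hz hT' (hcv _ hφ) h5 (hnpar _ h1 (hav _ hv))
    | succ n ih =>
      intro s hs h1 h2 h4
      obtain ⟨X, hX⟩ : ∃ X, X = φ ⬝ᵥ av k (av s v) := ⟨_, rfl⟩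
      obtain ⟨Y, hY⟩ : ∃ Y, Y = φ ⬝ᵥ av k (av s w) := ⟨_, rfl⟩
      by_cases hX0 : X = 0
      · have hT' := hz.conj (mul_mem hk hs)
        rw [av_mul] at hT'
        exact pairM hH hv hφ hz hT' (hcv _ hφ) (hX ▸ hX0) (hnpar _ h1 (hav _ hv))
      by_cases hY0 : Y = 0
      · have hT' := hT.conj (mul_mem hk hs)
        rw [av_mul] at hT'
        exact pairM hH hv hφ hz hT' (hcv _ hψ) (hY ▸ hY0) (hnpar _ h2 (hav _ hw))
      by_cases hA : |a * X| < 2 * |Y|
      · obtain ⟨j, hj⟩ := step_lt (mul_ne_zero ha0 hX0) hA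
        obtain ⟨_, z, hzH, hzm⟩ := hz.smulv j
        have e1 : av z v = v := by
          rw [av_of hzm, hz.1, zero_smul, add_zero]
        have e2 : av z w = w + (a * j) • v := by
          rw [av_of hzm, ← ha, smul_smul]
        refine ih (s * z) (mul_mem hs hzH) ?_ ?_ ?_
        · rw [av_mul, e1, h1]
        · rw [av_mul, e2, av_add, av_smul, dotProduct_add, dotProduct_smul, h1, h2, smul_zero,
            add_zero]
        · rw [av_mul, av_mul, e1, e2, av_add, av_smul, av_add, av_smul, dotProduct_add,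
            dotProduct_smul, ← hX, ← hY, smul_eq_mul]
          rw [← hX, ← hY] at h4
          have e3 : Y + a * j * X = Y + j * (a * X) := by ring
          rw [e3]
          push_cast at h4 ⊢
          linarith
      · by_cases hB : |b * Y| < 2 * |X|
        · obtain ⟨j, hj⟩ := step_lt (mul_ne_zero hb0 hY0) hB
          obtain ⟨_, z, hzH, hzm⟩ := hT.smulv j
          have e1 : av z w = w := by
            rw [av_of hzm, hT.1, zero_smul, add_zero]
          have e2 : av z v = v + (b * j) • w := by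
            rw [av_of hzm, ← hb, smul_smul]
          refine ih (s * z) (mul_mem hs hzH) ?_ ?_ ?_
          · rw [av_mul, e2, av_add, av_smul, dotProduct_add, dotProduct_smul, h1, h2, smul_zero,
              add_zero]
          · rw [av_mul, e1, h2]
          · rw [av_mul, av_mul, e1, e2, av_add, av_smul, av_add, av_smul, dotProduct_add,
              dotProduct_smul, ← hX, ← hY, smul_eq_mul]
            rw [← hX, ← hY] at h4
            have e3 : X + b * j * Y = X + j * (b * Y) := by ring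
            rw [e3]
            push_cast at h4 ⊢
            linarith
        · exfalso
          rw [not_lt, abs_mul] at hA hB
          rw [abs_mul] at h3
          have hXp : 0 < |X| := abs_pos.2 hX0
          have hYp : 0 < |Y| := abs_pos.2 hY0
          have hap : 0 < |a| := abs_pos.2 ha0
          have hbp : 0 < |b| := abs_pos.2 hb0
          have h5 : 4 * (|X| * |Y|) ≤ |a| * |b| * (|X| * |Y|) := by
            have h6 := mul_le_mul hA hB (by positivity) (by positivity)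
            nlinarith
          have h7 : 0 < |X| * |Y| := mul_pos hXp hYp
          nlinarith
  obtain ⟨n, hn⟩ : ∃ n : ℕ, |φ ⬝ᵥ av k (av 1 v)| + |φ ⬝ᵥ av k (av 1 w)| ≤ n :=
    ⟨_, Int.self_le_toNat _⟩
  exact key n 1 (one_mem _) (by rw [av_one, hξv]) (by rw [av_one, hξw]) hn

end Pool.Agent.Run7.h25.TV
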