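import Pool.Agent.Run7.h25.TV.Uni

/-!
# Polynomials
-/

set_option autoImplicit false
set_option linter.unusedSectionVars false

namespace Pool.Agent.Run7.h25.TV

open Polynomial Finset

/-- The binomial coefficient `choose (D m) j` is a polynomial in `m` with integral coefficients. -/
lemma binpoly (D j : ℕ) (hD : j.factorial ∣ D) : ∃ Q : ℤ[X], Q.natDegree ≤ j ∧
    (∀ m : ℕ, Q.eval (m : ℤ) = ((D * m).choose j : ℤ)) ∧ Q.coeff j ∣ (D : ℤ) ^ j := by
  have hj0 : (j.factorial : ℤ) ≠ 0 := by exact_mod_cast j.factorial_ne_zero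
  have h : C (j.factorial : ℤ) ∣ (descPochhammer ℤ j).comp (C (D : ℤ) * X) := by
    rw [C_dvd_iff_dvd_coeff]
    intro i
    rw [comp_C_mul_X_coeff]
    rcases Nat.eq_zero_or_pos i with rfl | hi
    · rcases Nat.eq_zero_or_pos j with rfl | hj
      · simp
      · have : (descPochhammer ℤ j).coeff 0 = 0 := by
          obtain ⟨i, rfl⟩ : ∃ i, j = i + 1 := ⟨j - 1, by omega⟩
          rw [descPochhammer_succ_left, mul_coeff_zero, coeff_X_zero, zero_mul]
        rw [this, zero_mul]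
        exact dvd_zero _
    · exact ((Int.natCast_dvd_natCast.2 hD).trans (dvd_pow_self _ hi.ne')).mul_left _
  obtain ⟨Q, hQ⟩ := h
  have hc : ∀ i, (descPochhammer ℤ j).coeff i * (D : ℤ) ^ i = (j.factorial : ℤ) * Q.coeff i := by
    intro i
    rw [← comp_C_mul_X_coeff, hQ, coeff_C_mul]
  refine ⟨Q, ?_, ?_, ?_⟩
  · rw [natDegree_le_iff_coeff_eq_zero]
    intro i hi
    have h1 := hc i
    rw [coeff_eq_zero_of_natDegree_lt (by rwa [descPochhammer_natDegree]), zero_mul] at h1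
    exact (mul_eq_zero.1 h1.symm).resolve_left hj0
  · intro m
    have h1 := congrArg (eval (m : ℤ)) hQ
    rw [eval_comp, eval_mul, eval_C, eval_X, eval_mul, eval_C] at h1
    have h2 : ((D : ℤ) * (m : ℤ)) = ((D * m : ℕ) : ℤ) := by push_cast; ring
    rw [h2, descPochhammer_eval_eq_descFactorial, Nat.descFactorial_eq_factorial_mul_choose] at h1
    push_cast at h1
    exact (mul_left_cancel₀ hj0 h1).symm
  · have h1 := hc j
    have h2 : (descPochhammer ℤ j).coeff j = 1 := by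
      have := monic_descPochhammer ℤ j
      rw [Monic, leadingCoeff, descPochhammer_natDegree] at this
      exact this
    rw [h2, one_mul] at h1
    exact ⟨_, h1.trans (mul_comm _ _)⟩

lemma poly (n : ℕ) (c : ℕ → ℤ) : ∃ P : ℤ[X], P.natDegree ≤ n ∧
    (∀ m : ℕ, P.eval (m : ℤ) = ∑ j ∈ range (n + 1), ((n.factorial * m).choose j : ℤ) * c j) ∧
    ∀ e ≤ n, ∀ r : ℤ, (∀ j, e < j → r ∣ c j) →
      ∃ ρ : ℤ, ρ ∣ (n.factorial : ℤ) ^ e ∧ r ∣ P.coeff e - ρ * c e := by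
  have h1 : ∀ j : ℕ, ∃ Q : ℤ[X], j ≤ n → Q.natDegree ≤ j ∧
      (∀ m : ℕ, Q.eval (m : ℤ) = ((n.factorial * m).choose j : ℤ)) ∧
      Q.coeff j ∣ (n.factorial : ℤ) ^ j := by
    intro j
    by_cases hj : j ≤ n
    · obtain ⟨Q, hQ⟩ := binpoly n.factorial j (Nat.factorial_dvd_factorial hj)
      exact ⟨Q, fun _ => hQ⟩
    · exact ⟨0, fun h => absurd h hj⟩
  choose Q hQ using h1
  refine ⟨∑ j ∈ range (n + 1), Q j * C (c j), ?_, ?_, ?_⟩
  · apply natDegree_sum_le_of_forall_le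
    intro j hj
    have hjn : j ≤ n := Nat.lt_succ_iff.1 (mem_range.1 hj)
    exact (natDegree_mul_C_le _ _).trans ((hQ j hjn).1.trans hjn)
  · intro m
    rw [eval_finsetSum]
    refine sum_congr rfl fun j hj => ?_
    have hjn : j ≤ n := Nat.lt_succ_iff.1 (mem_range.1 hj)
    rw [eval_mul, eval_C, (hQ j hjn).2.1]
  · intro e he r hr
    refine ⟨(Q e).coeff e, (hQ e he).2.2, ?_⟩
    rw [finsetSum_coeff, ← Finset.add_sum_erase _ _ (mem_range.2 (Nat.lt_succ_of_le he)),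
      coeff_mul_C, add_sub_cancel_left]
    refine dvd_sum fun j hj => ?_
    rw [mem_erase, mem_range] at hj
    rw [coeff_mul_C]
    rcases lt_or_gt_of_ne hj.1 with h2 | h2
    · rw [coeff_eq_zero_of_natDegree_lt (((hQ j (by omega)).1).trans_lt h2), zero_mul]
      exact dvd_zero _
    · exact (hr j h2).mul_left _

/-- A polynomial which does not vanish modulo the primes dividing `A` has values prime to `A`. -/
lemma avoid (f : ℤ[X]) (n : ℕ) (hf : f.natDegree ≤ n) (A : ℤ) (hA : A ≠ 0)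
    (h : ∀ q : ℕ, q.Prime → (q : ℤ) ∣ A → n < q ∧ f.map (Int.castRingHom (ZMod q)) ≠ 0) :
    ∃ m : ℕ, IsCoprime (f.eval (m : ℤ)) A := by
  have key : ∀ S : Finset ℕ, (∀ q ∈ S, q.Prime ∧ (q : ℤ) ∣ A) →
      ∃ m : ℕ, ∀ q ∈ S, ¬ (q : ℤ) ∣ f.eval (m : ℤ) := by
    intro S
    induction S using Finset.induction_on with
    | empty => exact fun _ => ⟨0, fun q hq => absurd hq (Finset.notMem_empty _)⟩
    | insert q S hqS ih =>
      intro hS
      obtain ⟨m, hm⟩ := ih fun q hq => hS q (Finset.mem_insert_of_mem hq)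
      obtain ⟨hq, hqA⟩ := hS q (Finset.mem_insert_self _ _)
      obtain ⟨hnq, hfq⟩ := h q hq hqA
      have : Fact q.Prime := ⟨hq⟩
      obtain ⟨r, hr⟩ := exists_eval_ne_zero_of_natDegree_lt_card
        (f.map (Int.castRingHom (ZMod q))) hfq (by
          rw [Cardinal.mk_fintype, ZMod.card]
          exact_mod_cast (natDegree_map_le.trans hf).trans_lt hnq)
      obtain ⟨W, hW⟩ : ∃ W : ℕ, W = ∏ p ∈ S, p := ⟨_, rfl⟩
      have hcop : IsUnit ((W : ℕ) : ZMod q) := by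
        rw [ZMod.isUnit_iff_coprime, hW]
        refine Nat.Coprime.prod_left fun p hp => ?_
        exact (Nat.coprime_primes (hS p (Finset.mem_insert_of_mem hp)).1 hq).2 (by
          rintro rfl; exact hqS hp)
      obtain ⟨u, hu⟩ := hcop
      obtain ⟨t, ht⟩ : ∃ t : ℕ, (t : ZMod q) = (↑u⁻¹ : ZMod q) * (r - m) :=
        ⟨((↑u⁻¹ : ZMod q) * (r - m)).val, ZMod.natCast_zmod_val _⟩
      have hmr : ((m + W * t : ℕ) : ZMod q) = r := by
        push_cast
        rw [ht, ← hu, ← mul_assoc, Units.mul_inv, one_mul]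
        ring
      refine ⟨m + W * t, fun p hp => ?_⟩
      rcases Finset.mem_insert.1 hp with rfl | hp'
      · intro h0
        apply hr
        rw [← hmr, eval_natCast_map]
        have h1 : ((f.eval ((m + W * t : ℕ) : ℤ) : ℤ) : ZMod p) = 0 :=
          (ZMod.intCast_zmod_eq_zero_iff_dvd _ _).2 h0
        exact h1
      · intro h0
        apply hm p hp'
        have h1 : (p : ℤ) ∣ f.eval ((m + W * t : ℕ) : ℤ) - f.eval (m : ℤ) := by
          refine Dvd.dvd.trans ?_ (sub_dvd_eval_sub _ _ f)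
          push_cast
          rw [add_sub_cancel_left, hW]
          exact (Int.natCast_dvd_natCast.2 (Finset.dvd_prod_of_mem _ hp')).mul_right _
        exact (dvd_sub_right h0).1 h1
  obtain ⟨m, hm⟩ := key A.natAbs.primeFactors fun q hq =>
    ⟨Nat.prime_of_mem_primeFactors hq, Int.natCast_dvd.2 (Nat.dvd_of_mem_primeFactors hq)⟩
  refine ⟨m, ?_⟩
  rw [Int.isCoprime_iff_gcd_eq_one]
  by_contra hne
  obtain ⟨p, hp, hpd⟩ := Nat.exists_prime_and_dvd hne
  have h1 : (p : ℤ) ∣ f.eval (m : ℤ) := (Int.natCast_dvd_natCast.2 hpd).trans (Int.gcd_dvd_left _ _)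
  have h2 : (p : ℤ) ∣ A := (Int.natCast_dvd_natCast.2 hpd).trans (Int.gcd_dvd_right _ _)
  exact hm p (Nat.mem_primeFactors.2 ⟨hp, Int.natCast_dvd.1 h2, Int.natAbs_ne_zero.2 hA⟩) h1

/-- Simultaneous congruences with a natural number. -/
lemma crt_nat {x y : ℤ} (h : IsCoprime x y) (hx : x ≠ 0) (hy : y ≠ 0) (a b : ℤ) :
    ∃ m : ℕ, x ∣ m - a ∧ y ∣ m - b := by
  obtain ⟨s, t, hst⟩ := h
  obtain ⟨c, hc⟩ : ∃ c, c = a * (t * y) + b * (s * x) := ⟨_, rfl⟩
  refine ⟨(c + |c| * |x * y|).toNat, ?_⟩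
  have h1 : 0 ≤ c + |c| * |x * y| := by
    have h2 : 1 ≤ |x * y| := Int.one_le_abs (mul_ne_zero hx hy)
    have h3 := neg_abs_le c
    have h4 := abs_nonneg c
    nlinarith
  rw [Int.toNat_of_nonneg h1]
  obtain ⟨ε, hε⟩ : ∃ ε, |x * y| = ε * (x * y) := by
    rcases abs_choice (x * y) with h2 | h2
    · exact ⟨1, by rw [h2, one_mul]⟩
    · exact ⟨-1, by rw [h2]; ring⟩
  rw [hε]
  exact ⟨⟨b * s - a * s + |c| * ε * y, by linear_combination hc + a * hst⟩,
    ⟨a * t - b * t + |c| * ε * x, by linear_combination hc + b * hst⟩⟩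

/-- The arithmetic of the modification. -/
lemma num {A₁ Q Cc p Δ : ℤ} (hQ : IsCoprime Q A₁) (hC : IsCoprime Cc A₁) (hp : IsCoprime p A₁)
    (hΔ : IsCoprime Δ A₁) : ∃ J E : ℤ, Q ∣ J ∧ 1 + J * Cc = A₁ * E ∧ A₁ ∣ p * E - Δ ∧
      IsCoprime E A₁ := by
  obtain ⟨s, t, hst⟩ := hp
  obtain ⟨s', t', hst'⟩ : IsCoprime (Q * Cc) (A₁ ^ 2) := (hQ.mul_left hC).pow_right
  obtain ⟨E₀, hE₀⟩ : ∃ E₀, E₀ = s * Δ := ⟨_, rfl⟩
  have h1 : A₁ ∣ p * (E₀ - A₁ * t' * (A₁ * E₀ - 1)) - Δ := by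
    refine ⟨-(t * Δ) - p * t' * (A₁ * E₀ - 1), ?_⟩
    rw [hE₀]
    linear_combination Δ * hst
  refine ⟨Q * s' * (A₁ * E₀ - 1), E₀ - A₁ * t' * (A₁ * E₀ - 1), ?_, ?_, h1, ?_⟩
  · rw [mul_assoc]; exact dvd_mul_right _ _
  · linear_combination (A₁ * E₀ - 1) * hst'
  · obtain ⟨c, hc⟩ := h1
    have h2 : p * (E₀ - A₁ * t' * (A₁ * E₀ - 1)) = Δ + c * A₁ := by linear_combination hc
    have h3 : IsCoprime (p * (E₀ - A₁ * t' * (A₁ * E₀ - 1))) A₁ := by
      rw [h2]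
      exact hΔ.add_mul_right_left _
    exact h3.of_mul_left_right

end Pool.Agent.Run7.h25.TV
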