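import Pool.Agent.Run7.h25.TV.Sus

/-!
# Two transvections with the same axis
-/

set_option autoImplicit false
set_option linter.unusedSectionVars false

namespace Pool.Agent.Run7.h25.TV

open Matrix Pool.Agent.Helper460_CSP

variable {ι : Type} [DecidableEq ι] [Fintype ι] {H : Subgroup (SpecialLinearGroup ι ℤ)}

/-- The vectors with a multiple in `W`. -/
def Sat (W : AddSubgroup (ι → ℤ)) : Submodule ℤ (ι → ℤ) where
  carrier := {y | ∃ q : ℤ, q ≠ 0 ∧ q • y ∈ W}
  add_mem' := by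
    rintro a b ⟨q, hq, h1⟩ ⟨q', hq', h2⟩
    refine ⟨q * q', mul_ne_zero hq hq', ?_⟩
    rw [smul_add]
    refine add_mem ?_ ?_
    · rw [mul_comm, mul_smul]; exact W.zsmul_mem h1 _
    · rw [mul_smul]; exact W.zsmul_mem h2 _
  zero_mem' := ⟨1, one_ne_zero, by rw [smul_zero]; exact zero_mem _⟩
  smul_mem' := by
    rintro c a ⟨q, hq, h1⟩
    exact ⟨q, hq, by rw [smul_comm]; exact W.zsmul_mem h1 _⟩

lemma sat (W : AddSubgroup (ι → ℤ)) (x : ι → ℤ) :
    (∃ q : ℤ, q ≠ 0 ∧ q • x ∈ W) ∨ ∃ ψ : ι → ℤ, (∀ w ∈ W, ψ ⬝ᵥ w = 0) ∧ ψ ⬝ᵥ x ≠ 0 := by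
  by_cases hx : x ∈ Sat W
  · exact Or.inl hx
  right
  have htf : Module.IsTorsionFree ℤ ((ι → ℤ) ⧸ Sat W) := by
    refine Module.IsTorsionFree.of_smul_eq_zero fun r m hm => ?_
    obtain ⟨y, rfl⟩ := Submodule.Quotient.mk_surjective _ m
    by_cases hr : r = 0
    · exact Or.inl hr
    · right
      rw [← Submodule.Quotient.mk_smul, Submodule.Quotient.mk_eq_zero] at hm
      rw [Submodule.Quotient.mk_eq_zero]
      obtain ⟨q, hq, h1⟩ := hm
      exact ⟨q * r, mul_ne_zero hq hr, by rwa [mul_smul]⟩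
  have hfree : Module.Free ℤ ((ι → ℤ) ⧸ Sat W) := Module.free_of_finite_type_torsion_free'
  let b := Module.Free.chooseBasis ℤ ((ι → ℤ) ⧸ Sat W)
  have hx0 : (Submodule.Quotient.mk x : (ι → ℤ) ⧸ Sat W) ≠ 0 := by
    rwa [Ne, Submodule.Quotient.mk_eq_zero]
  obtain ⟨i, hi⟩ : ∃ i, b.coord i (Submodule.Quotient.mk x) ≠ 0 := by
    by_contra hcon
    push Not at hcon
    exact hx0 (b.forall_coord_eq_zero_iff.1 hcon)
  let f : (ι → ℤ) →ₗ[ℤ] ℤ := (b.coord i).comp (Sat W).mkQ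
  have hf : ∀ y, (fun j => f (Pi.single j 1)) ⬝ᵥ y = f y := by
    intro y
    have h1 : y = ∑ j, y j • Pi.single j (1 : ℤ) := by
      ext k
      simp [Finset.sum_apply, Pi.single_apply]
    conv_rhs => rw [h1, map_sum]
    unfold dotProduct
    refine Finset.sum_congr rfl fun j _ => ?_
    rw [map_smul, smul_eq_mul, mul_comm]
  refine ⟨fun j => f (Pi.single j 1), fun w hw => ?_, ?_⟩
  · rw [hf]
    show b.coord i ((Sat W).mkQ w) = 0
    have : (Sat W).mkQ w = 0 := by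
      rw [Submodule.mkQ_apply, Submodule.Quotient.mk_eq_zero]
      exact ⟨1, one_ne_zero, by rwa [one_smul]⟩
    rw [this, map_zero]
  · rw [hf]
    exact hi

lemma ind_of {f g v : ι → ℤ} (hf : f ≠ 0) (h1 : f ⬝ᵥ v = 0) (h2 : g ⬝ᵥ v ≠ 0) :
    ∃ i j, f i * g j - f j * g i ≠ 0 := by
  by_contra hcon
  push Not at hcon
  apply hf
  ext i
  have h3 : f i * (g ⬝ᵥ v) = (f ⬝ᵥ v) * g i := by
    unfold dotProduct
    rw [Finset.mul_sum, Finset.sum_mul]
    refine Finset.sum_congr rfl fun j _ => ?_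
    linear_combination v j * hcon i j
  rw [h1, zero_mul] at h3
  exact (mul_eq_zero.1 h3).resolve_right h2

variable [Big ι]

/-- The span of the vectors of transvections with a given axis. -/
theorem span {v w φ : ι → ℤ} (hH : Zd H) (hφ : φ ≠ 0) (h1 : Tr H v φ) (h2 : Tr H w φ)
    (hvw : ∃ i j, v i * w j - v j * w i ≠ 0) (x : ι → ℤ) (hx : φ ⬝ᵥ x = 0) :
    ∃ q : ℤ, q ≠ 0 ∧ Tr H (q • x) φ := by
  rcases sat (Lf H φ) x with h | ⟨ψ, hψ, hψx⟩
  · exact h
  exfalso
  have hv : v ≠ 0 := by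
    rintro rfl
    obtain ⟨i, j, hij⟩ := hvw
    simp at hij
  obtain ⟨g, hg⟩ := ex_two (ind_of hφ hx hψx) hvw
  obtain ⟨g', hg'⟩ := ex_one' hφ hv
  have p1 : PF (fun g : SpecialLinearGroup ι ℤ =>
      (φ ⬝ᵥ av g v) * (ψ ⬝ᵥ av g w) - (φ ⬝ᵥ av g w) * (ψ ⬝ᵥ av g v)) :=
    ((PF.dot φ v).mul (PF.dot ψ w)).sub ((PF.dot φ w).mul (PF.dot ψ v))
  obtain ⟨c, hc⟩ := PF.generic p1 (PF.doti φ v) hg hg'
  obtain ⟨h, hh, hne⟩ := PF.transfer (p1.mul (PF.doti φ v)) hH hc
  have t1 : Tr H ((φ ⬝ᵥ av h w) • v + (-(φ ⬝ᵥ av h v)) • w) φ := (h1.smulv _).addv (h2.smulv _)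
  have t2 := t1.conj hh
  have e0 : av h ((φ ⬝ᵥ av h w) • v + (-(φ ⬝ᵥ av h v)) • w) =
      (φ ⬝ᵥ av h w) • av h v + (-(φ ⬝ᵥ av h v)) • av h w := by
    rw [av_add, av_smul, av_smul]
  rw [e0] at t2
  have t3 := t2.comm h1 (by
    rw [dotProduct_add, dotProduct_smul, dotProduct_smul, smul_eq_mul, smul_eq_mul]
    ring)
  have t4 := hψ _ t3
  rw [dotProduct_smul, dotProduct_add, dotProduct_smul, dotProduct_smul, cv_dot] at t4
  simp only [smul_eq_mul] at t4
  apply hne
  linear_combination -t4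

omit [Big ι] in
/-- A matrix with rows in the orbit of a linear form. -/
lemma rows {φ : ι → ℤ} (hH : Zd H) (hφ : φ ≠ 0) : ∃ h : ι → SpecialLinearGroup ι ℤ,
    (∀ i, h i ∈ H) ∧ (Matrix.of fun i j => cv (h i) φ j).det ≠ 0 := by
  obtain ⟨k, hk⟩ := Function.ne_iff.1 hφ
  have hk' : φ k ≠ 0 := hk
  let g : ι → SpecialLinearGroup ι ℤ := fun i => if h : k = i then 1 else tv k i h 1
  have hg : (Matrix.of fun i j => cv (g i) φ j).det ≠ 0 := by
    intro h0
    obtain ⟨x, hx, hx0⟩ := Matrix.exists_mulVec_eq_zero_iff.2 h0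
    have h1 : ∀ i, cv (g i) φ ⬝ᵥ x = 0 := fun i => congrFun hx0 i
    have h2 : φ ⬝ᵥ x = 0 := by
      have := h1 k
      rw [cv_dot] at this
      simp only [g, dif_pos rfl, av_one] at this
      exact this
    have h3 : ∀ i, i ≠ k → x i = 0 := by
      intro i hi
      have := h1 i
      rw [cv_dot] at this
      simp only [g, dif_neg (Ne.symm hi)] at this
      rw [dot_tv, h2, zero_add, one_mul] at this
      exact (mul_eq_zero.1 this).resolve_left hk'
    apply hx
    ext i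
    by_cases hi : i = k
    · subst hi
      have h4 : φ ⬝ᵥ x = φ i * x i := by
        unfold dotProduct
        rw [Finset.sum_eq_single i]
        · intro j _ hj
          rw [h3 j hj, mul_zero]
        · intro h; exact absurd (Finset.mem_univ _) h
      rw [h2] at h4
      exact (mul_eq_zero.1 h4.symm).resolve_left hk'
    · exact h3 i hi
  have key : ∀ S : Finset ι, ∃ h : ι → SpecialLinearGroup ι ℤ,
      (∀ i ∈ S, h i ∈ H) ∧ (Matrix.of fun i j => cv (h i) φ j).det ≠ 0 := by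
    intro S
    induction S using Finset.induction_on with
    | empty => exact ⟨g, fun i hi => absurd hi (Finset.notMem_empty _), hg⟩
    | insert a S ha ih =>
      obtain ⟨h, hh, hd⟩ := ih
      obtain ⟨P, hP⟩ : ∃ P : Matrix ι ι ℤ, P = Matrix.of fun i j => cv (h i) φ j := ⟨_, rfl⟩
      let c : ι → ℤ := fun j => P.adjugate j a
      have hc : ∀ y : ι → ℤ, (P.updateRow a y).det = y ⬝ᵥ c := by
        intro y
        have h1 : y = ∑ j, y j • (Pi.single j (1 : ℤ) : ι → ℤ) := by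
          ext k
          simp [Finset.sum_apply, Pi.single_apply]
        let L : (ι → ℤ) →ₗ[ℤ] ℤ :=
          (Matrix.detRowAlternating (n := ι) (R := ℤ)).toMultilinearMap.toLinearMap P a
        have hL : ∀ y, (P.updateRow a y).det = L y := fun y => rfl
        conv_lhs => rw [hL, h1, map_sum]
        unfold dotProduct
        refine Finset.sum_congr rfl fun j _ => ?_
        rw [map_smul, ← hL, ← Matrix.adjugate_apply, smul_eq_mul]
      have hx : ∀ x : SpecialLinearGroup ι ℤ,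
          (Matrix.of fun i j => cv ((Function.update h a x) i) φ j) =
            P.updateRow a (cv x φ) := by
        intro x
        ext i j
        by_cases hi : i = a
        · subst hi
          rw [Matrix.updateRow_self, Matrix.of_apply, Function.update_self]
        · rw [Matrix.updateRow_ne hi, hP, Matrix.of_apply, Matrix.of_apply,
            Function.update_of_ne hi]
      have hne : φ ⬝ᵥ av (h a) c ≠ 0 := by
        rw [← cv_dot, ← hc, ← hx, Function.update_eq_self]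
        exact hd
      obtain ⟨k, hk, hk2⟩ := PF.transfer (PF.dot φ c) hH hne
      refine ⟨Function.update h a k, ?_, ?_⟩
      · intro i hi
        by_cases hia : i = a
        · subst hia
          rw [Function.update_self]
          exact hk
        · rw [Function.update_of_ne hia]
          exact hh i ((Finset.mem_insert.1 hi).resolve_left hia)
      · rw [hx, hc, cv_dot]
        exact hk2
  obtain ⟨h, hh, hd⟩ := key Finset.univ
  exact ⟨h, fun i => hh i (Finset.mem_univ _), hd⟩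

omit [Big ι] in
/-- The elements which are intertwined by `P` with an element of `H`. -/
def Tw (P : Matrix ι ι ℤ) (H : Subgroup (SpecialLinearGroup ι ℤ)) :
    Subgroup (SpecialLinearGroup ι ℤ) where
  carrier := {B | ∃ A ∈ H, P * mt A = mt B * P}
  mul_mem' := by
    rintro B B' ⟨A, hA, h1⟩ ⟨A', hA', h2⟩
    refine ⟨A * A', mul_mem hA hA', ?_⟩
    rw [mt_mul, mt_mul, ← Matrix.mul_assoc, h1, Matrix.mul_assoc, h2, Matrix.mul_assoc]
  one_mem' := ⟨1, one_mem _, by rw [mt_one, Matrix.mul_one, Matrix.one_mul]⟩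
  inv_mem' := by
    rintro B ⟨A, hA, h1⟩
    refine ⟨A⁻¹, inv_mem hA, ?_⟩
    have e1 : mt A * mt A⁻¹ = 1 := by rw [← mt_mul, mul_inv_cancel, mt_one]
    have e2 : mt B⁻¹ * mt B = 1 := by rw [← mt_mul, inv_mul_cancel, mt_one]
    calc P * mt A⁻¹ = (mt B⁻¹ * mt B) * (P * mt A⁻¹) := by rw [e2, Matrix.one_mul]
      _ = mt B⁻¹ * ((mt B * P) * mt A⁻¹) := by simp only [Matrix.mul_assoc]
      _ = mt B⁻¹ * (P * (mt A * mt A⁻¹)) := by rw [← h1]; simp only [Matrix.mul_assoc]
      _ = _ := by rw [e1, Matrix.mul_one]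

/-- **A Zariski dense subgroup with two transvections with the same axis has finite index.** -/
theorem same_axis {v w φ : ι → ℤ} (hH : Zd H) (hφ : φ ≠ 0) (h1 : Tr H v φ) (h2 : Tr H w φ)
    (hvw : ∃ i j, v i * w j - v j * w i ≠ 0) : Fi H := by
  obtain ⟨h, hh, hD⟩ := rows hH hφ
  obtain ⟨P, hP⟩ : ∃ P : Matrix ι ι ℤ, P = Matrix.of fun i j => cv (h i) φ j := ⟨_, rfl⟩
  rw [← hP] at hD
  obtain ⟨D, hDe⟩ : ∃ D, D = P.det := ⟨_, rfl⟩
  rw [← hDe] at hD
  have hrow : ∀ i (x : ι → ℤ), cv (h i) φ ⬝ᵥ x = (P *ᵥ x) i := by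
    intro i x
    rw [hP]; rfl
  have hf : ∀ j, P *ᵥ (P.adjugate *ᵥ Pi.single j 1) = Pi.single j D := by
    intro j
    rw [mulVec_mulVec, mul_adjugate, ← hDe, smul_mulVec, one_mulVec, ← Pi.single_smul,
      smul_eq_mul, mul_one]
  have key : ∀ i j, ∃ q : ℤ, q ≠ 0 ∧ (i ≠ j →
      Tr H (q • (P.adjugate *ᵥ Pi.single j 1)) (cv (h i) φ)) := by
    intro i j
    by_cases hij : i = j
    · exact ⟨1, one_ne_zero, fun h => absurd hij h⟩
    · obtain ⟨q, hq, ht⟩ := span hH hφ h1 h2 hvw (av (h i) (P.adjugate *ᵥ Pi.single j 1)) (by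
        rw [← cv_dot, hrow, hf, Pi.single_eq_of_ne hij])
      refine ⟨q, hq, fun _ => ?_⟩
      have := ht.conj (inv_mem (hh i))
      rwa [av_smul, av_inv_av, inv_inv] at this
  choose q hq hqt using key
  obtain ⟨Q, hQ⟩ : ∃ Q, Q = ∏ i, ∏ j, q i j := ⟨_, rfl⟩
  have hQ0 : Q ≠ 0 := by
    rw [hQ]
    exact Finset.prod_ne_zero_iff.2 fun i _ => Finset.prod_ne_zero_iff.2 fun j _ => hq i j
  have hQd : ∀ i j, q i j ∣ Q := fun i j => by
    rw [hQ]
    exact (Finset.dvd_prod_of_mem _ (Finset.mem_univ j)).trans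
      (Finset.dvd_prod_of_mem (fun i => ∏ j, q i j) (Finset.mem_univ i))
  have hT : ∀ i j, i ≠ j → Tr H (Q • (P.adjugate *ᵥ Pi.single j 1)) (cv (h i) φ) := by
    intro i j hij
    obtain ⟨c, hc⟩ := hQd i j
    rw [hc, mul_comm, mul_smul]
    exact (hqt i j hij).smulv c
  have hTw : ∀ j i (hji : j ≠ i), tv j i hji (Q * D) ∈ Tw P H := by
    intro j i hji
    obtain ⟨_, A, hA, hA'⟩ := hT i j hji.symm
    refine ⟨A, hA, ?_⟩
    have h3 : mt (tv j i hji (Q * D)) = 1 + vecMulVec (Pi.single j (Q * D)) (Pi.single i 1) := by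
      rw [vv_single, mul_one]; rfl
    have h4 : (Pi.single i 1 : ι → ℤ) ᵥ* P = cv (h i) φ := by
      rw [single_one_vecMul, hP]; rfl
    rw [hA', h3, mul_add, add_mul, mul_one, one_mul, mul_vecMulVec, vecMulVec_mul, mulVec_smul, hf,
      ← Pi.single_smul, smul_eq_mul, h4]
  have hEl := S4 hTw
  obtain ⟨M, hM⟩ : ∃ M, M = (Q * D) * (Q * D) := ⟨_, rfl⟩
  rw [← hM] at hEl
  have hM0 : M ≠ 0 := by
    rw [hM]
    exact mul_ne_zero (mul_ne_zero hQ0 hD) (mul_ne_zero hQ0 hD)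
  have hall : ∀ A : SpecialLinearGroup ι ℤ, Cgr (M * D) A → A ∈ H := by
    intro A hA
    choose X hX using hA
    have hX' : mt A = 1 + (M * D) • (Matrix.of X) := by
      ext i j
      rw [Matrix.add_apply, Matrix.smul_apply, smul_eq_mul, Matrix.of_apply, ← hX]
      ring
    have hBP : (1 + M • (P * Matrix.of X * P.adjugate)) * P = P * mt A := by
      rw [hX', add_mul, one_mul, mul_add, mul_one, Matrix.smul_mul, Matrix.mul_assoc _ _ P,
        adjugate_mul, ← hDe, Matrix.mul_smul, Matrix.mul_smul, Matrix.mul_one, smul_smul]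
    have hdet : (1 + M • (P * Matrix.of X * P.adjugate)).det = 1 := by
      have h5 := congrArg Matrix.det hBP
      rw [det_mul, det_mul, ← hDe] at h5
      have h6 : (mt A).det = 1 := A.2
      rw [h6, mul_one] at h5
      exact mul_right_cancel₀ hD (h5.trans (one_mul D).symm)
    have hB := Big.bls M hM0 (⟨_, hdet⟩ : SpecialLinearGroup ι ℤ) (by
      intro i j
      show M ∣ (1 + M • (P * Matrix.of X * P.adjugate)) i j - (1 : Matrix ι ι ℤ) i j
      rw [Matrix.add_apply, add_sub_cancel_left, Matrix.smul_apply, smul_eq_mul]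
      exact dvd_mul_right _ _)
    obtain ⟨A', hA', h7⟩ := hEl hB
    have h8 : P * mt A' = P * mt A := h7.trans hBP
    have h9 : D • mt A' = D • mt A := by
      have := congrArg (fun Z => P.adjugate * Z) h8
      simp only [← Matrix.mul_assoc, adjugate_mul, ← hDe] at this
      rwa [Matrix.smul_mul, Matrix.one_mul, Matrix.smul_mul, Matrix.one_mul] at this
    have h10 : A' = A := by
      apply mt_inj
      ext i j
      have := congrFun (congrFun h9 i) j
      rw [Matrix.smul_apply, Matrix.smul_apply, smul_eq_mul, smul_eq_mul] at this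
      exact mul_left_cancel₀ hD this
    rwa [← h10]
  exact ⟨M * D, mul_ne_zero hM0 hD, hall⟩

/-- **A Zariski dense subgroup with an asymmetric pair of transvections has finite index.** -/
theorem asymm {v w φ ψ : ι → ℤ} (hH : Zd H) (hv : v ≠ 0) (hψ : ψ ≠ 0) (h1 : Tr H v φ)
    (h2 : Tr H w ψ) (h3 : ψ ⬝ᵥ v = 0) (h4 : φ ⬝ᵥ w ≠ 0) : Fi H := by
  obtain ⟨i, j, hij⟩ := ind_of (f := v) (g := w) (v := φ) hv (by rw [dotProduct_comm, h1.1])
    (by rwa [dotProduct_comm])
  refine same_axis hH hψ (h1.comm h2 h3) h2 ⟨i, j, ?_⟩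
  rw [Pi.smul_apply, Pi.smul_apply, smul_eq_mul, smul_eq_mul]
  have : φ ⬝ᵥ w * v i * w j - φ ⬝ᵥ w * v j * w i = φ ⬝ᵥ w * (v i * w j - v j * w i) := by ring
  rw [this]
  exact mul_ne_zero h4 hij

end Pool.Agent.Run7.h25.TV
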