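import Pool.Agent.Run7.h25.TV.Gen

/-!
# Subgroups with all elementary matrices of some level
-/

set_option autoImplicit false
set_option linter.unusedSectionVars false

namespace Pool.Agent.Run7.h25.TV

open Matrix Pool.Agent.Helper460_CSP

variable {ι : Type} [DecidableEq ι] [Fintype ι] {H : Subgroup (SpecialLinearGroup ι ℤ)}

lemma vv_single (i j : ι) (a b : ℤ) :
    vecMulVec (Pi.single i a : ι → ℤ) (Pi.single j b) = Matrix.single i j (a * b) := by
  ext r s
  rw [vecMulVec_apply, Matrix.single_apply, Pi.single_apply, Pi.single_apply]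
  by_cases h1 : r = i
  · by_cases h2 : s = j
    · rw [if_pos h1, if_pos h2, if_pos ⟨h1.symm, h2.symm⟩]
    · rw [if_neg h2, mul_zero, if_neg (fun h => h2 h.2.symm)]
  · rw [if_neg h1, zero_mul, if_neg (fun h => h1 h.1.symm)]

lemma Tr.single {q : ℤ} (hq : ∀ i j (h : i ≠ j), tv i j h q ∈ H) {i j : ι} (h : i ≠ j) {a b : ℤ}
    (hd : q ∣ a * b) : Tr H (Pi.single i a) (Pi.single j b) := by
  refine ⟨?_, tv i j h (a * b), tv_mem (hq i j h) hd, ?_⟩
  · rw [dotProduct_single, Pi.single_eq_of_ne h, zero_mul]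
  · rw [vv_single]; rfl

lemma Tr.negf {v φ : ι → ℤ} (h1 : Tr H v φ) : Tr H v (-φ) := by
  have := h1.smulf (-1)
  rwa [neg_smul, one_smul] at this

variable (H) in
/-- The linear forms `φ` with `1 + v ⊗ φ` in `H`. -/
def Lv (v : ι → ℤ) : AddSubgroup (ι → ℤ) where
  carrier := {φ | Tr H v φ}
  add_mem' := Tr.addf
  zero_mem' := Tr.zerof
  neg_mem' := Tr.negf

/-- The linear form `v_j e_i - v_i e_j`. -/
def om (v : ι → ℤ) (i j : ι) : ι → ℤ := Pi.single i (v j) - Pi.single j (v i)

lemma om_smul (a : ℤ) (v : ι → ℤ) (i j : ι) :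
    a • om v i j = Pi.single i (a * v j) + Pi.single j (a * (-v i)) := by
  unfold om
  rw [smul_sub, ← Pi.single_smul, ← Pi.single_smul, smul_eq_mul, smul_eq_mul, mul_neg,
    Pi.single_neg, sub_eq_add_neg]

lemma om_dot_single (v : ι → ℤ) (i j k : ι) (c : ℤ) (h1 : k ≠ i) (h2 : k ≠ j) :
    om v i j ⬝ᵥ Pi.single k c = 0 := by
  unfold om
  rw [dotProduct_single, Pi.sub_apply, Pi.single_eq_of_ne h1, Pi.single_eq_of_ne h2, sub_zero,
    zero_mul]

variable [Big ι]

lemma S2 {q : ℤ} (hq : ∀ i j (h : i ≠ j), tv i j h q ∈ H) (v : ι → ℤ) (a : ℤ) (i j : ι) :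
    Tr H ((q * q) • v) (a • om v i j) := by
  by_cases hij : i = j
  · subst hij
    have : om v i i = 0 := by unfold om; rw [sub_self]
    rw [this, smul_zero]
    exact Tr.zerof
  have hk : ∀ k, k ≠ i → k ≠ j → ∀ x, q ∣ x → Tr H (Pi.single k x) (a • om v i j) := by
    intro k h1 h2 x hx
    rw [om_smul]
    exact (Tr.single hq h1 (hx.mul_right _)).addf (Tr.single hq h2 (hx.mul_right _))
  have hv : v = (Pi.single i (v i) + Pi.single j (v j)) +
      ∑ k ∈ (Finset.univ.erase i).erase j, Pi.single k (v k) := by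
    conv_lhs => rw [← Finset.univ_sum_single v]
    rw [← Finset.add_sum_erase _ _ (Finset.mem_univ i),
      ← Finset.add_sum_erase _ _ (Finset.mem_erase.2 ⟨Ne.symm hij, Finset.mem_univ j⟩), add_assoc]
  have h1 : Tr H ((q * q) • (Pi.single i (v i) + Pi.single j (v j))) (a • om v i j) := by
    obtain ⟨k, hki, hkj⟩ := third i j
    have e1 : Tr H (Pi.single i (v i) + Pi.single j (v j)) (Pi.single k q) :=
      (Tr.single hq hki.symm (dvd_mul_left _ _)).addv (Tr.single hq hkj.symm (dvd_mul_left _ _))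
    have e2 := e1.comm (hk k hki hkj q (dvd_refl q)) (by
      rw [smul_dotProduct]
      unfold om
      rw [sub_dotProduct, single_dotProduct, single_dotProduct, Pi.add_apply, Pi.add_apply,
        Pi.single_eq_same, Pi.single_eq_same, Pi.single_eq_of_ne hij,
        Pi.single_eq_of_ne (Ne.symm hij)]
      simp only [smul_eq_mul]
      ring)
    rwa [dotProduct_single, Pi.single_eq_same] at e2
  have h2 : Tr H ((q * q) • ∑ k ∈ (Finset.univ.erase i).erase j, Pi.single k (v k))
      (a • om v i j) := by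
    rw [Finset.smul_sum]
    show _ ∈ Lf H (a • om v i j)
    apply sum_mem
    intro k hk'
    rw [Finset.mem_erase, Finset.mem_erase] at hk'
    rw [← Pi.single_smul, smul_eq_mul]
    exact hk k hk'.2.1 hk'.1 _ (Dvd.intro _ (by ring : q * (q * v k) = q * q * v k))
  have h3 := h1.addv h2
  rw [← smul_add, ← hv] at h3
  exact h3

omit [Big ι] in
lemma om_sum {r v ψ : ι → ℤ} (hr : r ⬝ᵥ v = 1) (hψ : ψ ⬝ᵥ v = 0) :
    ∑ i, ∑ j, (ψ i * r j) • om v i j = ψ := by
  have hr' : ∑ j, r j * v j = 1 := hr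
  have hψ' : ∑ j, ψ j * v j = 0 := hψ
  ext k
  simp only [Finset.sum_apply, Pi.smul_apply, om, Pi.sub_apply, Pi.single_apply, smul_eq_mul,
    mul_sub, Finset.sum_sub_distrib, mul_ite, mul_zero]
  have e1 : ∑ i, ∑ j, (if k = i then ψ i * r j * v j else 0) = ψ k := by
    rw [Finset.sum_eq_single k]
    · simp only [if_true]
      rw [Finset.sum_congr rfl (fun j _ => mul_assoc _ _ _), ← Finset.mul_sum, hr', mul_one]
    · intro i _ hi
      simp only [if_neg (Ne.symm hi), Finset.sum_const_zero]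
    · intro h; exact absurd (Finset.mem_univ _) h
  have e2 : ∑ i, ∑ j, (if k = j then ψ i * r j * v i else 0) = 0 := by
    have : ∀ i, ∑ j, (if k = j then ψ i * r j * v i else 0) = (ψ i * v i) * r k := by
      intro i
      rw [Finset.sum_ite_eq, if_pos (Finset.mem_univ _)]
      ring
    rw [Finset.sum_congr rfl (fun i _ => this i), ← Finset.sum_mul, hψ', zero_mul]
  rw [e1, e2, sub_zero]

lemma S3 {q : ℤ} (hq : ∀ i j (h : i ≠ j), tv i j h q ∈ H) {r v ψ : ι → ℤ} (hr : r ⬝ᵥ v = 1)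
    (hψ : ψ ⬝ᵥ v = 0) : Tr H ((q * q) • v) ψ := by
  rw [← om_sum hr hψ]
  show _ ∈ Lv H ((q * q) • v)
  apply sum_mem
  intro i _
  apply sum_mem
  intro j _
  exact S2 hq v _ i j

/-- **Suslin.** A subgroup with all elementary matrices of level `q` contains the normal closure of
the elementary matrices of level `q ^ 2`. -/
theorem S4 {q : ℤ} (hq : ∀ i j (h : i ≠ j), tv i j h q ∈ H) : El ι (q * q) ≤ H := by
  unfold El Subgroup.normalClosure
  rw [Subgroup.closure_le]
  intro x hx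
  obtain ⟨z, ⟨i, j, hij, rfl⟩, hz⟩ := Group.mem_conjugatesOfSet_iff.1 hx
  obtain ⟨g, rfl⟩ := isConj_iff.1 hz
  have h1 : Tr H ((q * q) • av g (Pi.single i 1)) (cv g⁻¹ (Pi.single j 1)) := by
    apply S3 hq (r := cv g⁻¹ (Pi.single i 1))
    · rw [cv_dot, av_inv_av, dotProduct_single, Pi.single_eq_same, mul_one]
    · rw [cv_dot, av_inv_av, dotProduct_single, Pi.single_eq_of_ne hij, zero_mul]
  obtain ⟨_, A, hA, hA'⟩ := h1
  have h2 : g * tv i j hij (q * q) * g⁻¹ = A := by
    apply mt_inj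
    rw [hA', mt_mul, mt_mul]
    have h3 : mt (tv i j hij (q * q)) = 1 + vecMulVec (Pi.single i (q * q)) (Pi.single j 1) := by
      rw [vv_single, mul_one]; rfl
    have h4 : mt g * mt g⁻¹ = 1 := by rw [← mt_mul, mul_inv_cancel, mt_one]
    rw [h3, mul_add, mul_one, add_mul, h4, mul_vecMulVec, vecMulVec_mul, ← av_smul,
      ← Pi.single_smul, smul_eq_mul, mul_one]
    rfl
  show g * tv i j hij (q * q) * g⁻¹ ∈ H
  rw [h2]
  exact hA

end Pool.Agent.Run7.h25.TV
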