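import Pool.Agent.Run7.h25.TV.Uni

/-!
# The case of three by three matrices
-/

set_option autoImplicit false
set_option linter.unusedSectionVars false

namespace Pool.Agent.Run7.h25.TV

open Matrix Pool.Agent.Helper460_CSP

lemma adj3 (M : Matrix (Fin 3) (Fin 3) ℤ) :
    M.adjugate = M * M - M.trace • M + M.adjugate.trace • (1 : Matrix (Fin 3) (Fin 3) ℤ) := by
  ext i j
  rw [Matrix.add_apply, Matrix.sub_apply, Matrix.smul_apply, Matrix.smul_apply]
  fin_cases i <;> fin_cases j <;>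
    simp [Matrix.adjugate_fin_three, Matrix.trace_fin_three, Matrix.mul_apply,
      Fin.sum_univ_three] <;> ring

lemma det3 (M : Matrix (Fin 3) (Fin 3) ℤ) (x : ℤ) :
    (x • (1 : Matrix (Fin 3) (Fin 3) ℤ) + M).det =
      x ^ 3 + x ^ 2 * M.trace + x * M.adjugate.trace + M.det := by
  rw [Matrix.det_fin_three]
  simp only [Matrix.add_apply, Matrix.smul_apply, smul_eq_mul]
  simp [Matrix.adjugate_fin_three, Matrix.trace_fin_three, Matrix.det_fin_three]
  ring

lemma minors3 {M : Matrix (Fin 3) (Fin 3) ℤ} (h : M.adjugate = 0) (i j k l : Fin 3) :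
    M i j * M k l = M k j * M i l := by
  have h' : ∀ a b, M.adjugate a b = 0 := fun a b => by rw [h]; rfl
  have e00 := h' 0 0
  have e01 := h' 0 1
  have e02 := h' 0 2
  have e10 := h' 1 0
  have e11 := h' 1 1
  have e12 := h' 1 2
  have e20 := h' 2 0
  have e21 := h' 2 1
  have e22 := h' 2 2
  simp [Matrix.adjugate_fin_three] at e00 e01 e02 e10 e11 e12 e20 e21 e22
  fin_cases i <;> fin_cases j <;> fin_cases k <;> fin_cases l <;> simp <;> linarith

lemma col3 {M : Matrix (Fin 3) (Fin 3) ℤ} {v : Fin 3 → ℤ} (h : M *ᵥ v = 0) (i k l : Fin 3) :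
    M.adjugate k l * v i = M.adjugate i l * v k := by
  have e0 := congrFun h 0
  have e1 := congrFun h 1
  have e2 := congrFun h 2
  simp [Matrix.mulVec, dotProduct, Fin.sum_univ_three] at e0 e1 e2
  fin_cases i <;> fin_cases k <;> fin_cases l <;> simp [Matrix.adjugate_fin_three] <;> grind

lemma row3 {M : Matrix (Fin 3) (Fin 3) ℤ} {φ : Fin 3 → ℤ} (h : φ ᵥ* M = 0) (j k l : Fin 3) :
    M.adjugate k l * φ j = M.adjugate k j * φ l := by
  have h1 : Mᵀ *ᵥ φ = 0 := by rw [mulVec_transpose]; exact h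
  have h2 := col3 h1 j l k
  rw [← adjugate_transpose] at h2
  exact h2

lemma smul_cancel {ι : Type} {s : ℤ} (hs : s ≠ 0) {M : Matrix ι ι ℤ} (h : s • M = 0) : M = 0 := by
  ext i j
  have := congrFun (congrFun h i) j
  rw [Matrix.smul_apply, smul_eq_mul] at this
  exact (mul_eq_zero.1 this).resolve_left hs

lemma smul_cancel' {ι : Type} {s : ℤ} (hs : s ≠ 0) {M M' : Matrix ι ι ℤ} (h : s • M = s • M') :
    M = M' := by
  rw [← sub_eq_zero]
  apply smul_cancel hs
  rw [smul_sub, h, sub_self]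

lemma nil3 {K : Matrix (Fin 3) (Fin 3) ℤ} (h3 : K * K * K = 0) :
    K.trace = 0 ∧ K.adjugate.trace = 0 ∧ K.det = 0 ∧ K.adjugate = K * K := by
  have hnil : IsNilpotent K := ⟨3, by rw [pow_succ, pow_two, h3]⟩
  have ht : K.trace = 0 := (Matrix.isNilpotent_trace_of_isNilpotent hnil).eq_zero
  have hd : K.det = 0 := by
    have h1 := congrArg Matrix.det h3
    rw [det_mul, det_mul, det_zero] at h1
    rcases mul_eq_zero.1 h1 with h2 | h2
    · exact (mul_self_eq_zero.1 h2)
    · exact h2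
  have ha := adj3 K
  rw [ht, zero_smul, sub_zero] at ha
  have hτ : K.adjugate.trace = 0 := by
    by_contra hne
    have h1 : K.adjugate.trace • K = 0 := by
      have h2 : K.adjugate * K = 0 := by rw [adjugate_mul, hd, zero_smul]
      rw [ha, Matrix.add_mul, h3, zero_add, Matrix.smul_mul, Matrix.one_mul] at h2
      exact h2
    have h2 := smul_cancel hne h1
    apply hne
    rw [h2]
    simp
  rw [hτ, zero_smul, add_zero] at ha
  exact ⟨ht, hτ, hd, ha⟩

lemma mt_zpow_sq0 {ι : Type} [DecidableEq ι] [Fintype ι] {z : SpecialLinearGroup ι ℤ}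
    {Z : Matrix ι ι ℤ} (hz : mt z = 1 + Z) (h2 : Z * Z = 0) (t : ℤ) : mt (z ^ t) = 1 + t • Z := by
  have hinv : mt z⁻¹ = 1 - Z := by
    apply mt_inv_eq
    rw [hz, Matrix.add_mul, Matrix.one_mul, Matrix.mul_sub, Matrix.mul_one, h2]
    abel
  induction t using Int.induction_on with
  | zero => rw [zpow_zero, mt_one, zero_smul, add_zero]
  | succ i ih =>
    rw [_root_.zpow_add_one, mt_mul, ih, hz, Matrix.add_mul, Matrix.one_mul, Matrix.mul_add,
      Matrix.mul_one, Matrix.smul_mul, h2, smul_zero, add_smul, one_smul]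
    abel
  | pred i ih =>
    rw [_root_.zpow_sub_one, mt_mul, ih, hinv, Matrix.add_mul, Matrix.one_mul, Matrix.mul_sub,
      Matrix.mul_one, Matrix.smul_mul, h2, smul_zero, sub_smul, one_smul]
    abel

/-- A power of a square-zero unipotent element is a transvection. -/
lemma tv_of_sq0 {z : SpecialLinearGroup (Fin 3) ℤ} {Z : Matrix (Fin 3) (Fin 3) ℤ}
    (hz : mt z = 1 + Z) (h2 : Z * Z = 0) (hZ : Z ≠ 0) :
    ∃ (c : ℤ) (v φ : Fin 3 → ℤ), c ≠ 0 ∧ IsTv (z ^ c) v φ ∧ c • Z = vecMulVec v φ := by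
  have hadj : Z.adjugate = 0 := by
    rw [(nil3 (by rw [h2, Matrix.zero_mul])).2.2.2, h2]
  obtain ⟨i, j, hij⟩ : ∃ i j, Z i j ≠ 0 := by
    by_contra hcon
    push Not at hcon
    exact hZ (by ext i j; exact hcon i j)
  have e1 : Z i j • Z = vecMulVec (fun k => Z k j) (Z i) := by
    ext k l
    rw [Matrix.smul_apply, smul_eq_mul, vecMulVec_apply]
    exact minors3 hadj i j k l
  have hv : (fun k => Z k j) ≠ 0 := fun h0 => hij (congrFun h0 i)
  have hφ : Z i ≠ 0 := fun h0 => hij (congrFun h0 j)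
  refine ⟨Z i j, fun k => Z k j, Z i, hij, ⟨hv, hφ, ?_, ?_⟩, e1⟩
  · have h3 : vecMulVec (fun k => Z k j) (Z i) * vecMulVec (fun k => Z k j) (Z i) = 0 := by
      rw [← e1, Matrix.smul_mul, Matrix.mul_smul, h2, smul_zero, smul_zero]
    rw [vecMulVec_mul_vecMulVec, vecMulVec_smul] at h3
    by_contra hne
    have h4 := smul_cancel hne h3
    rcases vecMulVec_eq_zero.1 h4 with h5 | h5
    · exact hv h5
    · exact hφ h5
  · rw [mt_zpow_sq0 hz h2, e1]

/-- A primitive vector on the line of `v`. -/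
lemma primitive {ι : Type} [DecidableEq ι] [Fintype ι] {v : ι → ℤ} (hv : v ≠ 0) :
    ∃ (d : ℤ) (v' r : ι → ℤ), d ≠ 0 ∧ v = d • v' ∧ r ⬝ᵥ v' = 1 := by
  let f : (ι → ℤ) →+ ℤ :=
    { toFun := fun r => r ⬝ᵥ v
      map_zero' := zero_dotProduct _
      map_add' := fun a b => add_dotProduct _ _ _ }
  obtain ⟨d, hd⟩ := Int.subgroup_cyclic f.range
  have h1 : ∀ r : ι → ℤ, d ∣ r ⬝ᵥ v := by
    intro r
    have h2 : r ⬝ᵥ v ∈ f.range := ⟨r, rfl⟩
    rw [hd, AddSubgroup.mem_closure_singleton] at h2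
    obtain ⟨c, hc⟩ := h2
    exact ⟨c, by rw [← hc, smul_eq_mul, mul_comm]⟩
  have h2 : ∀ i, d ∣ v i := by
    intro i
    have := h1 (Pi.single i 1)
    rwa [single_dotProduct, one_mul] at this
  choose v' hv' using h2
  have h3 : v = d • v' := by
    ext i
    rw [Pi.smul_apply, smul_eq_mul, hv']
  have hd0 : d ≠ 0 := by
    rintro rfl
    exact hv (by rw [h3, zero_smul])
  have h4 : d ∈ f.range := by
    rw [hd]
    exact AddSubgroup.mem_closure_singleton.2 ⟨1, by rw [one_smul]⟩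
  obtain ⟨r, hr⟩ := h4
  have hr' : r ⬝ᵥ v = d := hr
  refine ⟨d, v', r, hd0, h3, ?_⟩
  rw [h3, dotProduct_smul, smul_eq_mul] at hr'
  exact mul_left_cancel₀ hd0 (hr'.trans (mul_one d).symm)

/-- The square of an element which commutes with a transvection fixes the vector and the form. -/
lemma sq_fix {ι : Type} [DecidableEq ι] [Fintype ι] {z g : SpecialLinearGroup ι ℤ} {v φ : ι → ℤ}
    (hz : IsTv z v φ) (hc : g * z = z * g) :
    mt (g * g) *ᵥ v = v ∧ φ ᵥ* mt (g * g) = φ := by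
  obtain ⟨hv, hφ, hφv, hzm⟩ := hz
  have key : ∀ g : SpecialLinearGroup ι ℤ, g * z = z * g →
      vecMulVec (mt g *ᵥ v) φ = vecMulVec v (φ ᵥ* mt g) := by
    intro g hc
    have h1 : mt g * mt z = mt z * mt g := by rw [← mt_mul, hc, mt_mul]
    rw [hzm, Matrix.mul_add, Matrix.add_mul, Matrix.mul_one, Matrix.one_mul, mul_vecMulVec,
      vecMulVec_mul] at h1
    exact add_left_cancel h1
  obtain ⟨j, hj⟩ := Function.ne_iff.1 hφ
  have hj' : φ j ≠ 0 := hj
  obtain ⟨d, v', r, hd, hvd, hr⟩ := primitive hv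
  have key2 : ∀ g : SpecialLinearGroup ι ℤ, g * z = z * g → ∃ e : ℤ, mt g *ᵥ v' = e • v' := by
    intro g hc
    have h1 : φ j • (mt g *ᵥ v) = (φ ᵥ* mt g) j • v := by
      ext a
      have := congrFun (congrFun (key g hc) a) j
      rw [vecMulVec_apply, vecMulVec_apply] at this
      rw [Pi.smul_apply, Pi.smul_apply, smul_eq_mul, smul_eq_mul]
      linear_combination this
    have h2 : φ j • (mt g *ᵥ v') = (φ ᵥ* mt g) j • v' := by
      rw [hvd, mulVec_smul, smul_comm, smul_comm _ d] at h1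
      ext a
      have := congrFun h1 a
      rw [Pi.smul_apply, Pi.smul_apply, smul_eq_mul, smul_eq_mul] at this
      exact mul_left_cancel₀ hd this
    have h3 := congrArg (fun y => r ⬝ᵥ y) h2
    simp only [dotProduct_smul, hr, smul_eq_mul, mul_one] at h3
    refine ⟨r ⬝ᵥ (mt g *ᵥ v'), ?_⟩
    rw [← h3] at h2
    ext a
    have := congrFun h2 a
    rw [Pi.smul_apply, Pi.smul_apply, smul_eq_mul, smul_eq_mul] at this
    rw [Pi.smul_apply, smul_eq_mul]
    exact mul_left_cancel₀ hj' (by rw [this]; ring)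
  obtain ⟨e, he⟩ := key2 g hc
  have hci : g⁻¹ * z = z * g⁻¹ := by
    have : Commute g z := hc
    exact this.inv_left
  obtain ⟨e', he'⟩ := key2 g⁻¹ hci
  have hee : e * e' = 1 := by
    have h1 : mt g⁻¹ *ᵥ (mt g *ᵥ v') = v' := by
      rw [mulVec_mulVec, ← mt_mul, inv_mul_cancel, mt_one, one_mulVec]
    rw [he, mulVec_smul, he', smul_smul] at h1
    have h2 := congrArg (fun y => r ⬝ᵥ y) h1
    simp only [dotProduct_smul, hr, smul_eq_mul, mul_one] at h2
    exact h2
  have he2 : e * e = 1 := by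
    rcases Int.isUnit_iff.1 (IsUnit.of_mul_eq_one _ hee) with h1 | h1
    · rw [h1]; norm_num
    · rw [h1]; norm_num
  have h5 : mt (g * g) *ᵥ v = v := by
    rw [mt_mul, ← mulVec_mulVec, hvd, mulVec_smul, mulVec_smul, he, mulVec_smul, he, smul_smul e,
      he2, one_smul]
  refine ⟨h5, ?_⟩
  have hcg : g * g * z = z * (g * g) := by
    rw [mul_assoc, hc, ← mul_assoc, hc, mul_assoc]
  have h6 := key (g * g) hcg
  rw [h5] at h6
  obtain ⟨i, hi⟩ := Function.ne_iff.1 hv
  have hi' : v i ≠ 0 := hi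
  ext k
  have := congrFun (congrFun h6 i) k
  rw [vecMulVec_apply, vecMulVec_apply] at this
  exact (mul_left_cancel₀ hi' this).symm

/-- The elements of the unipotent radical. -/
lemma levi3 {M : Matrix (Fin 3) (Fin 3) ℤ} {v φ : Fin 3 → ℤ} (hv : v ≠ 0) (hφ : φ ≠ 0)
    (hφv : φ ⬝ᵥ v = 0) (hMv : M *ᵥ v = 0) (hφM : φ ᵥ* M = 0) (hdet : (1 + M).det = 1) :
    IsNilpotent M ∧ ∀ x : Fin 3 → ℤ, x ⬝ᵥ v = 0 → x ᵥ* (M * M) = 0 := by
  obtain ⟨i, hi⟩ := Function.ne_iff.1 hv
  have hi' : v i ≠ 0 := hi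
  obtain ⟨j, hj⟩ := Function.ne_iff.1 hφ
  have hj' : φ j ≠ 0 := hj
  have hd : M.det = 0 := Matrix.exists_mulVec_eq_zero_iff.1 ⟨v, hv, hMv⟩
  have hτ : M.adjugate.trace = 0 := by
    have h1 : M.adjugate.trace * (v i * φ j) = 0 := by
      unfold Matrix.trace
      rw [Finset.sum_mul]
      have h2 : ∀ k, M.adjugate.diag k * (v i * φ j) = M.adjugate i j * (φ k * v k) := by
        intro k
        have e1 := col3 hMv i k k
        have e2 := row3 hφM j i k
        rw [Matrix.diag_apply]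
        linear_combination φ j * e1 + v k * e2
      rw [Finset.sum_congr rfl (fun k _ => h2 k), ← Finset.mul_sum]
      have h3 : ∑ k, φ k * v k = 0 := hφv
      rw [h3, mul_zero]
    exact (mul_eq_zero.1 h1).resolve_right (mul_ne_zero hi' hj')
  have ht : M.trace = 0 := by
    have h1 := det3 M 1
    rw [one_smul, hdet, hτ, hd] at h1
    linarith
  have ha : M.adjugate = M * M := by
    have h1 := adj3 M
    rw [ht, hτ, zero_smul, zero_smul, sub_zero, add_zero] at h1
    exact h1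
  refine ⟨⟨3, ?_⟩, ?_⟩
  · rw [pow_succ, pow_two, ← ha, adjugate_mul, hd, zero_smul]
  · intro x hx
    rw [← ha]
    ext l
    rw [Pi.zero_apply]
    have h1 : (x ᵥ* M.adjugate) l * v i = 0 := by
      have h2 : (x ᵥ* M.adjugate) l = ∑ k, x k * M.adjugate k l := rfl
      rw [h2, Finset.sum_mul]
      have h3 : ∀ k, x k * M.adjugate k l * v i = M.adjugate i l * (x k * v k) := by
        intro k
        have e1 := col3 hMv i k l
        linear_combination x k * e1
      rw [Finset.sum_congr rfl (fun k _ => h3 k), ← Finset.mul_sum]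
      have h4 : ∑ k, x k * v k = 0 := hx
      rw [h4, mul_zero]
    exact (mul_eq_zero.1 h1).resolve_right hi'

/-- Matrices which commute with a regular nilpotent matrix. -/
lemma regular {N G : Matrix (Fin 3) (Fin 3) ℤ} (h3 : N * N * N = 0) (h2 : N * N ≠ 0)
    (hc : G * N = N * G) (hdet : G.det = 1) :
    ∃ s a b : ℤ, s ≠ 0 ∧ s • (G - 1) = a • N + b • (N * N) := by
  have h3' : N * (N * N) = 0 := by rw [← Matrix.mul_assoc, h3]
  obtain ⟨i, j, hij⟩ : ∃ i j, (N * N) i j ≠ 0 := by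
    by_contra hcon
    push Not at hcon
    exact h2 (by ext i j; exact hcon i j)
  let e : Fin 3 → ℤ := Pi.single j 1
  have he : (N * N) *ᵥ e ≠ 0 := by
    intro h0
    apply hij
    have := congrFun h0 i
    simp only [e, mulVec_single_one] at this
    exact this
  let P : Matrix (Fin 3) (Fin 3) ℤ := (Matrix.of ![e, N *ᵥ e, (N * N) *ᵥ e])ᵀ
  have hP : ∀ x : Fin 3 → ℤ, P *ᵥ x = x 0 • e + x 1 • (N *ᵥ e) + x 2 • ((N * N) *ᵥ e) := by
    intro x
    ext k
    have h0 : (P *ᵥ x) k = P k 0 * x 0 + P k 1 * x 1 + P k 2 * x 2 := by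
      simp only [mulVec, dotProduct, Fin.sum_univ_three]
    rw [h0]
    show e k * x 0 + (N *ᵥ e) k * x 1 + ((N * N) *ᵥ e) k * x 2 =
      x 0 * e k + x 1 * (N *ᵥ e) k + x 2 * ((N * N) *ᵥ e) k
    ring
  have hdetP : P.det ≠ 0 := by
    intro h0
    obtain ⟨x, hx, hx0⟩ := Matrix.exists_mulVec_eq_zero_iff.2 h0
    rw [hP] at hx0
    have e0 : x 0 • ((N * N) *ᵥ e) = 0 := by
      have := congrArg (fun y => (N * N) *ᵥ y) hx0
      simp only [mulVec_add, mulVec_smul, mulVec_mulVec, mulVec_zero] at this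
      have a1 : N * N * N = 0 := h3
      have a2 : N * N * (N * N) = 0 := by rw [← Matrix.mul_assoc, h3, Matrix.zero_mul]
      rw [a1, a2] at this
      simpa using this
    have hsm : ∀ c : ℤ, c • ((N * N) *ᵥ e) = 0 → c = 0 := by
      intro c hcz
      by_contra hne
      apply he
      ext k
      have := congrFun hcz k
      rw [Pi.smul_apply, smul_eq_mul] at this
      exact (mul_eq_zero.1 this).resolve_left hne
    have x0 := hsm _ e0
    rw [x0, zero_smul, zero_add] at hx0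
    have e1 : x 1 • ((N * N) *ᵥ e) = 0 := by
      have := congrArg (fun y => N *ᵥ y) hx0
      simp only [mulVec_add, mulVec_smul, mulVec_mulVec, mulVec_zero] at this
      rw [h3'] at this
      simpa using this
    have x1 := hsm _ e1
    rw [x1, zero_smul, zero_add] at hx0
    have x2 := hsm _ hx0
    apply hx
    ext k
    fin_cases k
    · exact x0
    · exact x1
    · exact x2
  obtain ⟨s, hs⟩ : ∃ s, s = P.det := ⟨_, rfl⟩
  rw [← hs] at hdetP
  obtain ⟨w, hw⟩ : ∃ w, w = P.adjugate *ᵥ (G *ᵥ e) := ⟨_, rfl⟩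
  have h4 : s • (G *ᵥ e) = w 0 • e + w 1 • (N *ᵥ e) + w 2 • ((N * N) *ᵥ e) := by
    rw [← hP, hw, mulVec_mulVec, mul_adjugate, ← hs, smul_mulVec, one_mulVec]
  obtain ⟨T, hT⟩ : ∃ T, T = s • G - (w 0 • (1 : Matrix (Fin 3) (Fin 3) ℤ) + w 1 • N +
    w 2 • (N * N)) := ⟨_, rfl⟩
  have hTe : T *ᵥ e = 0 := by
    rw [hT, sub_mulVec, smul_mulVec, add_mulVec, add_mulVec, smul_mulVec, smul_mulVec,
      smul_mulVec, one_mulVec, h4, sub_self]
  have hTN : T * N = N * T := by
    rw [hT]
    simp only [Matrix.sub_mul, Matrix.mul_sub, Matrix.add_mul, Matrix.mul_add, Matrix.smul_mul,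
      Matrix.mul_smul, hc, Matrix.one_mul, Matrix.mul_one, h3, h3']
  have hTP : ∀ x, T *ᵥ (P *ᵥ x) = 0 := by
    intro x
    have a1 : T *ᵥ (N *ᵥ e) = 0 := by
      rw [mulVec_mulVec, hTN, ← mulVec_mulVec, hTe, mulVec_zero]
    have a2 : T *ᵥ ((N * N) *ᵥ e) = 0 := by
      rw [← mulVec_mulVec, mulVec_mulVec, hTN, ← mulVec_mulVec, a1, mulVec_zero]
    rw [hP, mulVec_add, mulVec_add, mulVec_smul, mulVec_smul, mulVec_smul, hTe, a1, a2]
    simp
  have hT0 : T = 0 := by
    apply smul_cancel hdetP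
    have h5 : T * P = 0 := by
      ext a b
      have := congrFun (hTP (Pi.single b 1)) a
      rw [mulVec_mulVec, mulVec_single_one] at this
      exact this
    have h6 : T * (P * P.adjugate) = 0 := by rw [← Matrix.mul_assoc, h5, Matrix.zero_mul]
    rw [mul_adjugate, ← hs, Matrix.mul_smul, Matrix.mul_one] at h6
    exact h6
  have h5 : s • G = w 0 • (1 : Matrix (Fin 3) (Fin 3) ℤ) + (w 1 • N + w 2 • (N * N)) := by
    rw [hT0] at hT
    rw [← add_assoc]
    exact (sub_eq_zero.1 hT.symm)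
  have hK : (w 1 • N + w 2 • (N * N)) * (w 1 • N + w 2 • (N * N)) * (w 1 • N + w 2 • (N * N)) =
      0 := by
    have h4' : N * N * (N * N) = 0 := by rw [← Matrix.mul_assoc, h3, Matrix.zero_mul]
    simp only [Matrix.mul_add, Matrix.add_mul, Matrix.smul_mul, Matrix.mul_smul, h3, h3', h4',
      smul_zero, add_zero]
  obtain ⟨k1, k2, k3, _⟩ := nil3 hK
  have h6 : s ^ 3 = w 0 ^ 3 := by
    have h7 := congrArg Matrix.det h5
    rw [det3, k1, k2, k3, Matrix.det_smul, hdet, Fintype.card_fin] at h7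
    linarith
  have h7 : s = w 0 := (Odd.strictMono_pow (by decide : Odd 3)).injective h6
  refine ⟨s, w 1, w 2, hdetP, ?_⟩
  rw [smul_sub, h5, ← h7]
  abel

instance : Big (Fin 3) := inferInstanceAs (Big (Fin (0 + 3)))

/-- **Centralisers of unipotent elements, three by three matrices.** -/
theorem three {H : Subgroup (SpecialLinearGroup (Fin 3) ℤ)} (hH : Zd H)
    {u g : SpecialLinearGroup (Fin 3) ℤ} (hu : u ∈ H) (hg : g ∈ H) (hu1 : u ≠ 1)
    (hN : (mt u - 1) ^ 3 = 0) (hc : g * u = u * g)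
    (hpow : ∀ a b : ℤ, g ^ a = u ^ b → a = 0) : Fi H := by
  obtain ⟨N, hNe⟩ : ∃ N, N = mt u - 1 := ⟨_, rfl⟩
  have hum : mt u = 1 + N := by rw [hNe]; abel
  rw [← hNe] at hN
  have hN0 : N ≠ 0 := by
    intro h0
    apply hu1
    apply mt_inj
    rw [hum, h0, add_zero, mt_one]
  have h3 : N * N * N = 0 := by
    rw [pow_succ, pow_two] at hN
    exact hN
  have h3' : N * (N * N) = 0 := by rw [← Matrix.mul_assoc, h3]
  have h4 : N * N * (N * N) = 0 := by rw [← Matrix.mul_assoc, h3, Matrix.zero_mul]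
  have hcom : Commute g u := hc
  have hNnil : IsNilpotent (mt u - 1) := by
    rw [← hNe]; exact ⟨3, hN⟩
  by_cases h2 : N * N = 0
  · -- a power of `u` is a transvection
    obtain ⟨c, v, φ, hc0, hz, hcZ⟩ := tv_of_sq0 hum h2 hN0
    have hcz : g * u ^ c = u ^ c * g := (hcom.zpow_right c)
    obtain ⟨f1, f2⟩ := sq_fix hz hcz
    have hz' := hz
    obtain ⟨hv, hφ, hφv, _⟩ := hz'
    obtain ⟨n1, n2⟩ := levi3 (M := mt (g * g) - 1) hv hφ hφv
      (by rw [sub_mulVec, one_mulVec, f1, sub_self])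
      (by rw [vecMul_sub, vecMul_one, f2, sub_self])
      (by rw [add_sub_cancel]; exact (g * g).2)
    refine uni_b hH (H.zpow_mem hu c) (mul_mem hg hg) hz ?_ n1 n2 ?_
    · rw [mul_assoc, hcz, ← mul_assoc, hcz, mul_assoc]
    · intro a b hab
      have h5 : g ^ (2 * a) = u ^ (c * b) := by
        rw [_root_.zpow_mul, zpow_two, hab, _root_.zpow_mul]
      have := hpow _ _ h5
      omega
  · -- `u` is regular
    have hcN : mt g * N = N * mt g := by
      have h5 : mt g * mt u = mt u * mt g := by rw [← mt_mul, hc, mt_mul]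
      rw [hum, Matrix.mul_add, Matrix.add_mul, Matrix.mul_one, Matrix.one_mul] at h5
      exact add_left_cancel h5
    obtain ⟨s, a, b, hs, hsG⟩ := regular h3 h2 hcN g.2
    obtain ⟨M, hM⟩ : ∃ M, M = mt g - 1 := ⟨_, rfl⟩
    have hgm : mt g = 1 + M := by rw [hM]; abel
    rw [← hM] at hsG
    have hMM : (s * s) • (M * M) = (a * a) • (N * N) := by
      have h5 : (s • M) * (s • M) = (a • N + b • (N * N)) * (a • N + b • (N * N)) := by rw [hsG]
      simp only [Matrix.mul_add, Matrix.add_mul, Matrix.smul_mul, Matrix.mul_smul, h3, h3', h4,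
        smul_zero, add_zero, smul_smul] at h5
      exact h5
    have hMN : M * M * N = 0 := by
      apply smul_cancel (mul_ne_zero hs hs)
      rw [← Matrix.smul_mul, hMM, Matrix.smul_mul, h3, smul_zero]
    have hMMM : M * M * M = 0 := by
      apply smul_cancel hs
      rw [← Matrix.mul_smul, hsG, Matrix.mul_add, Matrix.mul_smul, Matrix.mul_smul, hMN,
        ← Matrix.mul_assoc, hMN, Matrix.zero_mul, smul_zero, smul_zero, add_zero]
    obtain ⟨z, hz⟩ : ∃ z, z = (g * g) ^ s * (u * u) ^ (-a) := ⟨_, rfl⟩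
    have hzH : z ∈ H := by
      rw [hz]
      exact mul_mem (H.zpow_mem (mul_mem hg hg) _) (H.zpow_mem (mul_mem hu hu) _)
    obtain ⟨Z, hZ⟩ : ∃ Z, Z = (2 * s * s - s) • (M * M) + (2 * b - 2 * a * a + a) • (N * N) :=
      ⟨_, rfl⟩
    have hzm : mt z = 1 + Z := by
      rw [hz, mt_mul, mt_sq_zpow hgm hMMM, mt_sq_zpow hum h3]
      unfold En
      have e1 : (2 * s) • M = (2 * a) • N + (2 * b) • (N * N) := by
        rw [mul_smul, hsG, smul_add, smul_smul, smul_smul]
      rw [e1, hZ]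
      simp only [Matrix.mul_add, Matrix.add_mul, Matrix.smul_mul, Matrix.mul_smul, h3, h3', h4,
        smul_zero, add_zero, smul_smul, Matrix.one_mul, Matrix.mul_one, hMN, ← Matrix.mul_assoc,
        Matrix.zero_mul]
      ext i j
      simp only [Matrix.add_apply, Matrix.smul_apply, smul_eq_mul]
      ring
    obtain ⟨δ, hδ⟩ : ∃ δ, δ = (2 * s * s - s) * (a * a) + s * s * (2 * b - 2 * a * a + a) :=
      ⟨_, rfl⟩
    have hZδ : (s * s) • Z = δ • (N * N) := by
      rw [hZ, smul_add, smul_comm, hMM, smul_smul, smul_smul, ← add_smul, hδ]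
    have hZ0 : Z ≠ 0 := by
      intro h0
      have h5 : z = 1 := by
        apply mt_inj
        rw [hzm, h0, add_zero, mt_one]
      have h6 : g ^ (2 * s) = u ^ (2 * a) := by
        rw [_root_.zpow_mul, zpow_two, _root_.zpow_mul, zpow_two]
        rw [hz, _root_.zpow_neg] at h5
        exact mul_inv_eq_one.1 h5
      have := hpow _ _ h6
      omega
    have hδ0 : δ ≠ 0 := by
      rintro h0
      apply hZ0
      apply smul_cancel (mul_ne_zero hs hs)
      rw [hZδ, h0, zero_smul]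
    have hZZ : Z * Z = 0 := by
      apply smul_cancel (mul_ne_zero (mul_ne_zero hs hs) (mul_ne_zero hs hs))
      have : (s * s * (s * s)) • (Z * Z) = ((s * s) • Z) * ((s * s) • Z) := by
        rw [Matrix.smul_mul, Matrix.mul_smul, smul_smul]
      rw [this, hZδ, Matrix.smul_mul, Matrix.mul_smul, h4, smul_zero, smul_zero]
    have hZN : Z * N = 0 := by
      apply smul_cancel (mul_ne_zero hs hs)
      rw [← Matrix.smul_mul, hZδ, Matrix.smul_mul, h3, smul_zero]
    obtain ⟨c, v, φ, hc0, hzt, hcZ⟩ := tv_of_sq0 hzm hZZ hZ0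
    have hcuz : Commute u z := by
      rw [hz]
      apply Commute.mul_right
      · exact (hcom.symm.mul_right hcom.symm).zpow_right s
      · exact ((Commute.refl u).mul_right (Commute.refl u)).zpow_right (-a)
    refine uni_b hH (H.zpow_mem hzH c) hu hzt (hcuz.zpow_right c) hNnil ?_ ?_
    · intro x hx
      rw [← hNe]
      have h5 : (c * δ) • (N * N) = (s * s) • vecMulVec v φ := by
        rw [← hcZ, smul_comm, hZδ, smul_smul]
      have h6 : (c * δ) • (x ᵥ* (N * N)) = 0 := by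
        rw [← vecMul_smul, h5, vecMul_smul, vecMul_vecMulVec, hx, zero_smul, smul_zero]
      ext i
      have := congrFun h6 i
      rw [Pi.smul_apply, smul_eq_mul] at this
      exact (mul_eq_zero.1 this).resolve_left (mul_ne_zero hc0 hδ0)
    · intro a' b' hab
      by_contra ha
      have h5 : (u * u) ^ a' = (z ^ c) ^ (2 * b') := by
        rw [← zpow_two, ← _root_.zpow_mul, mul_comm, _root_.zpow_mul, hab, ← _root_.zpow_mul,
          mul_comm b' 2]
      have h6 := congrArg Helper460_CSP.mt h5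
      rw [mt_sq_zpow hum h3, ← _root_.zpow_mul, mt_zpow_sq0 hzm hZZ] at h6
      have h7 := congrArg (fun K => K * N) h6
      unfold En at h7
      simp only [Matrix.add_mul, Matrix.one_mul, Matrix.smul_mul, h3, smul_zero, add_zero,
        hZN] at h7
      have h8 : (2 * a') • (N * N) = 0 := by
        have := sub_eq_zero.2 h7
        rwa [add_sub_cancel_left] at this
      exact h2 (smul_cancel (mul_ne_zero two_ne_zero ha) h8)

end Pool.Agent.Run7.h25.TV
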