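import Pool.Agent.Helper460_CSP.Bls

/-!
# Transvections in a subgroup of the special linear group
-/

set_option autoImplicit false
set_option linter.unusedSectionVars false

namespace Pool.Agent.Run7.h25.TV

open Matrix Pool.Agent.Helper460_CSP

variable {ι : Type} [DecidableEq ι] [Fintype ι]

/-- The action on linear forms. -/
def cv (A : SpecialLinearGroup ι ℤ) (φ : ι → ℤ) : ι → ℤ := φ ᵥ* mt A

lemma cv_mul (A B : SpecialLinearGroup ι ℤ) (φ : ι → ℤ) : cv (A * B) φ = cv B (cv A φ) := by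
  unfold cv
  rw [vecMul_vecMul, mt_mul]

lemma cv_one (φ : ι → ℤ) : cv 1 φ = φ := by
  unfold cv
  rw [mt_one, vecMul_one]

lemma cv_dot (A : SpecialLinearGroup ι ℤ) (φ v : ι → ℤ) : cv A φ ⬝ᵥ v = φ ⬝ᵥ av A v :=
  (dotProduct_mulVec _ _ _).symm

lemma av_add (A : SpecialLinearGroup ι ℤ) (v w : ι → ℤ) : av A (v + w) = av A v + av A w :=
  mulVec_add _ _ _

lemma av_sub (A : SpecialLinearGroup ι ℤ) (v w : ι → ℤ) : av A (v - w) = av A v - av A w :=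
  mulVec_sub _ _ _

lemma av_smul (A : SpecialLinearGroup ι ℤ) (c : ℤ) (v : ι → ℤ) : av A (c • v) = c • av A v :=
  mulVec_smul _ _ _

lemma av_inv_av (A : SpecialLinearGroup ι ℤ) (v : ι → ℤ) : av A⁻¹ (av A v) = v := by
  rw [← av_mul, inv_mul_cancel, av_one]

lemma av_av_inv (A : SpecialLinearGroup ι ℤ) (v : ι → ℤ) : av A (av A⁻¹ v) = v := by
  rw [← av_mul, mul_inv_cancel, av_one]

/-- The element `1 + v ⊗ φ` belongs to `H`, and `φ (v) = 0`. -/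
def Tr (H : Subgroup (SpecialLinearGroup ι ℤ)) (v φ : ι → ℤ) : Prop :=
  φ ⬝ᵥ v = 0 ∧ ∃ A ∈ H, mt A = 1 + vecMulVec v φ

variable {H : Subgroup (SpecialLinearGroup ι ℤ)} {v w φ ψ : ι → ℤ}

lemma vv_zero {v w φ ψ : ι → ℤ} (h : φ ⬝ᵥ w = 0) : vecMulVec v φ * vecMulVec w ψ = 0 := by
  rw [vecMulVec_mul_vecMulVec, h, zero_smul, vecMulVec_zero]

lemma mt_inv_of {A : SpecialLinearGroup ι ℤ} {v φ : ι → ℤ} (h : φ ⬝ᵥ v = 0)
    (hA : mt A = 1 + vecMulVec v φ) : mt A⁻¹ = 1 - vecMulVec v φ := by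
  have h1 : mt A * (1 - vecMulVec v φ) = 1 := by
    rw [hA, add_mul, one_mul, mul_sub, mul_one, vv_zero h, sub_zero, sub_add_cancel]
  have h2 : mt A⁻¹ * mt A = 1 := by rw [← mt_mul, inv_mul_cancel, mt_one]
  calc mt A⁻¹ = mt A⁻¹ * (mt A * (1 - vecMulVec v φ)) := by rw [h1, mul_one]
    _ = _ := by rw [← Matrix.mul_assoc, h2, one_mul]

lemma Tr.addv (h1 : Tr H v φ) (h2 : Tr H w φ) : Tr H (v + w) φ := by
  obtain ⟨h1, A, hA, hA'⟩ := h1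
  obtain ⟨h2, B, hB, hB'⟩ := h2
  refine ⟨by rw [dotProduct_add, h1, h2, add_zero], A * B, mul_mem hA hB, ?_⟩
  rw [mt_mul, hA', hB', add_vecMulVec, add_mul, one_mul, mul_add, mul_one, vv_zero h2]
  abel

lemma Tr.addf (h1 : Tr H v φ) (h2 : Tr H v ψ) : Tr H v (φ + ψ) := by
  obtain ⟨h1, A, hA, hA'⟩ := h1
  obtain ⟨h2, B, hB, hB'⟩ := h2
  refine ⟨by rw [add_dotProduct, h1, h2, add_zero], A * B, mul_mem hA hB, ?_⟩
  rw [mt_mul, hA', hB', vecMulVec_add, add_mul, one_mul, mul_add, mul_one, vv_zero h1]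
  abel

lemma Tr.negv (h1 : Tr H v φ) : Tr H (-v) φ := by
  obtain ⟨h1, A, hA, hA'⟩ := h1
  exact ⟨by rw [dotProduct_neg, h1, neg_zero], A⁻¹, inv_mem hA, by
    rw [mt_inv_of h1 hA', neg_vecMulVec, sub_eq_add_neg]⟩

lemma Tr.zerov : Tr H 0 φ :=
  ⟨dotProduct_zero _, 1, one_mem _, by rw [mt_one, zero_vecMulVec, add_zero]⟩

lemma Tr.zerof : Tr H v 0 :=
  ⟨zero_dotProduct _, 1, one_mem _, by rw [mt_one, vecMulVec_zero, add_zero]⟩

variable (H φ) in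
/-- The vectors `v` with `1 + v ⊗ φ` in `H`. -/
def Lf : AddSubgroup (ι → ℤ) where
  carrier := {v | Tr H v φ}
  add_mem' := Tr.addv
  zero_mem' := Tr.zerov
  neg_mem' := Tr.negv

lemma mem_Lf : v ∈ Lf H φ ↔ Tr H v φ := Iff.rfl

lemma Tr.smulv (c : ℤ) (h1 : Tr H v φ) : Tr H (c • v) φ :=
  (Lf H φ).zsmul_mem h1 c

lemma Tr.smulf (c : ℤ) (h1 : Tr H v φ) : Tr H v (c • φ) := by
  obtain ⟨h2, A, hA, hA'⟩ := h1.smulv c
  exact ⟨by rw [smul_dotProduct, h1.1, smul_zero], A, hA, by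
    rw [hA', smul_vecMulVec, vecMulVec_smul]⟩

lemma Tr.swap {c : ℤ} (h1 : Tr H (c • v) φ) (h0 : φ ⬝ᵥ v = 0) : Tr H v (c • φ) := by
  obtain ⟨h2, A, hA, hA'⟩ := h1
  exact ⟨by rw [smul_dotProduct, h0, smul_zero], A, hA, by
    rw [hA', smul_vecMulVec, vecMulVec_smul]⟩

lemma Tr.swap' {c : ℤ} (h1 : Tr H v (c • φ)) (h0 : φ ⬝ᵥ v = 0) : Tr H (c • v) φ := by
  obtain ⟨h2, A, hA, hA'⟩ := h1
  exact ⟨by rw [dotProduct_smul, h0, smul_zero], A, hA, by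
    rw [hA', smul_vecMulVec, vecMulVec_smul]⟩

lemma Tr.conj (h1 : Tr H v φ) {g : SpecialLinearGroup ι ℤ} (hg : g ∈ H) :
    Tr H (av g v) (cv g⁻¹ φ) := by
  obtain ⟨h1, A, hA, hA'⟩ := h1
  refine ⟨?_, g * A * g⁻¹, mul_mem (mul_mem hg hA) (inv_mem hg), ?_⟩
  · rw [cv_dot, av_inv_av, h1]
  · have h2 : mt g * mt g⁻¹ = 1 := by rw [← mt_mul, mul_inv_cancel, mt_one]
    rw [mt_mul, mt_mul, hA', mul_add, mul_one, add_mul, h2, mul_vecMulVec, vecMulVec_mul]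
    rfl

/-- The commutator of two transvections. -/
lemma Tr.comm (h1 : Tr H v φ) (h2 : Tr H w ψ) (h : ψ ⬝ᵥ v = 0) :
    Tr H ((φ ⬝ᵥ w) • v) ψ := by
  obtain ⟨h1, A, hA, hA'⟩ := h1
  obtain ⟨h2, B, hB, hB'⟩ := h2
  refine ⟨by rw [dotProduct_smul, h, smul_zero], A * B * A⁻¹ * B⁻¹,
    mul_mem (mul_mem (mul_mem hA hB) (inv_mem hA)) (inv_mem hB), ?_⟩
  rw [mt_mul, mt_mul, mt_mul, mt_inv_of h1 hA', mt_inv_of h2 hB', hA', hB', smul_vecMulVec,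
    ← vecMulVec_smul, ← vecMulVec_mul_vecMulVec]
  have e1 : vecMulVec v φ * vecMulVec v φ = 0 := vv_zero h1
  have e2 : vecMulVec w ψ * vecMulVec w ψ = 0 := vv_zero h2
  have e3 : vecMulVec w ψ * vecMulVec v φ = 0 := vv_zero h
  have e3' : ∀ Z, vecMulVec w ψ * (vecMulVec v φ * Z) = 0 := fun Z => by
    rw [← Matrix.mul_assoc, e3, zero_mul]
  generalize vecMulVec v φ = X at *
  generalize vecMulVec w ψ = Y at *
  have e4 : (1 + X) * (1 + Y) * (1 - X) * (1 - Y) = 1 + X * Y - X * X - Y * X - X * (Y * X) - Y * Y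
      - X * (Y * Y) + X * X * Y + Y * (X * Y) + X * (Y * (X * Y)) + (X * Y - X * Y) := by
    noncomm_ring
  rw [e4, e1, e3, e2, e3', mul_zero, zero_mul]
  abel

end Pool.Agent.Run7.h25.TV
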