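import Pool.Agent.Run7.h25.TV.Poly

/-!
# Creating a root
-/

set_option autoImplicit false
set_option linter.unusedSectionVars false

namespace Pool.Agent.Run7.h25.TV

open Matrix Pool.Agent.Helper460_CSP Polynomial

variable {ι : Type} [DecidableEq ι] [Fintype ι] {H : Subgroup (SpecialLinearGroup ι ℤ)}

lemma av_pow_fix {g : SpecialLinearGroup ι ℤ} {v : ι → ℤ} (hgv : av g v = v) (m : ℕ) :
    av (g ^ m) v = v := by
  induction m with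
  | zero => rw [pow_zero, av_one]
  | succ m ih => rw [pow_succ, av_mul, hgv, ih]

lemma dot_pow_fix {g : SpecialLinearGroup ι ℤ} {φ : ι → ℤ} (hφg : cv g φ = φ) (m : ℕ)
    (y : ι → ℤ) : φ ⬝ᵥ av (g ^ m) y = φ ⬝ᵥ y := by
  induction m with
  | zero => rw [pow_zero, av_one]
  | succ m ih => rw [pow_succ', av_mul, ← cv_dot, hφg, ih]

/-- Let `A₁ A₂ = φ (k v)`. After a change of `l` the number `φ (k g ^ m l v)` is divisible by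
`A₁ φ (l v)`, up to the old value of `φ (l v)`. -/
theorem trick {v φ : ι → ℤ} (hz : Tr H v φ) {g k l : SpecialLinearGroup ι ℤ} (hg : g ∈ H)
    (hl : l ∈ H) (hgv : av g v = v) (hφg : cv g φ = φ) (hgc : ∀ m : ℕ, Cgr (m : ℤ) (g ^ m))
    {P : ℤ[X]} (hP : ∀ m : ℕ, P.eval (m : ℤ) = φ ⬝ᵥ av k (av (g ^ m) (av l v)))
    {A₁ A₂ B B' Q : ℤ} (hA : φ ⬝ᵥ av k v = A₁ * A₂) (hB : φ ⬝ᵥ av l v = B)
    (hB' : φ ⬝ᵥ av l⁻¹ v = B') (hA₁ : A₁ ≠ 0)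
    (c1 : IsCoprime A₂ A₁) (c2 : IsCoprime B A₁) (c3 : IsCoprime B' A₁) (c4 : IsCoprime Q A₁)
    {m₁ m₂ : ℕ} (d1 : IsCoprime (P.derivative.eval (m₁ : ℤ)) A₁)
    (d2 : IsCoprime (P.eval (m₂ : ℤ)) A₁)
    (d3 : IsCoprime (P.derivative.eval (m₂ : ℤ) - P.derivative.eval (m₁ : ℤ)) A₁)
    (hQ : ¬ IsUnit Q) :
    ∃ l' ∈ H, ∃ G : ℤ, ∃ m : ℕ, Q ∣ G - 1 ∧ φ ⬝ᵥ av l' v = B * G ∧
      (∀ i, Q ∣ av l' v i - av l v i) ∧ A₁ * G ∣ φ ⬝ᵥ av k (av (g ^ m) (av l' v)) := by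
  have hφv := hz.1
  obtain ⟨M, hM⟩ : ∃ M, M = A₁ * (A₂ * B) := ⟨_, rfl⟩
  obtain ⟨a, ha⟩ : ∃ a : ℕ, a = M.natAbs := ⟨_, rfl⟩
  obtain ⟨ε, hε, hεε⟩ : ∃ ε : ℤ, (a : ℤ) = ε * M ∧ ε * ε = 1 := by
    rw [ha, Int.natCast_natAbs]
    rcases abs_choice M with h | h
    · exact ⟨1, by rw [h, one_mul], by norm_num⟩
    · exact ⟨-1, by rw [h]; ring, by norm_num⟩
  obtain ⟨κ₁, hκ₁⟩ := P.binomExpansion (m₁ : ℤ) (a : ℤ)
  obtain ⟨κ₂, hκ₂⟩ := P.binomExpansion (m₂ : ℤ) (a : ℤ)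
  obtain ⟨b, hb⟩ : ∃ b, b = -(ε * (P.derivative.eval (m₁ : ℤ) + κ₁ * a)) := ⟨_, rfl⟩
  have hbM : P.eval ((m₁ : ℤ) + a) + b * M = P.eval (m₁ : ℤ) := by
    rw [hκ₁, hb]
    linear_combination (P.derivative.eval (m₁ : ℤ) + κ₁ * a) * hε
  obtain ⟨_, zb, hzb, hzb'⟩ := hz.smulv b
  obtain ⟨w, hw⟩ : ∃ w, w = av l v := ⟨_, rfl⟩
  rw [← hw] at hB
  have hgw : ∀ m : ℕ, P.eval (m : ℤ) = φ ⬝ᵥ av k (av (g ^ m) w) := by
    intro m
    rw [hP, hw]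
  obtain ⟨s, hs⟩ : ∃ s, s = g ^ a * zb := ⟨_, rfl⟩
  have hsH : s ∈ H := by rw [hs]; exact mul_mem (H.pow_mem hg _) hzb
  have hsw : av s w = av (g ^ a) w + (B * b) • v := by
    rw [hs, av_mul, av_of hzb', av_add, hB, av_smul, av_smul, av_pow_fix hgv, smul_smul]
  have hφsw : φ ⬝ᵥ av s w = B := by
    rw [hsw, dotProduct_add, dot_pow_fix hφg, hB, dotProduct_smul, hφv, smul_zero, add_zero]
  obtain ⟨Cc, hCc⟩ : ∃ Cc, Cc = cv (s * l)⁻¹ φ ⬝ᵥ w := ⟨_, rfl⟩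
  have hA₁a : A₁ ∣ (a : ℤ) := by
    rw [hε, hM]
    exact ⟨ε * (A₂ * B), by ring⟩
  -- the coefficient
  have hCv : ∃ τ, Cc = A₁ * τ - B * b * B' := by
    obtain ⟨y, hy⟩ : ∃ y, y = av (g ^ a)⁻¹ w := ⟨_, rfl⟩
    have h1 : φ ⬝ᵥ y = B := by
      rw [← dot_pow_fix hφg a, hy, av_av_inv, hB]
    have h2 : A₁ ∣ φ ⬝ᵥ av l⁻¹ y := by
      have h3 := (PF.dot (cv l⁻¹ φ) w).congr (g := 1) (h := (g ^ a)⁻¹) (m := (a : ℤ)) (by
        rw [inv_one, one_mul]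
        exact (hgc a).inv)
      rw [av_one, cv_dot, cv_dot, hw, av_inv_av, hφv, sub_zero, ← hw, ← hy] at h3
      exact hA₁a.trans h3
    obtain ⟨τ, hτ⟩ := h2
    refine ⟨τ, ?_⟩
    have e : (s * l)⁻¹ = l⁻¹ * (zb⁻¹ * (g ^ a)⁻¹) := by
      rw [hs]; group
    rw [hCc, cv_dot, e, av_mul, av_mul, ← hy, av_inv_of (by
      rw [dotProduct_smul, hφv, smul_zero]) hzb', h1, av_sub, av_smul, av_smul, dotProduct_sub,
      dotProduct_smul, dotProduct_smul, hτ, hB', smul_eq_mul, smul_eq_mul]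
    ring
  have hCcop : IsCoprime Cc A₁ := by
    obtain ⟨τ, hτ⟩ := hCv
    obtain ⟨a', ha'⟩ := hA₁a
    have h1 : Cc = ε * (P.derivative.eval (m₁ : ℤ) * (B * B')) +
        (τ + ε * κ₁ * a' * (B * B')) * A₁ := by
      rw [hτ, hb]
      linear_combination ε * κ₁ * B * B' * ha'
    rw [h1]
    refine IsCoprime.add_mul_right_left ?_ _
    exact (show IsCoprime ε A₁ from ⟨ε, 0, by rw [zero_mul, add_zero, hεε]⟩).mul_left
      (d1.mul_left (c2.mul_left c3))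
  obtain ⟨M', hM'⟩ : ∃ M', M' = ε * (A₂ * B) := ⟨_, rfl⟩
  have haM' : (a : ℤ) = A₁ * M' := by rw [hε, hM, hM']; ring
  have hM'c : IsCoprime M' A₁ := by
    rw [hM']
    exact (show IsCoprime ε A₁ from ⟨ε, 0, by rw [zero_mul, add_zero, hεε]⟩).mul_left
      (c1.mul_left c2)
  obtain ⟨Δ, hΔ⟩ : ∃ Δ, Δ = P.derivative.eval (m₂ : ℤ) - P.derivative.eval (m₁ : ℤ) := ⟨_, rfl⟩
  rw [← hΔ] at d3
  obtain ⟨J, E, hJ, hJE, ⟨τ, hτ⟩, hE⟩ := num c4 hCcop d2 (hM'c.mul_left d3)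
  obtain ⟨_, y, hy, hy'⟩ := (hz.conj (mul_mem hsH hl)).smulv J
  have hl'v : av (y * l) v = w + (Cc * J) • av s w := by
    rw [av_mul, ← hw, av_of hy', ← hCc, av_mul, ← hw, smul_smul]
  have hG0 : A₁ * E ≠ 0 := by
    intro h0
    apply hQ
    rw [h0] at hJE
    exact isUnit_of_dvd_one (by
      have : (1 : ℤ) = -(J * Cc) := by linear_combination hJE
      rw [this]
      exact (dvd_neg).2 (hJ.mul_right _))
  have hE0 : E ≠ 0 := right_ne_zero_of_mul hG0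
  -- the polynomial
  obtain ⟨R, hR⟩ : ∃ R : ℤ[X], R = P + C (Cc * J) * (P.comp (X + C (a : ℤ)) + C (b * M)) := ⟨_, rfl⟩
  have hRe : ∀ x : ℤ, R.eval x = P.eval x + Cc * J * (P.eval (x + a) + b * M) := by
    intro x
    rw [hR]
    simp only [eval_add, eval_mul, eval_C, eval_comp, eval_X]
  have hRm : ∀ m : ℕ, R.eval (m : ℤ) = φ ⬝ᵥ av k (av (g ^ m) (av (y * l) v)) := by
    intro m
    have h1 : ((m : ℤ) + a) = ((m + a : ℕ) : ℤ) := by push_cast; rfl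
    rw [hRe, h1, hgw, hgw, hl'v, av_add, av_smul, av_add, av_smul, dotProduct_add,
      dotProduct_smul, hsw, av_add, av_smul, av_pow_fix hgv, ← av_mul (g ^ m), ← pow_add, av_add,
      av_smul, dotProduct_add, dotProduct_smul, hA, hM]
    simp only [smul_eq_mul]
    ring
  have hR2 : A₁ ^ 2 ∣ R.eval (m₂ : ℤ) := by
    refine ⟨τ + E * (M' * Δ) + (A₁ * E - 1) * (κ₂ - κ₁) * (M' * M'), ?_⟩
    have e1 : P.eval ((m₂ : ℤ) + a) + b * M = P.eval (m₂ : ℤ) + a * Δ + (κ₂ - κ₁) * a ^ 2 := by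
      rw [hκ₂, hb, hΔ]
      linear_combination (P.derivative.eval (m₁ : ℤ) + κ₁ * a) * hε
    rw [hRe, e1, haM']
    linear_combination (P.eval (m₂ : ℤ) + A₁ * M' * Δ + (κ₂ - κ₁) * (A₁ * M') ^ 2) * hJE +
      A₁ * hτ
  have hR1 : E ∣ R.eval (m₁ : ℤ) := by
    refine ⟨P.eval (m₁ : ℤ) * A₁, ?_⟩
    rw [hRe, hbM]
    linear_combination P.eval (m₁ : ℤ) * hJE
  have hcop : IsCoprime (A₁ ^ 2) E := hE.symm.pow_left
  obtain ⟨m, hm2, hm1⟩ := crt_nat hcop (pow_ne_zero 2 hA₁) hE0 (m₂ : ℤ) (m₁ : ℤ)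
  refine ⟨y * l, mul_mem hy hl, A₁ * E, m, ?_, ?_, ?_, ?_⟩
  · rw [← hJE, add_sub_cancel_left]
    exact hJ.mul_right _
  · rw [hl'v, dotProduct_add, dotProduct_smul, hφsw, hB, ← hJE, smul_eq_mul]
    ring
  · intro i
    rw [hl'v, ← hw, Pi.add_apply, add_sub_cancel_left, Pi.smul_apply, smul_eq_mul]
    exact (hJ.mul_left _).mul_right _
  · rw [← hRm]
    have h1 : A₁ ^ 2 ∣ R.eval (m : ℤ) := by
      have := hm2.trans (sub_dvd_eval_sub (m : ℤ) (m₂ : ℤ) R)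
      exact (dvd_sub_left hR2).1 this
    have h2 : E ∣ R.eval (m : ℤ) := by
      have := hm1.trans (sub_dvd_eval_sub (m : ℤ) (m₁ : ℤ) R)
      exact (dvd_sub_left hR1).1 this
    have h3 := hcop.mul_dvd h1 h2
    have e : A₁ * (A₁ * E) = A₁ ^ 2 * E := by ring
    rw [e]
    exact h3

end Pool.Agent.Run7.h25.TV
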