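import Pool.Agent.Run7.h25.TV.Main

/-!
# The main theorem in terms of commuting unipotent elements
-/

set_option autoImplicit false
set_option linter.unusedSectionVars false

namespace Pool.Agent.Run7.h25.TV

open Matrix Pool.Agent.Helper460_CSP

variable {ι : Type} [DecidableEq ι] [Fintype ι] {H : Subgroup (SpecialLinearGroup ι ℤ)}

/-- The powers of `1 + N` with even exponents, when `N ^ 3 = 0`. -/
def En (N : Matrix ι ι ℤ) (t : ℤ) : Matrix ι ι ℤ := 1 + (2 * t) • N + (2 * t * t - t) • (N * N)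

lemma En_mul {N : Matrix ι ι ℤ} (h3 : N * N * N = 0) (s t : ℤ) : En N s * En N t = En N (s + t) := by
  have h3' : N * (N * N) = 0 := by rw [← Matrix.mul_assoc, h3]
  have h4 : N * N * (N * N) = 0 := by rw [← Matrix.mul_assoc, h3, Matrix.zero_mul]
  unfold En
  simp only [Matrix.mul_add, Matrix.add_mul, Matrix.one_mul, Matrix.mul_one, Matrix.smul_mul,
    Matrix.mul_smul, h3, h3', h4, smul_zero, add_zero]
  ext i j
  simp only [Matrix.add_apply, Matrix.smul_apply, smul_eq_mul]
  ring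

lemma En_zero (N : Matrix ι ι ℤ) : En N 0 = 1 := by
  unfold En
  simp

lemma mt_inv_eq {A : SpecialLinearGroup ι ℤ} {B : Matrix ι ι ℤ} (h : mt A * B = 1) :
    mt A⁻¹ = B := by
  have h2 : mt A⁻¹ * mt A = 1 := by rw [← mt_mul, inv_mul_cancel, mt_one]
  calc mt A⁻¹ = mt A⁻¹ * (mt A * B) := by rw [h, mul_one]
    _ = _ := by rw [← Matrix.mul_assoc, h2, one_mul]

lemma mt_sq_zpow {u : SpecialLinearGroup ι ℤ} {N : Matrix ι ι ℤ} (hu : mt u = 1 + N)
    (h3 : N * N * N = 0) (t : ℤ) : mt ((u * u) ^ t) = En N t := by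
  have h1 : mt (u * u) = En N 1 := by
    rw [mt_mul, hu]
    unfold En
    simp only [Matrix.mul_add, Matrix.add_mul, Matrix.one_mul, Matrix.mul_one]
    ext i j
    simp only [Matrix.add_apply, Matrix.smul_apply, smul_eq_mul]
    ring
  have h2 : mt (u * u)⁻¹ = En N (-1) := by
    apply mt_inv_eq
    rw [h1, En_mul h3, add_neg_cancel, En_zero]
  induction t using Int.induction_on with
  | zero => rw [zpow_zero, mt_one, En_zero]
  | succ i ih => rw [_root_.zpow_add_one, mt_mul, ih, h1, En_mul h3]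
  | pred i ih => rw [_root_.zpow_sub_one, mt_mul, ih, h2, En_mul h3, sub_eq_add_neg]

/-- A transvection. -/
def IsTv (z : SpecialLinearGroup ι ℤ) (v φ : ι → ℤ) : Prop :=
  v ≠ 0 ∧ φ ≠ 0 ∧ φ ⬝ᵥ v = 0 ∧ mt z = 1 + vecMulVec v φ

lemma comm_Nv {v φ : ι → ℤ} {N : Matrix ι ι ℤ} (hv : v ≠ 0) (hφ : φ ≠ 0)
    (hc : N * vecMulVec v φ = vecMulVec v φ * N) (hN : IsNilpotent N) :
    N *ᵥ v = 0 ∧ φ ᵥ* N = 0 := by
  rw [mul_vecMulVec, vecMulVec_mul] at hc
  obtain ⟨j, hj⟩ := Function.ne_iff.1 hφ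
  have hj' : φ j ≠ 0 := hj
  have h1 : φ j • (N *ᵥ v) = (φ ᵥ* N) j • v := by
    ext a
    have := congrFun (congrFun hc a) j
    rw [vecMulVec_apply, vecMulVec_apply] at this
    rw [Pi.smul_apply, Pi.smul_apply, smul_eq_mul, smul_eq_mul]
    linear_combination this
  have h2 : ∀ k : ℕ, (φ j) ^ k • ((N ^ k) *ᵥ v) = ((φ ᵥ* N) j) ^ k • v := by
    intro k
    induction k with
    | zero => simp
    | succ k ih =>
      have e1 : (φ j) ^ (k + 1) • (N ^ (k + 1) *ᵥ v) =
          N *ᵥ ((φ j) • ((φ j) ^ k • (N ^ k *ᵥ v))) := by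
        rw [mulVec_smul, mulVec_smul, mulVec_mulVec, ← pow_succ', smul_smul, ← pow_succ']
      rw [e1, ih, mulVec_smul, mulVec_smul, smul_comm, h1, smul_smul, ← pow_succ]
  obtain ⟨k, hk⟩ := hN
  have h3 := h2 k
  rw [hk, zero_mulVec, smul_zero] at h3
  have h4 : ((φ ᵥ* N) j) ^ k = 0 := by
    obtain ⟨i, hi⟩ := Function.ne_iff.1 hv
    have := congrFun h3 i
    rw [Pi.smul_apply, smul_eq_mul, Pi.zero_apply] at this
    exact (mul_eq_zero.1 this.symm).resolve_right hi
  have h5 : (φ ᵥ* N) j = 0 := by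
    by_contra hne
    exact pow_ne_zero k hne h4
  have h6 : N *ᵥ v = 0 := by
    rw [h5, zero_smul] at h1
    ext a
    have := congrFun h1 a
    rw [Pi.smul_apply, smul_eq_mul] at this
    exact (mul_eq_zero.1 this).resolve_left hj'
  refine ⟨h6, ?_⟩
  rw [h6, zero_vecMulVec] at hc
  rcases vecMulVec_eq_zero.1 hc.symm with h7 | h7
  · exact absurd h7 hv
  · exact h7

variable [Big ι]

/-- First form: the image of `(u - 1) ^ 2` is contained in the image of `z - 1`. -/
theorem uni_b {z u : SpecialLinearGroup ι ℤ} {v φ : ι → ℤ} (hH : Zd H) (hz : z ∈ H) (hu : u ∈ H)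
    (hzt : IsTv z v φ) (hc : u * z = z * u) (hN : IsNilpotent (mt u - 1))
    (hb : ∀ x : ι → ℤ, x ⬝ᵥ v = 0 → x ᵥ* ((mt u - 1) * (mt u - 1)) = 0)
    (hpow : ∀ a b : ℤ, u ^ a = z ^ b → a = 0) : Fi H := by
  obtain ⟨hv, hφ, hφv, hzm⟩ := hzt
  obtain ⟨N, hNe⟩ : ∃ N, N = mt u - 1 := ⟨_, rfl⟩
  have hum : mt u = 1 + N := by rw [hNe]; abel
  rw [← hNe] at hN hb
  have hcN : N * vecMulVec v φ = vecMulVec v φ * N := by
    have h1 : mt u * mt z = mt z * mt u := by rw [← mt_mul, hc, mt_mul]
    rw [hum, hzm] at h1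
    simp only [Matrix.mul_add, Matrix.add_mul, Matrix.one_mul, Matrix.mul_one] at h1
    ext i j
    have := congrFun (congrFun h1 i) j
    simp only [Matrix.add_apply] at this
    linarith
  obtain ⟨hNv, hφN⟩ := comm_Nv hv hφ hcN hN
  obtain ⟨b, hb'⟩ := Function.ne_iff.1 hv
  have hvb : v b ≠ 0 := hb'
  have hN2 : v b • (N * N) = vecMulVec v ((N * N) b) := by
    ext a i
    have h1 := congrFun (hb (v b • Pi.single a 1 - v a • Pi.single b 1) (by
      rw [sub_dotProduct, smul_dotProduct, smul_dotProduct, single_dotProduct, single_dotProduct,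
        smul_eq_mul, smul_eq_mul]
      ring)) i
    rw [sub_vecMul, smul_vecMul, smul_vecMul, single_one_vecMul, single_one_vecMul, Pi.sub_apply,
      Pi.smul_apply, Pi.smul_apply, smul_eq_mul, smul_eq_mul, Pi.zero_apply] at h1
    rw [Matrix.smul_apply, smul_eq_mul, vecMulVec_apply]
    have e1 : (N * N).row a i = (N * N) a i := rfl
    have e2 : (N * N).row b i = (N * N) b i := rfl
    rw [e1, e2] at h1
    linear_combination h1
  have hcancel : ∀ {M : Matrix ι ι ℤ}, v b • M = 0 → M = 0 := by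
    intro M hM
    ext i j
    have := congrFun (congrFun hM i) j
    rw [Matrix.smul_apply, smul_eq_mul] at this
    exact (mul_eq_zero.1 this).resolve_left hvb
  have h3' : N * (N * N) = 0 := by
    apply hcancel
    rw [← Matrix.mul_smul, hN2, mul_vecMulVec, hNv, zero_vecMulVec]
  have h3 : N * N * N = 0 := by rw [Matrix.mul_assoc, h3']
  have h4 : N * N * (N * N) = 0 := by rw [← Matrix.mul_assoc, h3, Matrix.zero_mul]
  have hTr : Tr H v φ := ⟨hφv, z, hz, hzm⟩
  have hβ : vecMulVec v ((2 * v b) • (N * N) b) = (2 * v b * v b) • (N * N) := by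
    rw [vecMulVec_smul, ← hN2, smul_smul]
  refine main (X := (2 * v b) • N - v b • (N * N)) (β := (2 * v b) • (N * N) b) hH hv hφ hTr
    ?_ ?_ ?_ ?_ ?_ ?_ ?_
  · rw [sub_mulVec, smul_mulVec, smul_mulVec, ← mulVec_mulVec, hNv, mulVec_zero, smul_zero,
      smul_zero, sub_zero]
  · rw [vecMul_sub, vecMul_smul, vecMul_smul, ← vecMul_vecMul, hφN, zero_vecMul, smul_zero,
      smul_zero, sub_zero]
  · have e1 : (N * N) b = (Pi.single b 1 : ι → ℤ) ᵥ* (N * N) := by
      rw [single_one_vecMul]; rfl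
    rw [smul_vecMul, e1, vecMul_vecMul, Matrix.mul_sub, Matrix.mul_smul, Matrix.mul_smul, h3, h4,
      smul_zero, smul_zero, sub_zero, vecMul_zero, smul_zero]
  · rw [smul_dotProduct]
    have : (N * N) b ⬝ᵥ v = ((N * N) *ᵥ v) b := rfl
    rw [this, ← mulVec_mulVec, hNv, mulVec_zero]
    simp
  · rw [hβ]
    simp only [Matrix.mul_sub, Matrix.sub_mul, Matrix.mul_smul, Matrix.smul_mul, h3, h3', h4,
      smul_zero, sub_zero, smul_smul]
    congr 1
    ring
  · intro m r
    obtain ⟨_, A, hA, hA'⟩ := hTr.smulv r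
    refine ⟨(u * u) ^ (v b * m) * A, mul_mem (H.zpow_mem (mul_mem hu hu) _) hA, ?_⟩
    rw [mt_mul, mt_sq_zpow hum h3, hA', Matrix.mul_add, mul_one]
    have e1 : En N (v b * m) * vecMulVec (r • v) φ = r • vecMulVec v φ := by
      rw [smul_vecMulVec, Matrix.mul_smul, mul_vecMulVec]
      congr 2
      unfold En
      rw [add_mulVec, add_mulVec, one_mulVec, smul_mulVec, smul_mulVec, ← mulVec_mulVec, hNv,
        mulVec_zero, smul_zero, smul_zero, add_zero, add_zero]
    rw [e1, hβ]
    congr 1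
    unfold En
    ext i j
    simp only [Matrix.add_apply, Matrix.sub_apply, Matrix.smul_apply, smul_eq_mul]
    ring
  · intro a c hac
    by_contra ha
    have h5 : N * N = 0 := by
      have h6 := congrArg (fun M => M * N) hac
      simp only [Matrix.smul_mul, Matrix.sub_mul, h3, smul_zero, sub_zero, vecMulVec_mul, hφN,
        vecMulVec_zero, smul_smul] at h6
      ext i j
      have := congrFun (congrFun h6 i) j
      rw [Matrix.smul_apply, smul_eq_mul, Matrix.zero_apply] at this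
      exact (mul_eq_zero.1 this).resolve_left (mul_ne_zero ha (mul_ne_zero two_ne_zero hvb))
    obtain ⟨_, A, hA, hA'⟩ := (Tr.smulv (H := Subgroup.zpowers z) c ⟨hφv, z,
      Subgroup.mem_zpowers z, hzm⟩ : Tr (Subgroup.zpowers z) (c • v) φ)
    obtain ⟨d, rfl⟩ := Subgroup.mem_zpowers_iff.1 hA
    have h7 : (u * u) ^ (a * v b) = z ^ d := by
      apply mt_inj
      rw [mt_sq_zpow hum h3, hA', smul_vecMulVec, ← hac]
      unfold En
      rw [h5, smul_zero, add_zero, smul_zero, sub_zero, smul_smul]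
      congr 2
      ring
    have h8 : u ^ (2 * (a * v b)) = z ^ d := by
      rw [← h7, ← zpow_two, ← _root_.zpow_mul]
    have h9 := hpow _ _ h8
    exact mul_ne_zero two_ne_zero (mul_ne_zero ha hvb) h9

/-- The transposed subgroup. -/
def HT (H : Subgroup (SpecialLinearGroup ι ℤ)) : Subgroup (SpecialLinearGroup ι ℤ) where
  carrier := {A | A.transpose ∈ H}
  mul_mem' := by
    intro A B hA hB
    have : (A * B).transpose = B.transpose * A.transpose := by
      apply Subtype.ext
      exact Matrix.transpose_mul _ _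
    show (A * B).transpose ∈ H
    rw [this]
    exact mul_mem hB hA
  one_mem' := by
    have : (1 : SpecialLinearGroup ι ℤ).transpose = 1 := by
      apply Subtype.ext
      exact Matrix.transpose_one
    show (1 : SpecialLinearGroup ι ℤ).transpose ∈ H
    rw [this]
    exact one_mem _
  inv_mem' := by
    intro A hA
    have h1 : A⁻¹.transpose * A.transpose = 1 := by
      apply Subtype.ext
      show (mt A⁻¹)ᵀ * (mt A)ᵀ = 1
      rw [← Matrix.transpose_mul, ← mt_mul, mul_inv_cancel, mt_one, Matrix.transpose_one]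
    show A⁻¹.transpose ∈ H
    rw [eq_inv_of_mul_eq_one_left h1]
    exact inv_mem hA

omit [Big ι] in
lemma tt (A : SpecialLinearGroup ι ℤ) : A.transpose.transpose = A := by
  apply Subtype.ext
  exact Matrix.transpose_transpose _

omit [Big ι] in
lemma Cgr.transpose {m : ℤ} {A : SpecialLinearGroup ι ℤ} (h : Cgr m A) : Cgr m A.transpose := by
  intro i j
  have := h j i
  have e : (1 : Matrix ι ι ℤ) j i = (1 : Matrix ι ι ℤ) i j := by
    rw [Matrix.one_apply, Matrix.one_apply]
    simp only [eq_comm]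
  rw [e] at this
  exact this

omit [Big ι] in
lemma transpose_inv (g : SpecialLinearGroup ι ℤ) : g.transpose⁻¹ = g⁻¹.transpose := by
  rw [inv_eq_iff_mul_eq_one]
  apply Subtype.ext
  show (mt g)ᵀ * (mt g⁻¹)ᵀ = 1
  rw [← Matrix.transpose_mul, ← mt_mul, inv_mul_cancel, mt_one, Matrix.transpose_one]

omit [Big ι] in
lemma PF.transpose {F : SpecialLinearGroup ι ℤ → ℤ} (hF : PF F) :
    PF (fun g => F g.transpose) := by
  induction hF with
  | const c => exact PF.const c
  | ent i j => exact PF.ent j i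
  | ient i j =>
    have : (fun g : SpecialLinearGroup ι ℤ => mt g.transpose⁻¹ i j) = fun g => mt g⁻¹ j i := by
      funext g
      rw [transpose_inv]
      rfl
    rw [this]
    exact PF.ient j i
  | add _ _ ih1 ih2 => exact ih1.add ih2
  | mul _ _ ih1 ih2 => exact ih1.mul ih2

omit [Big ι] in
lemma Zd.transpose (hH : Zd H) : Zd (HT H) := by
  rintro F hF ⟨g, hg⟩
  obtain ⟨k, hk, hk'⟩ := hH _ hF.transpose ⟨g.transpose, by rwa [tt]⟩
  refine ⟨k.transpose, ?_, hk'⟩
  show k.transpose.transpose ∈ H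
  rwa [tt]

/-- Second form: `(u - 1) ^ 2` vanishes on the fixed vectors of `z`. -/
theorem uni_a {z u : SpecialLinearGroup ι ℤ} {v φ : ι → ℤ} (hH : Zd H) (hz : z ∈ H) (hu : u ∈ H)
    (hzt : IsTv z v φ) (hc : u * z = z * u) (hN : IsNilpotent (mt u - 1))
    (hb : ∀ x : ι → ℤ, φ ⬝ᵥ x = 0 → ((mt u - 1) * (mt u - 1)) *ᵥ x = 0)
    (hpow : ∀ a b : ℤ, u ^ a = z ^ b → a = 0) : Fi H := by
  obtain ⟨hv, hφ, hφv, hzm⟩ := hzt
  have hmul : ∀ A B : SpecialLinearGroup ι ℤ, (A * B).transpose = B.transpose * A.transpose :=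
    fun A B => Subtype.ext (Matrix.transpose_mul _ _)
  have hone : (1 : SpecialLinearGroup ι ℤ).transpose = 1 := Subtype.ext Matrix.transpose_one
  have hinj : ∀ {A B : SpecialLinearGroup ι ℤ}, A.transpose = B.transpose → A = B := by
    intro A B h
    rw [← tt A, h, tt]
  have hpw : ∀ (A : SpecialLinearGroup ι ℤ) (a : ℤ), (A ^ a).transpose = A.transpose ^ a := by
    intro A a
    let f : (SpecialLinearGroup ι ℤ) →* (SpecialLinearGroup ι ℤ)ᵐᵒᵖ :=
      { toFun := fun A => MulOpposite.op A.transpose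
        map_one' := by rw [hone]; rfl
        map_mul' := fun A B => by rw [hmul]; rfl }
    have h1 := map_zpow f A a
    have h2 : MulOpposite.op (A ^ a).transpose = (MulOpposite.op A.transpose) ^ a := h1
    rw [← MulOpposite.op_zpow] at h2
    exact MulOpposite.op_injective h2
  have htop : Fi (HT H) := by
    refine uni_b (z := z.transpose) (u := u.transpose) (v := φ) (φ := v) (Zd.transpose hH) ?_ ?_
      ⟨hφ, hv, by rw [dotProduct_comm]; exact hφv, ?_⟩ ?_ ?_ ?_ ?_
    · show z.transpose.transpose ∈ H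
      rw [tt]; exact hz
    · show u.transpose.transpose ∈ H
      rw [tt]; exact hu
    · show (mt z)ᵀ = _
      rw [hzm, Matrix.transpose_add, Matrix.transpose_one, transpose_vecMulVec]
    · rw [← hmul, ← hmul, hc]
    · have e1 : mt u.transpose - 1 = (mt u - 1)ᵀ := by
        rw [Matrix.transpose_sub, Matrix.transpose_one]; rfl
      rw [e1]
      obtain ⟨k, hk⟩ := hN
      exact ⟨k, by rw [← Matrix.transpose_pow, hk, Matrix.transpose_zero]⟩
    · intro x hx
      have e1 : mt u.transpose - 1 = (mt u - 1)ᵀ := by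
        rw [Matrix.transpose_sub, Matrix.transpose_one]; rfl
      rw [e1, ← Matrix.transpose_mul, vecMul_transpose]
      exact hb x (by rw [dotProduct_comm]; exact hx)
    · intro a b hab
      apply hpow a b
      apply hinj
      rw [hpw, hpw, hab]
  obtain ⟨M, hM, hall⟩ := htop
  refine ⟨M, hM, fun A hA => ?_⟩
  have h2 : A.transpose.transpose ∈ H := hall A.transpose (Cgr.transpose hA)
  rwa [tt] at h2

end Pool.Agent.Run7.h25.TV
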