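import Pool.Agent.Run7.h25.TV.Genl

/-!
# A transvection and any commuting unipotent element, in terms of group elements
-/

set_option autoImplicit false
set_option linter.unusedSectionVars false

namespace Pool.Agent.Run7.h25.TV

open Matrix Pool.Agent.Helper460_CSP

variable {ι : Type} [DecidableEq ι] [Fintype ι] {H : Subgroup (SpecialLinearGroup ι ℤ)} [Big ι]

/-- **A Zariski dense subgroup which contains a transvection and a commuting unipotent element has
finite index.** -/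
theorem uni {z u : SpecialLinearGroup ι ℤ} {v φ : ι → ℤ} (hH : Zd H) (hz : z ∈ H) (hu : u ∈ H)
    (hzt : IsTv z v φ) (hc : u * z = z * u) (hN : IsNilpotent (mt u - 1))
    (hpow : ∀ a b : ℤ, u ^ a = z ^ b → a = 0) : Fi H := by
  classical
  obtain ⟨hv, hφ, hφv, hzm⟩ := hzt
  obtain ⟨N, hNe⟩ : ∃ N, N = mt u - 1 := ⟨_, rfl⟩
  have hum : mt u = 1 + N := by rw [hNe]; abel
  have hcN : N * vecMulVec v φ = vecMulVec v φ * N := by
    have h1 : mt u * mt z = mt z * mt u := by rw [← mt_mul, hc, mt_mul]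
    rw [hum, hzm] at h1
    simp only [Matrix.mul_add, Matrix.add_mul, Matrix.one_mul, Matrix.mul_one] at h1
    ext i j
    have := congrFun (congrFun h1 i) j
    simp only [Matrix.add_apply] at this
    linarith
  have hN' := hN
  rw [← hNe] at hN'
  obtain ⟨hNv, hφN⟩ := comm_Nv hv hφ hcN hN'
  obtain ⟨n, hn⟩ := hN'
  by_cases h : ∃ j, 2 ≤ j ∧ ∃ a b i, v a * (N ^ j) b i - v b * (N ^ j) a i ≠ 0
  · obtain ⟨j, hj, hPj⟩ := h
    have hbig : ∀ j, n < j → ¬ ∃ a b i, v a * (N ^ j) b i - v b * (N ^ j) a i ≠ 0 := by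
      rintro j hj ⟨a, b, i, h1⟩
      apply h1
      rw [pow_eq_zero_of_le hj.le hn]
      simp
    have hjn : j ≤ n := by
      by_contra hcon
      exact hbig j (not_le.1 hcon) hPj
    obtain ⟨E, hE⟩ : ∃ E, E = Nat.findGreatest
      (fun j => ∃ a b i, v a * (N ^ j) b i - v b * (N ^ j) a i ≠ 0) n := ⟨_, rfl⟩
    have hE1 : ∃ a b i, v a * (N ^ E) b i - v b * (N ^ E) a i ≠ 0 := by
      rw [hE]
      exact Nat.findGreatest_spec (P := fun j => ∃ a b i, v a * (N ^ j) b i -
        v b * (N ^ j) a i ≠ 0) hjn hPj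
    have hE2 : j ≤ E := by
      rw [hE]
      exact Nat.le_findGreatest hjn hPj
    have hE3 : ∀ m, E < m → ¬ ∃ a b i, v a * (N ^ m) b i - v b * (N ^ m) a i ≠ 0 := by
      intro m hm
      by_cases hmn : m ≤ n
      · rw [hE] at hm
        exact Nat.findGreatest_is_greatest hm hmn
      · exact hbig m (not_le.1 hmn)
    obtain ⟨e, rfl⟩ : ∃ e, E = e + 2 := ⟨E - 2, by omega⟩
    obtain ⟨a, b, i, habi⟩ := hE1
    refine gen hH hv hφ ⟨hφv, z, hz, hzm⟩ hu hum (n := n) (by rw [pow_succ, hn, Matrix.zero_mul])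
      hNv hφN (fun m hm a b i => ?_) habi
    by_contra hne
    exact hE3 m hm ⟨a, b, i, hne⟩
  · push Not at h
    refine uni_b hH hz hu ⟨hv, hφ, hφv, hzm⟩ hc hN (fun x hx => ?_) hpow
    rw [← hNe]
    obtain ⟨b, hb'⟩ := Function.ne_iff.1 hv
    have hvb : v b ≠ 0 := hb'
    ext i
    have h1 : v b * (x ᵥ* (N * N)) i = (x ⬝ᵥ v) * (N * N) b i := by
      unfold vecMul dotProduct
      rw [Finset.mul_sum, Finset.sum_mul]
      refine Finset.sum_congr rfl fun a _ => ?_
      have h2 := h 2 le_rfl b a i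
      rw [pow_two] at h2
      linear_combination x a * h2
    rw [hx, zero_mul] at h1
    exact (mul_eq_zero.1 h1).resolve_left hvb

end Pool.Agent.Run7.h25.TV
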